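import Mathlib

/-!
Probability lemmas on infinite product measures used for exchangeable arrays:
resampling of a set of coordinates, uniform random variables on atomless standard spaces.
-/

open MeasureTheory Measure ProbabilityTheory Set
open scoped unitInterval ENNReal

namespace Pool.Agent.Q136.Arr

section glue

variable {ι X : Type*}

open Classical in
/-- Replace the coordinates of `x` in `S` by those of `v`. -/
noncomputable def glue (S : Set ι) (v : S → X) (x : ι → X) : ι → X :=
  fun i => if h : i ∈ S then v ⟨i, h⟩ else x i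

lemma glue_mem (S : Set ι) (v : S → X) (x : ι → X) {i : ι} (h : i ∈ S) :
    glue S v x i = v ⟨i, h⟩ := by
  simp [glue, h]

lemma glue_notMem (S : Set ι) (v : S → X) (x : ι → X) {i : ι} (h : i ∉ S) :
    glue S v x i = x i := by
  simp [glue, h]

variable [MeasurableSpace X]

lemma measurable_glue (S : Set ι) :
    Measurable (fun p : (S → X) × (ι → X) => glue S p.1 p.2) := by
  refine measurable_pi_lambda _ fun i => ?_
  by_cases h : i ∈ S
  · simp only [glue_mem S _ _ h]; fun_prop
  · simp only [glue_notMem S _ _ h]; fun_prop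

theorem map_glue (μ : Measure X) [IsProbabilityMeasure μ] (S : Set ι) :
    ((infinitePi (fun _ : S => μ)).prod (infinitePi (fun _ : ι => μ))).map
      (fun p => glue S p.1 p.2) = infinitePi (fun _ : ι => μ) := by
  classical
  refine eq_infinitePi _ fun s t ht => ?_
  rw [Measure.map_apply (measurable_glue S) (MeasurableSet.pi s.countable_toSet fun i _ => ht i)]
  have h : (fun p : (S → X) × (ι → X) => glue S p.1 p.2) ⁻¹' (Set.pi (s : Set ι) t)
      = (Set.pi ((s.subtype (· ∈ S) : Finset S) : Set S) (fun i => t i)) ×ˢ
        (Set.pi ((s.filter (· ∉ S) : Finset ι) : Set ι) t) := by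
    ext p
    simp only [mem_preimage, Set.mem_pi, SetLike.mem_coe, mem_prod, Finset.mem_subtype,
      Finset.mem_filter]
    constructor
    · intro hp
      refine ⟨fun i hi => ?_, fun i hi => ?_⟩
      · have := hp i.1 hi
        rwa [glue_mem S _ _ i.2] at this
      · have := hp i hi.1
        rwa [glue_notMem S _ _ hi.2] at this
    · rintro ⟨h1, h2⟩ i hi
      by_cases hS : i ∈ S
      · rw [glue_mem S _ _ hS]; exact h1 ⟨i, hS⟩ hi
      · rw [glue_notMem S _ _ hS]; exact h2 i ⟨hi, hS⟩
  have h1 : infinitePi (fun _ : S => μ)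
      (Set.pi ((s.subtype (· ∈ S) : Finset S) : Set S) (fun i => t i))
      = ∏ i ∈ s.filter (· ∈ S), μ (t i) := by
    rw [infinitePi_pi (μ := fun _ : S => μ) (t := fun i : S => t i) (fun i _ => ht i)]
    exact Finset.prod_subtype_eq_prod_filter (s := s) (p := (· ∈ S)) (fun i => μ (t i))
  rw [h, Measure.prod_prod, h1, infinitePi_pi _ (fun i _ => ht i),
    Finset.prod_filter_mul_prod_filter_not]

end glue

section resample

variable {ι X Z : Type*} [MeasurableSpace X] [MeasurableSpace Z]

/-- If `K` is independent of the coordinates in `S`, then resampling the other coordinates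
gives `K` its own law, for almost every value of the coordinates in `S`. -/
theorem ae_resample (μ : Measure X) [IsProbabilityMeasure μ] (S : Set ι) {K : (ι → X) → Z}
    (hK : Measurable K)
    (hind : IndepFun K (fun θ (i : S) => θ i) (infinitePi (fun _ : ι => μ)))
    {E : Set Z} (hE : MeasurableSet E) :
    ∀ᵐ v ∂(infinitePi (fun _ : S => μ)),
      (infinitePi (fun _ : ι => μ)) {x | K (glue S v x) ∈ E}
        = (infinitePi (fun _ : ι => μ)) {x | K x ∈ E} := by
  set P := infinitePi (fun _ : ι => μ) with hP
  set Q := infinitePi (fun _ : S => μ) with hQ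
  have hmeas : MeasurableSet {p : (S → X) × (ι → X) | K (glue S p.1 p.2) ∈ E} :=
    (hK.comp (measurable_glue S)) hE
  have hq : Measurable (fun v => P {x | K (glue S v x) ∈ E}) :=
    measurable_measure_prodMk_left hmeas
  refine ae_eq_of_forall_setLIntegral_eq_of_sigmaFinite hq measurable_const ?_
  intro F hF _
  rw [setLIntegral_const]
  have h1 : ∫⁻ v in F, P {x | K (glue S v x) ∈ E} ∂Q
      = (Q.prod P) {p | p.1 ∈ F ∧ K (glue S p.1 p.2) ∈ E} := by
    have hm : MeasurableSet {p : (S → X) × (ι → X) | p.1 ∈ F ∧ K (glue S p.1 p.2) ∈ E} :=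
      (measurable_fst hF).inter hmeas
    rw [Measure.prod_apply hm, ← lintegral_indicator hF]
    refine lintegral_congr fun v => ?_
    by_cases hv : v ∈ F
    · simp [hv, Set.indicator]
    · simp [hv, Set.indicator]
  have h2 : (Q.prod P) {p | p.1 ∈ F ∧ K (glue S p.1 p.2) ∈ E}
      = P (K ⁻¹' E ∩ (fun θ (i : S) => θ i) ⁻¹' F) := by
    have hm2 : MeasurableSet (K ⁻¹' E ∩ (fun θ : ι → X => fun (i : S) => θ i) ⁻¹' F) := by
      refine (hK hE).inter (MeasurableSet.preimage hF (by fun_prop))
    have h3 : P (K ⁻¹' E ∩ (fun θ (i : S) => θ i) ⁻¹' F)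
        = ((Q.prod P).map (fun p => glue S p.1 p.2))
          (K ⁻¹' E ∩ (fun θ (i : S) => θ i) ⁻¹' F) := by
      rw [hQ, hP, map_glue μ S]
    rw [h3, Measure.map_apply (measurable_glue S) hm2]
    congr 1
    ext p
    have : (fun (i : S) => glue S p.1 p.2 i) = p.1 := by
      funext i
      exact glue_mem S _ _ i.2
    change (p.1 ∈ F ∧ K (glue S p.1 p.2) ∈ E) ↔
      (K (glue S p.1 p.2) ∈ E ∧ (fun (i : S) => glue S p.1 p.2 i) ∈ F)
    rw [this]
    exact and_comm
  rw [h1, h2, hind.measure_inter_preimage_eq_mul _ _ hE hF]
  congr 1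
  rw [hP, ← Measure.map_apply (by fun_prop) hF]
  have := Measure.map_infinitePi_infinitePi_of_inj (P := fun _ : ι => μ)
    (f := ((↑) : S → ι)) Subtype.val_injective
  rw [this]

end resample

section uniform

variable {X : Type*} [MeasurableSpace X] [StandardBorelSpace X] (μ : Measure X)
  [IsProbabilityMeasure μ] [NullSingletonClass μ]

/-- A measurable injection to the reals. -/
lemma exists_embed (X : Type*) [MeasurableSpace X] [StandardBorelSpace X] :
    ∃ e : X → ℝ, Measurable e ∧ Function.Injective e :=
  ⟨embeddingReal X, (measurableEmbedding_embeddingReal X).measurable,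
    (measurableEmbedding_embeddingReal X).injective⟩

/-- On an atomless standard probability space there is a uniform random variable. -/
theorem exists_uniform : ∃ U : X → I, Measurable U ∧ μ.map U = (volume : Measure I) := by
  have he := measurableEmbedding_embeddingReal X
  set e := embeddingReal X with hedef
  obtain ⟨ν, hν⟩ : ∃ ν, ν = μ.map e := ⟨_, rfl⟩
  have hνp : IsProbabilityMeasure ν := by
    rw [hν]; exact isProbabilityMeasure_map he.measurable.aemeasurable
  have hνa : ∀ x : ℝ, ν {x} = 0 := by
    intro x
    rw [hν, Measure.map_apply he.measurable (measurableSet_singleton x)]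
    have : (e ⁻¹' {x}).Subsingleton := by
      intro a ha b hb
      exact he.injective (by simp only [mem_preimage, mem_singleton_iff] at ha hb; rw [ha, hb])
    exact this.measure_zero μ
  have hνn : NullSingletonClass ν := ⟨hνa⟩
  obtain ⟨F, hF⟩ : ∃ F : ℝ → ℝ, F = fun x => ProbabilityTheory.cdf ν x := ⟨_, rfl⟩
  have hF0 : ∀ x, 0 ≤ F x := fun x => by rw [hF]; exact ProbabilityTheory.cdf_nonneg ν x
  have hF1 : ∀ x, F x ≤ 1 := fun x => by rw [hF]; exact ProbabilityTheory.cdf_le_one ν x
  have hFm : Monotone F := by rw [hF]; exact ProbabilityTheory.monotone_cdf ν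
  have hFv : ∀ x, ENNReal.ofReal (F x) = ν (Iic x) := fun x => by
    rw [hF]; exact ProbabilityTheory.ofReal_cdf ν x
  have hFc : Continuous F := by
    rw [continuous_iff_continuousAt]
    intro x
    rw [hF]
    have hr : ContinuousWithinAt (fun x => ProbabilityTheory.cdf ν x) (Ici x) x :=
      (ProbabilityTheory.cdf ν).right_continuous x
    have hl : ContinuousWithinAt (fun x => ProbabilityTheory.cdf ν x) (Iic x) x := by
      have h1 := (ProbabilityTheory.cdf ν).measure_singleton x
      rw [ProbabilityTheory.measure_cdf, hνa] at h1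
      have h2 : Function.leftLim (ProbabilityTheory.cdf ν) x = ProbabilityTheory.cdf ν x := by
        have h3 : Function.leftLim (ProbabilityTheory.cdf ν) x ≤ ProbabilityTheory.cdf ν x :=
          (ProbabilityTheory.monotone_cdf ν).leftLim_le le_rfl
        have h4 : ProbabilityTheory.cdf ν x - Function.leftLim (ProbabilityTheory.cdf ν) x ≤ 0 := by
          rw [← ENNReal.ofReal_eq_zero]; exact h1.symm
        linarith
      have h5 := ((ProbabilityTheory.monotone_cdf ν).tendsto_leftLim x)
      rw [h2] at h5
      have h6 : ContinuousWithinAt (fun x => ProbabilityTheory.cdf ν x) (Iio x) x := h5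
      rw [← Iio_insert]
      exact continuousWithinAt_insert_self.2 h6
    have := hl.union hr
    rwa [Iic_union_Ici, continuousWithinAt_univ] at this
  have hkey : ∀ t : ℝ, 0 ≤ t → t ≤ 1 → ν {x | F x ≤ t} = ENNReal.ofReal t := by
    intro t ht0 ht1
    rcases eq_or_lt_of_le ht1 with rfl | ht1
    · have : {x | F x ≤ 1} = univ := by
        ext x; simp [hF1 x]
      rw [this]; simp
    by_cases hne : ∃ x, F x ≤ t
    · obtain ⟨x0, hx0⟩ := hne
      have htop : Filter.Tendsto F Filter.atTop (nhds 1) := by
        rw [hF]; exact ProbabilityTheory.tendsto_cdf_atTop ν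
      obtain ⟨x1, hx1⟩ : ∃ x1, t < F x1 := by
        have := (htop.eventually (lt_mem_nhds ht1)).exists
        exact this
      have hbdd : BddAbove {x | F x ≤ t} := ⟨x1, fun x hx => by
        by_contra hcon
        push Not at hcon
        have h1 := hFm hcon.le
        have h2 : F x ≤ t := hx
        linarith⟩
      have hcl : IsClosed {x | F x ≤ t} := isClosed_le hFc continuous_const
      have hmem : sSup {x | F x ≤ t} ∈ {x | F x ≤ t} := hcl.csSup_mem ⟨x0, hx0⟩ hbdd
      obtain ⟨c, hc⟩ : ∃ c, c = sSup {x | F x ≤ t} := ⟨_, rfl⟩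
      rw [← hc] at hmem
      have hset : {x | F x ≤ t} = Iic c := by
        ext x
        constructor
        · intro hx
          rw [mem_Iic, hc]
          exact le_csSup hbdd hx
        · intro hx
          exact le_trans (hFm hx) hmem
      have hFct : F c = t := by
        refine le_antisymm hmem ?_
        have h1 : ∀ y, c < y → t < F y := by
          intro y hy
          by_contra hcon
          push Not at hcon
          have : y ∈ {x | F x ≤ t} := hcon
          rw [hset] at this
          exact absurd this (not_le.2 hy)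
        have h2 : Filter.Tendsto F (nhdsWithin c (Ioi c)) (nhds (F c)) :=
          hFc.continuousAt.tendsto.mono_left nhdsWithin_le_nhds
        refine ge_of_tendsto h2 ?_
        filter_upwards [self_mem_nhdsWithin] with y hy
        exact (h1 y hy).le
      rw [hset, ← hFv, hFct]
    · push Not at hne
      have h0 : t = 0 := by
        have hbot : Filter.Tendsto F Filter.atBot (nhds 0) := by
          rw [hF]; exact ProbabilityTheory.tendsto_cdf_atBot ν
        have := ge_of_tendsto hbot (b := t) (Filter.Eventually.of_forall fun x => (hne x).le)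
        linarith
      have : {x | F x ≤ t} = ∅ := by
        ext x
        simp only [mem_empty_iff_false, iff_false]
        exact not_le.2 (hne x)
      rw [this, h0]; simp
  refine ⟨fun x => ⟨F (e x), hF0 _, hF1 _⟩, ?_, ?_⟩
  · exact (hFc.measurable.comp he.measurable).subtype_mk
  · have hUm : Measurable (fun x : X => (⟨F (e x), hF0 _, hF1 _⟩ : I)) :=
      (hFc.measurable.comp he.measurable).subtype_mk
    have hp : IsProbabilityMeasure (μ.map (fun x : X => (⟨F (e x), hF0 _, hF1 _⟩ : I))) :=
      isProbabilityMeasure_map hUm.aemeasurable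
    refine Measure.ext_of_Iic _ _ fun t => ?_
    rw [Measure.map_apply hUm measurableSet_Iic]
    have h1 : (fun x : X => (⟨F (e x), hF0 _, hF1 _⟩ : I)) ⁻¹' (Iic t)
        = e ⁻¹' {x | F x ≤ (t : ℝ)} := by
      ext x; rfl
    rw [h1, ← Measure.map_apply he.measurable (measurableSet_le hFc.measurable measurable_const),
      ← hν, hkey t t.2.1 t.2.2]
    rw [unitInterval.volume_Iic]

/-- Every law on a standard Borel space is the law of a random variable on `(X, μ)`. -/
theorem exists_law {Y : Type*} [MeasurableSpace Y] [StandardBorelSpace Y] (ν : Measure Y)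
    [IsProbabilityMeasure ν] : ∃ s : X → Y, Measurable s ∧ μ.map s = ν := by
  obtain ⟨U, hU, hUμ⟩ := exists_uniform μ
  have : Nonempty Y := by
    by_contra h
    rw [not_nonempty_iff] at h
    have h1 : ν univ = 1 := measure_univ
    rw [Set.univ_eq_empty_iff.2 h] at h1
    simp at h1
  obtain ⟨f, hf, hfν⟩ := Measure.exists_measurable_map_eq ν
  exact ⟨f ∘ U, hf.comp hU, by rw [← Measure.map_map hf hU, hUμ, hfν]⟩

/-- Splitting every coordinate into two independent ones. -/
theorem exists_split (ι : Type*) : ∃ s₁ s₂ : X → X, Measurable s₁ ∧ Measurable s₂ ∧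
    (infinitePi (fun _ : ι => μ)).map (fun θ => ((fun i => s₁ (θ i)), (fun i => s₂ (θ i))))
      = (infinitePi (fun _ : ι => μ)).prod (infinitePi (fun _ : ι => μ)) := by
  obtain ⟨s, hs, hsμ⟩ := exists_law μ (infinitePi (fun _ : Bool => μ))
  have hs1 : Measurable (fun x => s x false) := (measurable_pi_apply false).comp hs
  have hs2 : Measurable (fun x => s x true) := (measurable_pi_apply true).comp hs
  refine ⟨fun x => s x false, fun x => s x true, hs1, hs2, ?_⟩
  obtain ⟨D, hD⟩ : ∃ D, D = infinitePi (fun _ : ι × Bool => μ) := ⟨_, rfl⟩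
  have hDp : IsProbabilityMeasure D := by rw [hD]; infer_instance
  -- the law of the family `s (θ i) b`
  have h1 : (infinitePi (fun _ : ι => μ)).map (fun θ (p : ι × Bool) => s (θ p.1) p.2) = D := by
    have h2 := infinitePi_map_pi (fun _ : ι => μ) (f := fun _ => s) (fun _ => hs)
    simp only [hsμ] at h2
    have h3 := infinitePi_map_curry_symm (fun (_ : ι) (_ : Bool) => μ)
    rw [← h2, Measure.map_map (by fun_prop) (by fun_prop)] at h3
    rw [hD, ← h3]
    rfl
  -- the law of the two halves of a family indexed by `ι × Bool`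
  have hm1 : Measurable (fun (x : ι × Bool → X) (i : ι) => x (i, false)) := by fun_prop
  have hm2 : Measurable (fun (x : ι × Bool → X) (i : ι) => x (i, true)) := by fun_prop
  have h4 : D.map (fun x => ((fun i => x (i, false)), (fun i => x (i, true))))
      = (infinitePi (fun _ : ι => μ)).prod (infinitePi (fun _ : ι => μ)) := by
    set S : Set (ι × Bool) := {p | p.2 = true} with hS
    have h5 := map_glue μ S
    rw [← hD] at h5
    have h6 : D.map (fun x => ((fun i : ι => x (i, false)), (fun i : ι => x (i, true))))
        = ((infinitePi (fun _ : S => μ)).prod D).map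
          (fun p => ((fun i : ι => p.2 (i, false)), (fun i : ι => p.1 ⟨(i, true), rfl⟩))) := by
      conv_lhs => rw [← h5]
      rw [Measure.map_map (by fun_prop) (measurable_glue S)]
      congr 1
      funext p
      refine Prod.ext ?_ ?_
      · funext i
        exact glue_notMem S _ _ (by simp [hS])
      · funext i
        exact glue_mem S _ _ (by simp [hS])
    rw [h6]
    have h7 : (fun p : (S → X) × (ι × Bool → X) =>
        ((fun i : ι => p.2 (i, false)), (fun i : ι => p.1 ⟨(i, true), rfl⟩)))
        = (Prod.map (fun (x : ι × Bool → X) (i : ι) => x (i, false))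
            (fun (v : S → X) (i : ι) => v ⟨(i, true), rfl⟩)) ∘ Prod.swap := rfl
    have hm3 : Measurable (fun (v : S → X) (i : ι) => v ⟨(i, true), rfl⟩) := by fun_prop
    rw [h7, ← Measure.map_map (hm1.prodMap hm3) measurable_swap, Measure.prod_swap,
      ← Measure.map_prod_map _ _ hm1 hm3]
    congr 1
    · rw [hD]
      exact Measure.map_infinitePi_infinitePi_of_inj (P := fun _ : ι × Bool => μ)
        (f := fun i : ι => (i, false)) (fun a b h => (Prod.ext_iff.1 h).1)
    · exact Measure.map_infinitePi_infinitePi_of_inj (P := fun _ : S => μ)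
        (f := fun i : ι => (⟨(i, true), rfl⟩ : S))
        (fun a b h => by
          have := congrArg (fun z : S => z.1.1) h
          exact this)
  rw [← h4, ← h1, Measure.map_map (by fun_prop) (by fun_prop)]
  rfl

end uniform

end Pool.Agent.Q136.Arr
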