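import Mathlib

/-!
Exchangeable arrays of Euclidean structures: definitions.
-/

open MeasureTheory Measure ProbabilityTheory Set

namespace Pool.Agent.Q136.Arr

/-- A finite relational language: finitely many predicates, of positive arities. -/
structure Lang where
  /-- the predicate symbols -/
  Pred : Type
  fin : Finite Pred
  /-- the arity -/
  ar : Pred → ℕ
  ar_pos : ∀ P, 0 < ar P

/-- `r(V)`: the nonempty finite subsets of `V`. -/
abbrev NF (V : Type) : Type := {A : Finset V // A.Nonempty}

/-- The image `α(A)` of a nonempty finite set under an injection. -/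
def NF.map {V W : Type} (α : V ↪ W) (A : NF V) : NF W := ⟨A.1.map α, A.2.map⟩

/-- Ground atoms of the language over the vertex set `V`: a predicate together with an
injective tuple of vertices. -/
abbrev Lang.Atom (L : Lang) (V : Type) : Type := Σ P : L.Pred, (Fin (L.ar P) ↪ V)

/-- `L`-structures on `V` whose predicates hold only on injective tuples: the truth values of the
ground atoms.  They carry the product σ-algebra. -/
abbrev Lang.Str (L : Lang) (V : Type) : Type := L.Atom V → Prop

/-- The structure induced along an injection. -/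
def Lang.Str.comap {L : Lang} {V W : Type} (e : V ↪ W) (K : L.Str W) : L.Str V :=
  fun a => K ⟨a.1, a.2.trans e⟩

/-- A universal theory: it says, for every `n`, which structures on `Fin n` may occur as
(labelled) induced substructures. -/
def UTheory (L : Lang) : Type := ∀ n : ℕ, Set (L.Str (Fin n))

/-- `K` is a model of the universal theory `T`. -/
def IsModel {L : Lang} {V : Type} (T : UTheory L) (K : L.Str V) : Prop :=
  ∀ (n : ℕ) (e : Fin n ↪ V), K.comap e ∈ T n

/-- A Euclidean structure over `X`: for every predicate `P` a measurable set (peon)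
in `X^{r(k(P))}`. -/
structure Eucl (L : Lang) (X : Type) [MeasurableSpace X] where
  /-- the peons -/
  peon : ∀ P : L.Pred, Set (NF (Fin (L.ar P)) → X)
  meas : ∀ P, MeasurableSet (peon P)

variable {L : Lang} {X : Type} [MeasurableSpace X]

/-- The structure on `ℕ` determined by `N` and the variables `θ_A`, `A ∈ r(ℕ)`. -/
def Eucl.arr (N : Eucl L X) (θ : NF ℕ → X) : L.Str ℕ :=
  fun a => (fun A => θ (NF.map a.2 A)) ∈ N.peon a.1

/-- The law of the i.i.d. family `(θ_A)_{A ∈ r(ℕ)}`. -/
noncomputable def iid (μ : Measure X) [IsProbabilityMeasure μ] : Measure (NF ℕ → X) :=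
  Measure.infinitePi (fun _ => μ)

variable (μ : Measure X) [IsProbabilityMeasure μ]

/-- `N` is a `T`-on: its array is almost surely a model of `T`. -/
def Eucl.IsOn (N : Eucl L X) (T : UTheory L) : Prop :=
  ∀ᵐ θ ∂(iid μ), IsModel T (N.arr θ)

/-- The law of the array of `N`. -/
noncomputable def Eucl.law (N : Eucl L X) : Measure (L.Str ℕ) := (iid μ).map N.arr

/-- `φ` is a limit object of `T`, represented by `N`. -/
def Represents (T : UTheory L) (N : Eucl L X) (φ : Measure (L.Str ℕ)) : Prop :=
  N.IsOn μ T ∧ N.law μ = φ

/-- `φ` is a limit object of `T`. -/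
def IsLimit (T : UTheory L) (φ : Measure (L.Str ℕ)) : Prop :=
  ∃ N : Eucl L X, Represents μ T N φ

/-- All peons of `N` depend only on the coordinates `x_A` with `|A| ∈ C`. -/
def Eucl.Compatible (N : Eucl L X) (C : Set ℕ) : Prop :=
  ∀ (P : L.Pred) (x y : NF (Fin (L.ar P)) → X), (∀ A, A.1.card ∈ C → x A = y A) →
    (x ∈ N.peon P ↔ y ∈ N.peon P)

/-- `φ` is `C`-compatible. -/
def IsCompatible (T : UTheory L) (φ : Measure (L.Str ℕ)) (C : Set ℕ) : Prop :=
  ∃ N : Eucl L X, Represents μ T N φ ∧ N.Compatible C

/-- `φ` is weakly `(ℕ₊ ∖ B)`-compatible: some `T`-on representing `φ` has an array that is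
independent of `(θ_A : |A| ∈ B)`. -/
def IsWeaklyCompatible (T : UTheory L) (φ : Measure (L.Str ℕ)) (B : Set ℕ) : Prop :=
  ∃ N : Eucl L X, Represents μ T N φ ∧
    IndepFun N.arr (fun (θ : NF ℕ → X) (A : {A : NF ℕ // A.1.card ∈ B}) => θ A.1) (iid μ)

/-! ### Basic facts -/

instance : IsProbabilityMeasure (iid μ) := by unfold iid; infer_instance

omit [MeasurableSpace X] in
lemma NF.card_map {V W : Type} (α : V ↪ W) (A : NF V) : (NF.map α A).1.card = A.1.card :=
  Finset.card_map _

lemma NF.map_injective {V W : Type} (α : V ↪ W) : Function.Injective (NF.map α) := by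
  intro A B h
  apply Subtype.ext
  have := congrArg Subtype.val h
  exact Finset.map_injective α this

instance (L : Lang) : Finite L.Pred := L.fin

instance instCountableEmb (k : ℕ) : Countable (Fin k ↪ ℕ) :=
  (DFunLike.coe_injective (F := Fin k ↪ ℕ)).countable

instance (L : Lang) : Countable (L.Atom ℕ) := by
  infer_instance

instance (L : Lang) (n : ℕ) : Finite (L.Atom (Fin n)) := by
  infer_instance

lemma measurable_comap {V W : Type} (e : V ↪ W) :
    Measurable (fun K : L.Str W => Lang.Str.comap e K) := by
  refine measurable_pi_lambda _ fun a => ?_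
  exact measurable_pi_apply _

lemma measurableSet_theory (T : UTheory L) (n : ℕ) : MeasurableSet (T n) :=
  (Set.toFinite _).measurableSet

lemma measurableSet_isModel (T : UTheory L) : MeasurableSet {K : L.Str ℕ | IsModel T K} := by
  have : {K : L.Str ℕ | IsModel T K} = ⋂ (n : ℕ), ⋂ (e : Fin n ↪ ℕ),
      (fun K : L.Str ℕ => Lang.Str.comap e K) ⁻¹' (T n) := by
    ext K
    simp only [mem_iInter, mem_preimage]
    exact Iff.rfl
  rw [this]
  exact MeasurableSet.iInter fun n => MeasurableSet.iInter fun e =>
    (measurable_comap e) (measurableSet_theory T n)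

lemma Eucl.measurable_arr (N : Eucl L X) : Measurable N.arr := by
  refine measurable_pi_lambda _ fun a => ?_
  have h1 : Measurable (fun θ : NF ℕ → X => (fun A : NF (Fin (L.ar a.1)) => θ (NF.map a.2 A))) := by
    fun_prop
  exact (N.meas a.1).mem.comp h1

instance (N : Eucl L X) : IsProbabilityMeasure (N.law μ) :=
  isProbabilityMeasure_map N.measurable_arr.aemeasurable

lemma isOn_iff (N : Eucl L X) (T : UTheory L) :
    N.IsOn μ T ↔ ∀ᵐ K ∂(N.law μ), IsModel T K := by
  unfold Eucl.IsOn Eucl.law
  rw [ae_map_iff N.measurable_arr.aemeasurable (measurableSet_isModel T)]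

/-- Two Euclidean structures with the same law represent the same limit objects. -/
lemma Represents.of_law_eq {T : UTheory L} {N N' : Eucl L X} {φ : Measure (L.Str ℕ)}
    (h : Represents μ T N φ) (hl : N'.law μ = N.law μ) : Represents μ T N' φ := by
  refine ⟨?_, hl.trans h.2⟩
  rw [isOn_iff, hl, ← isOn_iff]
  exact h.1

end Pool.Agent.Q136.Arr
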