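import Mathlib
import Pool.Agent.Q136.ArrBasic

/-!
A jointly measurable random function `W` on the real line with values in `X` whose joint law at
any finite set of distinct points is absolutely continuous with respect to the product law.
-/

open MeasureTheory Measure ProbabilityTheory Set
open scoped unitInterval ENNReal

namespace Pool.Agent.Q136.Arr

/-- The random function. -/
noncomputable def proc (lam : ℕ × ℤ → I) (x : ℝ) : ℝ :=
  ∑' j : ℕ, (1/2 : ℝ)^j * (lam (j, ⌊(2:ℝ)^j * x⌋) : ℝ)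

lemma summable_proc (lam : ℕ × ℤ → I) (x : ℝ) :
    Summable (fun j : ℕ => (1/2 : ℝ)^j * (lam (j, ⌊(2:ℝ)^j * x⌋) : ℝ)) := by
  refine Summable.of_nonneg_of_le (fun j => mul_nonneg (by positivity) (lam _).2.1) (fun j => ?_)
    summable_geometric_two
  calc (1/2 : ℝ)^j * (lam (j, ⌊(2:ℝ)^j * x⌋) : ℝ) ≤ (1/2 : ℝ)^j * 1 :=
        mul_le_mul_of_nonneg_left (lam _).2.2 (by positivity)
    _ = (1/2 : ℝ)^j := mul_one _

lemma measurable_proc : Measurable (fun p : (ℕ × ℤ → I) × ℝ => proc p.1 p.2) := by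
  unfold proc
  refine Measurable.tsum fun j => ?_
  refine measurable_const.mul ?_
  refine measurable_subtype_coe.comp ?_
  have h1 : Measurable (fun p : (ℕ × ℤ → I) × ℤ => p.1 (j, p.2)) :=
    measurable_from_prod_countable_left fun c => measurable_pi_apply (j, c)
  have h2 : Measurable (fun p : (ℕ × ℤ → I) × ℝ => (p.1, ⌊(2:ℝ)^j * p.2⌋)) := by
    refine measurable_fst.prodMk ?_
    exact Int.measurable_floor.comp (measurable_const.mul measurable_snd)
  exact h1.comp h2

/-- fractional part as an element of the unit interval -/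
noncomputable def fractI (x : ℝ) : I := ⟨Int.fract x, Int.fract_nonneg x, (Int.fract_lt_one x).le⟩

lemma measurable_fractI : Measurable fractI := by
  unfold fractI
  exact measurable_fract.subtype_mk

/-- Null sets of the cube are null sets of the space. -/
lemma map_coe_cube (κ : Type*) [Fintype κ] :
    (Measure.pi (fun _ : κ => (volume : Measure I))).map (fun t i => (t i : ℝ))
      = (volume : Measure (κ → ℝ)).restrict (Set.univ.pi fun _ => I) := by
  have h1 : (volume : Measure I).map ((↑) : I → ℝ) = (volume : Measure ℝ).restrict I := by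
    exact map_comap_subtype_coe measurableSet_Icc _
  have h2 := Measure.pi_map_pi (μ := fun _ : κ => (volume : Measure I))
    (f := fun _ : κ => ((↑) : I → ℝ))
    (hμ := fun i => by rw [h1]; infer_instance) (fun _ => measurable_subtype_coe.aemeasurable)
  rw [h2, h1]
  rw [volume_pi, Measure.restrict_pi_pi]

lemma null_affine (κ : Type*) [Fintype κ] (a : ℝ) (ha : a ≠ 0) (r : κ → ℝ) (N : Set (κ → ℝ))
    (hNm : MeasurableSet N) (hN : (volume : Measure (κ → ℝ)) N = 0) :
    (Measure.pi (fun _ : κ => (volume : Measure I))) {t | (fun i => a * (t i : ℝ) + r i) ∈ N}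
      = 0 := by
  have hm : MeasurableSet {z : κ → ℝ | (fun i => a * z i + r i) ∈ N} := by
    have : Measurable (fun z : κ → ℝ => (fun i => a * z i + r i)) := by fun_prop
    exact this hNm
  have h1 : (volume : Measure (κ → ℝ)) {z : κ → ℝ | (fun i => a * z i + r i) ∈ N} = 0 := by
    have h2 : {z : κ → ℝ | (fun i => a * z i + r i) ∈ N}
        = (fun z : κ → ℝ => a • z) ⁻¹' ((fun z : κ → ℝ => z + r) ⁻¹' N) := by
      ext z; rfl
    rw [h2, Measure.addHaar_preimage_smul _ ha, measure_preimage_add_right, hN, mul_zero]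
  have h3 : {t : κ → I | (fun i => a * (t i : ℝ) + r i) ∈ N}
      = (fun (t : κ → I) i => (t i : ℝ)) ⁻¹' {z : κ → ℝ | (fun i => a * z i + r i) ∈ N} := rfl
  rw [h3, ← Measure.map_apply (by fun_prop) hm, map_coe_cube]
  exact le_antisymm ((Measure.restrict_apply_le _ _).trans h1.le) (bot_le)

lemma null_fract (κ : Type*) [Fintype κ] (N : Set (κ → I)) (hNm : MeasurableSet N)
    (hN : (Measure.pi (fun _ : κ => (volume : Measure I))) N = 0) :
    (volume : Measure (κ → ℝ)) {z | (fun i => fractI (z i)) ∈ N} = 0 := by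
  obtain ⟨M, hM⟩ : ∃ M : Set (κ → ℝ), M = {z | (fun i => fractI (z i)) ∈ N ∧
    ∀ i, z i ∈ Ico (0:ℝ) 1} := ⟨_, rfl⟩
  have hMm : MeasurableSet M := by
    rw [hM]
    have h1 : MeasurableSet {z : κ → ℝ | (fun i => fractI (z i)) ∈ N} := by
      have : Measurable (fun z : κ → ℝ => (fun i => fractI (z i))) := by
        refine measurable_pi_lambda _ fun i => measurable_fractI.comp (measurable_pi_apply i)
      exact this hNm
    have h2 : MeasurableSet {z : κ → ℝ | ∀ i, z i ∈ Ico (0:ℝ) 1} := by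
      have : {z : κ → ℝ | ∀ i, z i ∈ Ico (0:ℝ) 1} = ⋂ i, {z | z i ∈ Ico (0:ℝ) 1} := by
        ext z; simp
      rw [this]
      exact MeasurableSet.iInter fun i => (measurable_pi_apply i) measurableSet_Ico
    exact h1.inter h2
  have hM0 : (volume : Measure (κ → ℝ)) M = 0 := by
    have h1 : (volume : Measure (κ → ℝ)).restrict (Set.univ.pi fun _ => I) M
        = (volume : Measure (κ → ℝ)) M := by
      rw [Measure.restrict_apply hMm]
      congr 1
      refine inter_eq_left.2 ?_
      intro z hz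
      rw [hM] at hz
      intro i _
      exact ⟨(hz.2 i).1, (hz.2 i).2.le⟩
    rw [← h1, ← map_coe_cube, Measure.map_apply (by fun_prop) hMm]
    refine measure_mono_null ?_ hN
    intro t ht
    rw [hM] at ht
    have h2 : (fun i => fractI (t i)) ∈ N := ht.1
    have h3 : (fun i => fractI (t i)) = t := by
      funext i
      apply Subtype.ext
      exact Int.fract_eq_self.2 (ht.2 i)
    rwa [h3] at h2
  have hsub : {z : κ → ℝ | (fun i => fractI (z i)) ∈ N}
      ⊆ ⋃ c : κ → ℤ, (fun z : κ → ℝ => z + (fun i => (c i : ℝ))) ⁻¹' M := by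
    intro z hz
    rw [mem_iUnion]
    refine ⟨fun i => -⌊z i⌋, ?_⟩
    rw [hM]
    refine ⟨?_, ?_⟩
    · have : (fun i => fractI ((z + fun i => (((-⌊z i⌋ : ℤ)) : ℝ)) i)) = (fun i => fractI (z i)) := by
        funext i
        apply Subtype.ext
        change Int.fract (z i + ((-⌊z i⌋ : ℤ) : ℝ)) = Int.fract (z i)
        rw [Int.fract_add_intCast]
      rw [this]; exact hz
    · intro i
      change z i + ((-⌊z i⌋ : ℤ) : ℝ) ∈ Ico (0:ℝ) 1
      have : z i + ((-⌊z i⌋ : ℤ) : ℝ) = Int.fract (z i) := by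
        push_cast
        rw [← sub_eq_add_neg]; rfl
      rw [this]
      exact ⟨Int.fract_nonneg _, Int.fract_lt_one _⟩
  refine measure_mono_null hsub ?_
  rw [measure_iUnion_null_iff]
  intro c
  rw [measure_preimage_add_right, hM0]

lemma exists_sep {κ : Type*} [Finite κ] (x : κ → ℝ) (hx : Function.Injective x) :
    ∃ j : ℕ, Function.Injective (fun i => ⌊(2:ℝ)^j * x i⌋) := by
  have h : ∀ᶠ j : ℕ in Filter.atTop, ∀ i i' : κ, i ≠ i' → 1 ≤ (2:ℝ)^j * |x i - x i'| := by
    rw [Filter.eventually_all]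
    intro i
    rw [Filter.eventually_all]
    intro i'
    by_cases hi : i = i'
    · exact Filter.Eventually.of_forall fun j hj => absurd hi hj
    · have hpos : 0 < |x i - x i'| := abs_pos.2 (sub_ne_zero.2 fun h => hi (hx h))
      have ht : Filter.Tendsto (fun j : ℕ => (2:ℝ)^j * |x i - x i'|) Filter.atTop Filter.atTop :=
        (tendsto_pow_atTop_atTop_of_one_lt (by norm_num)).atTop_mul_const hpos
      filter_upwards [ht.eventually_ge_atTop 1] with j hj _
      exact hj
  obtain ⟨j, hj⟩ := h.exists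
  refine ⟨j, fun i i' hii => ?_⟩
  by_contra hne
  have h1 := hj i i' hne
  have h2 : |(2:ℝ)^j * x i - (2:ℝ)^j * x i'| < 1 := Int.abs_sub_lt_one_of_floor_eq_floor hii
  rw [← mul_sub, abs_mul, abs_of_pos (by positivity : (0:ℝ) < 2^j)] at h2
  linarith

theorem exists_process {X : Type*} [MeasurableSpace X] [StandardBorelSpace X] (μ : Measure X)
    [IsProbabilityMeasure μ] :
    ∃ W : (ℕ × ℤ → I) → ℝ → X, Measurable (fun p : (ℕ × ℤ → I) × ℝ => W p.1 p.2) ∧
      ∀ (κ : Type) [Finite κ] (x : κ → ℝ), Function.Injective x → ∀ N : Set (κ → X),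
        infinitePi (fun _ : κ => μ) N = 0 →
        infinitePi (fun _ : ℕ × ℤ => (volume : Measure I)) {l | (fun i => W l (x i)) ∈ N} = 0 := by
  have hne : Nonempty X := by
    by_contra h
    rw [not_nonempty_iff] at h
    have h1 : μ univ = 1 := measure_univ
    rw [Set.univ_eq_empty_iff.2 h] at h1
    simp at h1
  obtain ⟨h, hh, hhμ⟩ := Measure.exists_measurable_map_eq μ
  have hWm : Measurable (fun p : (ℕ × ℤ → I) × ℝ => h (fractI (proc p.1 p.2))) :=
    hh.comp (measurable_fractI.comp measurable_proc)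
  refine ⟨fun l x => h (fractI (proc l x)), hWm, ?_⟩
  intro κ _ x hx N hN
  have := Fintype.ofFinite κ
  -- replace `N` by a measurable superset
  obtain ⟨N', hNN', hN'm, hN'0⟩ := exists_measurable_superset_of_null hN
  refine measure_mono_null (t := {l | (fun i => h (fractI (proc l (x i)))) ∈ N'})
    (fun l hl => hNN' hl) ?_
  rw [infinitePi_eq_pi] at hN'0
  -- pull back to the cube, then to the space
  obtain ⟨N1, hN1⟩ : ∃ N1 : Set (κ → I), N1 = {t | (fun i => h (t i)) ∈ N'} := ⟨_, rfl⟩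
  have hN1m : MeasurableSet N1 := by
    rw [hN1]
    have : Measurable (fun t : κ → I => (fun i => h (t i))) := by fun_prop
    exact this hN'm
  have hN10 : (Measure.pi (fun _ : κ => (volume : Measure I))) N1 = 0 := by
    have h2 := Measure.pi_map_pi (μ := fun _ : κ => (volume : Measure I)) (f := fun _ : κ => h)
      (hμ := fun i => by rw [hhμ]; infer_instance) (fun _ => hh.aemeasurable)
    rw [hhμ] at h2
    rw [← h2, Measure.map_apply (by fun_prop) hN'm] at hN'0
    rw [hN1]; exact hN'0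
  obtain ⟨N2, hN2⟩ : ∃ N2 : Set (κ → ℝ), N2 = {z | (fun i => fractI (z i)) ∈ N1} := ⟨_, rfl⟩
  have hfm : Measurable (fun z : κ → ℝ => (fun i => fractI (z i))) :=
    measurable_pi_lambda _ fun i => measurable_fractI.comp (measurable_pi_apply i)
  have hN2m : MeasurableSet N2 := by
    rw [hN2]; exact hfm hN1m
  have hN20 : (volume : Measure (κ → ℝ)) N2 = 0 := by
    rw [hN2]; exact null_fract κ N1 hN1m hN10
  have hset : {l : ℕ × ℤ → I | (fun i => h (fractI (proc l (x i)))) ∈ N'}
      = {l | (fun i => proc l (x i)) ∈ N2} := by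
    rw [hN2, hN1]; rfl
  rw [hset]
  obtain ⟨j0, hj0⟩ := exists_sep x hx
  obtain ⟨S, hS⟩ : ∃ S : Set (ℕ × ℤ), S = {p | p.1 = j0} := ⟨_, rfl⟩
  have hpm : Measurable (fun l : ℕ × ℤ → I => (fun i => proc l (x i))) := by
    refine measurable_pi_lambda _ fun i => ?_
    exact measurable_proc.comp (measurable_id.prodMk measurable_const)
  have hm : MeasurableSet {l : ℕ × ℤ → I | (fun i => proc l (x i)) ∈ N2} := hpm hN2m
  rw [← map_glue (volume : Measure I) S, Measure.map_apply (measurable_glue S) hm,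
    Measure.prod_apply_symm ((measurable_glue S) hm)]
  refine (lintegral_eq_zero_iff' ?_).2 ?_
  · exact (measurable_measure_prodMk_right ((measurable_glue S) hm)).aemeasurable
  refine Filter.Eventually.of_forall fun l => ?_
  -- the remaining part of the series
  obtain ⟨r, hr⟩ : ∃ r : κ → ℝ, r = fun i => ∑' j : ℕ, (if j = j0 then (0:ℝ) else
    (1/2 : ℝ)^j * (l (j, ⌊(2:ℝ)^j * x i⌋) : ℝ)) := ⟨_, rfl⟩
  have hmem : ∀ i : κ, ((j0, ⌊(2:ℝ)^j0 * x i⌋) : ℕ × ℤ) ∈ S := fun i => by rw [hS]; rfl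
  have hproc : ∀ (v : S → I) (i : κ), proc (glue S v l) (x i)
      = (1/2 : ℝ)^j0 * (v ⟨(j0, ⌊(2:ℝ)^j0 * x i⌋), hmem i⟩ : ℝ) + r i := by
    intro v i
    unfold proc
    rw [(summable_proc (glue S v l) (x i)).tsum_eq_add_tsum_ite j0, glue_mem S v l (hmem i), hr]
    congr 1
    refine tsum_congr fun j => ?_
    by_cases hj : j = j0
    · simp [hj]
    · rw [if_neg hj, if_neg hj, glue_notMem S v l (by rw [hS]; exact hj)]
  have hpre : (fun v : S → I => (v, l)) ⁻¹' ((fun p : (S → I) × (ℕ × ℤ → I) => glue S p.1 p.2) ⁻¹'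
      {l | (fun i => proc l (x i)) ∈ N2})
      = (fun (v : S → I) (i : κ) => v ⟨(j0, ⌊(2:ℝ)^j0 * x i⌋), hmem i⟩) ⁻¹'
        {t | (fun i => (1/2 : ℝ)^j0 * (t i : ℝ) + r i) ∈ N2} := by
    ext v
    change (fun i => proc (glue S v l) (x i)) ∈ N2 ↔
      (fun i => (1/2 : ℝ)^j0 * (v ⟨(j0, ⌊(2:ℝ)^j0 * x i⌋), hmem i⟩ : ℝ) + r i) ∈ N2
    have : (fun i => proc (glue S v l) (x i))
      = (fun i => (1/2 : ℝ)^j0 * (v ⟨(j0, ⌊(2:ℝ)^j0 * x i⌋), hmem i⟩ : ℝ) + r i) := by
      funext i; exact hproc v i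
    rw [this]
  change infinitePi (fun _ : S => (volume : Measure I)) ((fun v : S → I => (v, l)) ⁻¹'
    ((fun p : (S → I) × (ℕ × ℤ → I) => glue S p.1 p.2) ⁻¹'
      {l | (fun i => proc l (x i)) ∈ N2})) = 0
  rw [hpre]
  have hm4 : MeasurableSet {t : κ → I | (fun i => (1/2 : ℝ)^j0 * (t i : ℝ) + r i) ∈ N2} := by
    have : Measurable (fun t : κ → I => (fun i => (1/2 : ℝ)^j0 * (t i : ℝ) + r i)) := by fun_prop
    exact this hN2m
  have hinj : Function.Injective (fun i : κ => (⟨(j0, ⌊(2:ℝ)^j0 * x i⌋), hmem i⟩ : S)) := by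
    intro a b hab
    apply hj0
    have := congrArg (fun z : S => z.1.2) hab
    exact this
  have hlaw := Measure.map_infinitePi_infinitePi_of_inj (P := fun _ : S => (volume : Measure I))
    (f := fun i : κ => (⟨(j0, ⌊(2:ℝ)^j0 * x i⌋), hmem i⟩ : S)) hinj
  rw [← Measure.map_apply (by fun_prop) hm4, hlaw, infinitePi_eq_pi]
  exact null_affine κ _ (by positivity) r N2 hN2m hN20

end Pool.Agent.Q136.Arr
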