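import Mathlib
import Pool.Agent.Q136.ArrDefs
import Pool.Agent.Q136.ArrProc

/-!
Weak compatibility implies compatibility when the level `1` is available (`1 ∉ B`), or when all
levels are excluded.
-/

open MeasureTheory Measure ProbabilityTheory Set

namespace Pool.Agent.Q136.Arr

variable {L : Lang} {X : Type} [MeasurableSpace X] (μ : Measure X) [IsProbabilityMeasure μ]

/-! ### all levels excluded -/

lemma iid_atom (N : Eucl L X) (a : L.Atom ℕ) :
    iid μ {θ | N.arr θ a} = infinitePi (fun _ : NF (Fin (L.ar a.1)) => μ) (N.peon a.1) := by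
  have h := Measure.map_infinitePi_infinitePi_of_inj (P := fun _ : NF ℕ => μ)
    (f := NF.map a.2) (NF.map_injective a.2)
  rw [← h, Measure.map_apply (by fun_prop) (N.meas a.1)]
  rfl

theorem compatible_of_all {T : UTheory L} {φ : Measure (L.Str ℕ)} {B : Set ℕ} (C : Set ℕ)
    (hB : ∀ n, 0 < n → n ∈ B) (h : IsWeaklyCompatible μ T φ B) : IsCompatible μ T φ C := by
  classical
  obtain ⟨N, hN, hind⟩ := h
  have h01 : ∀ a : L.Atom ℕ, iid μ {θ | N.arr θ a} = 0 ∨ iid μ {θ | N.arr θ a} = 1 := by
    intro a
    have hG : Measurable (fun (w : {A : NF ℕ // A.1.card ∈ B} → X) =>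
        N.arr (fun A => w ⟨A, hB _ (Finset.card_pos.2 A.2)⟩)) := by
      refine N.measurable_arr.comp ?_
      fun_prop
    have h1 : IndepFun N.arr N.arr (iid μ) := hind.comp measurable_id hG
    have hm : MeasurableSet {K : L.Str ℕ | K a} := by
      exact measurableSet_setOfPred.2 (measurable_pi_apply a)
    have h2 := h1.measure_inter_preimage_eq_mul _ _ hm hm
    rw [inter_self] at h2
    have h3 : N.arr ⁻¹' {K : L.Str ℕ | K a} = {θ | N.arr θ a} := rfl
    rw [h3] at h2
    have hfin : iid μ {θ | N.arr θ a} ≠ ⊤ := measure_ne_top _ _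
    by_cases h0 : iid μ {θ | N.arr θ a} = 0
    · exact Or.inl h0
    · right
      have h4 : iid μ {θ | N.arr θ a} * 1 = iid μ {θ | N.arr θ a} * iid μ {θ | N.arr θ a} := by
        rw [mul_one]; exact h2
      exact ((ENNReal.mul_right_inj h0 hfin).1 h4).symm
  obtain ⟨N', hN'⟩ : ∃ N' : Eucl L X, ∀ P, N'.peon P =
      if infinitePi (fun _ : NF (Fin (L.ar P)) => μ) (N.peon P) = 1 then univ else ∅ :=
    ⟨⟨fun P => if infinitePi (fun _ : NF (Fin (L.ar P)) => μ) (N.peon P) = 1 then univ else ∅,
      fun P => by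
        change MeasurableSet (if infinitePi (fun _ : NF (Fin (L.ar P)) => μ) (N.peon P) = 1
          then univ else ∅)
        split_ifs
        · exact MeasurableSet.univ
        · exact MeasurableSet.empty⟩, fun P => rfl⟩
  have hae : N'.arr =ᵐ[iid μ] N.arr := by
    have h1 : ∀ᵐ θ ∂(iid μ), ∀ a : L.Atom ℕ, N'.arr θ a = N.arr θ a := by
      rw [ae_all_iff]
      intro a
      have hiid := iid_atom μ N a
      by_cases hp : infinitePi (fun _ : NF (Fin (L.ar a.1)) => μ) (N.peon a.1) = 1
      · rw [hp] at hiid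
        have hm : MeasurableSet {θ | N.arr θ a} :=
          measurableSet_setOfPred.2 ((measurable_pi_apply a).comp N.measurable_arr)
        have h2 : ∀ᵐ θ ∂(iid μ), N.arr θ a := by
          rw [ae_iff]
          exact (prob_compl_eq_zero_iff hm).2 hiid
        filter_upwards [h2] with θ hθ
        have h3 : N'.arr θ a := by
          change _ ∈ N'.peon a.1
          rw [hN', if_pos hp]; trivial
        exact propext ⟨fun _ => hθ, fun _ => h3⟩
      · have h0 : iid μ {θ | N.arr θ a} = 0 := by
          rcases h01 a with h0 | h1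
          · exact h0
          · rw [hiid] at h1; exact absurd h1 hp
        have h2 : ∀ᵐ θ ∂(iid μ), ¬ N.arr θ a := by
          rw [ae_iff]
          simpa using h0
        filter_upwards [h2] with θ hθ
        have h3 : ¬ N'.arr θ a := by
          change ¬ _ ∈ N'.peon a.1
          rw [hN', if_neg hp]; exact id
        exact propext ⟨fun h => absurd h h3, fun h => absurd h hθ⟩
    filter_upwards [h1] with θ hθ
    exact funext hθ
  refine ⟨N', hN.of_law_eq μ (Measure.map_congr hae), ?_⟩
  intro P x y _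
  rw [hN']
  split_ifs <;> simp

/-! ### level one available -/

/-- the singleton -/
def sing {V : Type} (v : V) : NF V := ⟨{v}, Finset.singleton_nonempty v⟩

lemma map_sing {V W : Type} (α : V ↪ W) (v : V) : NF.map α (sing v) = sing (α v) := by
  apply Subtype.ext
  exact Finset.map_singleton α v

lemma sing_injective {V : Type} : Function.Injective (sing : V → NF V) := by
  intro a b h
  have := congrArg Subtype.val h
  exact Finset.singleton_injective this

open Classical in
/-- Replace the coordinates at the levels in `B` by a function of the level-one coordinates. -/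
noncomputable def mix (B : Set ℕ) (w : ℝ → X) (e : X → ℝ) {V : Type} (x u : NF V → X) :
    NF V → X :=
  fun A => if A.1.card ∈ B then w (∑ i ∈ A.1, e (u (sing i))) else x A

omit [MeasurableSpace X] in
lemma mix_map (B : Set ℕ) (w : ℝ → X) (e : X → ℝ) {V W : Type} (α : V ↪ W) (x u : NF W → X) :
    (fun A => mix B w e x u (NF.map α A))
      = mix B w e (fun A => x (NF.map α A)) (fun A => u (NF.map α A)) := by
  funext A
  unfold mix
  rw [NF.card_map]
  congr 2
  change ∑ i ∈ A.1.map α, e (u (sing i)) = _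
  rw [Finset.sum_map]
  refine Finset.sum_congr rfl fun i _ => ?_
  change e (u (sing (α i))) = e (u (NF.map α (sing i)))
  rw [map_sing]

lemma measurable_mix (B : Set ℕ) {w : ℝ → X} (hw : Measurable w) {e : X → ℝ} (he : Measurable e)
    (V : Type) : Measurable (fun p : (NF V → X) × (NF V → X) => mix B w e p.1 p.2) := by
  refine measurable_pi_lambda _ fun A => ?_
  unfold mix
  by_cases h : A.1.card ∈ B
  · simp only [h, if_true]
    refine hw.comp ?_
    refine Finset.measurable_sum _ fun i _ => ?_
    exact he.comp ((measurable_pi_apply _).comp measurable_snd)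
  · simp only [h, if_false]
    exact (measurable_pi_apply _).comp measurable_fst

/-- the sums over different finite sets are almost surely different -/
lemma ae_sums_ne [NullSingletonClass μ] {e : X → ℝ} (he : Measurable e)
    (hinj : Function.Injective e) :
    ∀ᵐ u ∂(iid μ), ∀ A A' : NF ℕ, A ≠ A' →
      ∑ i ∈ A.1, e (u (sing i)) ≠ ∑ i ∈ A'.1, e (u (sing i)) := by
  rw [ae_all_iff]; intro A
  rw [ae_all_iff]; intro A'
  by_cases hAA : A = A'
  · exact Filter.Eventually.of_forall fun u h => absurd hAA h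
  -- one-sided version
  have key : ∀ (A A' : NF ℕ) (a : ℕ), a ∈ A.1 → a ∉ A'.1 →
      ∀ᵐ u ∂(iid μ), ∑ i ∈ A.1, e (u (sing i)) ≠ ∑ i ∈ A'.1, e (u (sing i)) := by
    intro A A' a ha ha'
    obtain ⟨S, hS⟩ : ∃ S : Set (NF ℕ), S = {sing a} := ⟨_, rfl⟩
    have haS : sing a ∈ S := by rw [hS]; rfl
    have hne : ∀ i, i ≠ a → sing i ∉ S := by
      intro i hi hiS
      rw [hS] at hiS
      exact hi (sing_injective hiS)
    have hm : MeasurableSet {u : NF ℕ → X | ¬ (∑ i ∈ A.1, e (u (sing i))
        ≠ ∑ i ∈ A'.1, e (u (sing i)))} := by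
      have h1 : Measurable (fun u : NF ℕ → X => ∑ i ∈ A.1, e (u (sing i))) :=
        Finset.measurable_sum _ fun i _ => he.comp (measurable_pi_apply _)
      have h2 : Measurable (fun u : NF ℕ → X => ∑ i ∈ A'.1, e (u (sing i))) :=
        Finset.measurable_sum _ fun i _ => he.comp (measurable_pi_apply _)
      have h3 := measurableSet_eq_fun h1 h2
      convert h3 using 1
      ext u; simp
    rw [ae_iff]
    unfold iid
    rw [← map_glue μ S, Measure.map_apply (measurable_glue S) hm,
      Measure.prod_apply_symm ((measurable_glue S) hm)]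
    refine (lintegral_eq_zero_iff' ?_).2 ?_
    · exact (measurable_measure_prodMk_right ((measurable_glue S) hm)).aemeasurable
    refine Filter.Eventually.of_forall fun x => ?_
    change infinitePi (fun _ : S => μ) {v | ¬ (∑ i ∈ A.1, e (glue S v x (sing i))
        ≠ ∑ i ∈ A'.1, e (glue S v x (sing i)))} = 0
    have hsum1 : ∀ v : S → X, ∑ i ∈ A.1, e (glue S v x (sing i))
        = e (v ⟨sing a, haS⟩) + ∑ i ∈ A.1.erase a, e (x (sing i)) := by
      intro v
      rw [← Finset.add_sum_erase _ _ ha, glue_mem S v x haS]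
      congr 1
      refine Finset.sum_congr rfl fun i hi => ?_
      rw [glue_notMem S v x (hne i (Finset.ne_of_mem_erase hi))]
    have hsum2 : ∀ v : S → X, ∑ i ∈ A'.1, e (glue S v x (sing i))
        = ∑ i ∈ A'.1, e (x (sing i)) := by
      intro v
      refine Finset.sum_congr rfl fun i hi => ?_
      rw [glue_notMem S v x (hne i (fun h => ha' (h ▸ hi)))]
    have hsub : {v : S → X | ¬ (∑ i ∈ A.1, e (glue S v x (sing i))
        ≠ ∑ i ∈ A'.1, e (glue S v x (sing i)))}
        ⊆ (fun v : S → X => v ⟨sing a, haS⟩) ⁻¹' {z | e z = ∑ i ∈ A'.1, e (x (sing i))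
          - ∑ i ∈ A.1.erase a, e (x (sing i))} := by
      intro v hv
      have hv' : ∑ i ∈ A.1, e (glue S v x (sing i)) = ∑ i ∈ A'.1, e (glue S v x (sing i)) := by
        by_contra hcon
        exact hv hcon
      rw [hsum1, hsum2] at hv'
      change e (v ⟨sing a, haS⟩) = _
      linarith
    refine measure_mono_null hsub ?_
    have hmz : MeasurableSet {z : X | e z = ∑ i ∈ A'.1, e (x (sing i))
          - ∑ i ∈ A.1.erase a, e (x (sing i))} := measurableSet_eq_fun he measurable_const
    rw [(measurePreserving_eval_infinitePi (fun _ : S => μ) ⟨sing a, haS⟩).measure_preimage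
      hmz.nullMeasurableSet]
    refine Set.Subsingleton.measure_zero ?_ μ
    intro z hz z' hz'
    exact hinj (by rw [show e z = _ from hz, show e z' = _ from hz'])
  have hAA' : A.1 ≠ A'.1 := fun h => hAA (Subtype.ext h)
  by_cases h1 : ∃ a, a ∈ A.1 ∧ a ∉ A'.1
  · obtain ⟨a, ha, ha'⟩ := h1
    filter_upwards [key A A' a ha ha'] with u hu _
    exact hu
  · have h2 : ∃ a, a ∈ A'.1 ∧ a ∉ A.1 := by
      by_contra h2
      push Not at h1 h2
      exact hAA' (Finset.Subset.antisymm (fun a ha => h1 a ha) (fun a ha => h2 a ha))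
    obtain ⟨a, ha, ha'⟩ := h2
    filter_upwards [key A' A a ha ha'] with u hu _
    exact hu.symm

/-- Two Euclidean structures have the same law as soon as their finite restrictions have. -/
lemma law_eq_of_restrict {N N' : Eucl L X}
    (h : ∀ (F : Finset (L.Atom ℕ)) (E : Set (F → Prop)),
      iid μ {θ | (fun a : F => N'.arr θ a) ∈ E} = iid μ {θ | (fun a : F => N.arr θ a) ∈ E}) :
    N'.law μ = N.law μ := by
  refine IsProjectiveLimit.unique (P := fun F : Finset (L.Atom ℕ) => (N.law μ).map F.restrict)
    ?_ (fun F => rfl)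
  intro F
  refine Measure.ext fun E hE => ?_
  unfold Eucl.law
  dsimp only
  rw [Measure.map_map (by fun_prop) N'.measurable_arr, Measure.map_map (by fun_prop)
    N.measurable_arr, Measure.map_apply ((by fun_prop : Measurable F.restrict).comp
    N'.measurable_arr) hE, Measure.map_apply ((by fun_prop : Measurable F.restrict).comp
    N.measurable_arr) hE]
  exact h F E

/-- the coordinates at levels in `B` relevant for the finite set `F` of atoms -/
def relevant (B : Set ℕ) (F : Finset (L.Atom ℕ)) : Set (NF ℕ) :=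
  {A | A.1.card ∈ B ∧ ∃ a ∈ F, ∃ A', A = NF.map a.2 A'}

lemma relevant_finite (B : Set ℕ) (F : Finset (L.Atom ℕ)) : (relevant B F).Finite := by
  refine Set.Finite.subset (s := ⋃ a ∈ F, Set.range (NF.map a.2)) ?_ ?_
  · exact Set.Finite.biUnion F.finite_toSet fun a _ => Set.finite_range _
  · rintro A ⟨_, a, ha, A', rfl⟩
    simp only [mem_iUnion]
    exact ⟨a, ha, A', rfl⟩

lemma arr_mix_eq (N : Eucl L X) (B : Set ℕ) (w : ℝ → X) (e : X → ℝ) (F : Finset (L.Atom ℕ))
    (x u : NF ℕ → X) :
    (fun a : F => N.arr (mix B w e x u) a)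
      = (fun a : F => N.arr (glue (relevant B F)
          (fun A => w (∑ i ∈ A.1.1, e (u (sing i)))) x) a) := by
  funext a
  change ((fun A' => mix B w e x u (NF.map a.1.2 A')) ∈ N.peon a.1.1) = ((fun A' => glue
    (relevant B F) (fun A => w (∑ i ∈ A.1.1, e (u (sing i)))) x (NF.map a.1.2 A')) ∈ N.peon a.1.1)
  congr 1
  funext A'
  by_cases h : (NF.map a.1.2 A').1.card ∈ B
  · have hmem : NF.map a.1.2 A' ∈ relevant B F := ⟨h, a.1, a.2, A', rfl⟩
    rw [glue_mem _ _ _ hmem]
    unfold mix
    rw [if_pos h]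
  · have hmem : NF.map a.1.2 A' ∉ relevant B F := fun hh => h hh.1
    rw [glue_notMem _ _ _ hmem]
    unfold mix
    rw [if_neg h]

theorem compatible_of_one_notMem [StandardBorelSpace X] [NullSingletonClass μ]
    {T : UTheory L} {φ : Measure (L.Str ℕ)} {B : Set ℕ} (hB : 1 ∉ B)
    (h : IsWeaklyCompatible μ T φ B) : IsCompatible μ T φ {n | n ∉ B} := by
  classical
  obtain ⟨N, hN, hind⟩ := h
  obtain ⟨W, hWm, hW⟩ := exists_process μ
  obtain ⟨s₁, s₂, hs₁, hs₂, hsplit⟩ := exists_split μ (NF ℕ)
  obtain ⟨e, he, heinj⟩ := exists_embed X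
  -- the good event for every finite restriction
  have hgood : ∀ (p : Σ F : Finset (L.Atom ℕ), Set (F → Prop)),
      ∀ᵐ l ∂(infinitePi (fun _ : ℕ × ℤ => (volume : Measure unitInterval))),
      ∀ᵐ u ∂(iid μ), iid μ {x | (fun a : p.1 => N.arr (glue (relevant B p.1)
          (fun A => W l (∑ i ∈ A.1.1, e (u (sing i)))) x) a) ∈ p.2}
        = iid μ {x | (fun a : p.1 => N.arr x a) ∈ p.2} := by
    rintro ⟨F, E⟩
    dsimp only
    obtain ⟨K, hK⟩ : ∃ K : (NF ℕ → X) → (F → Prop), K = fun θ => (fun a : F => N.arr θ a) :=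
      ⟨_, rfl⟩
    have hKm : Measurable K := by
      rw [hK]
      refine measurable_pi_lambda _ fun a => ?_
      exact (measurable_pi_apply a.1).comp N.measurable_arr
    have hE : MeasurableSet E := (Set.toFinite E).measurableSet
    have hindK : IndepFun K (fun θ (A : relevant B F) => θ A) (iid μ) := by
      have h1 : Measurable (fun k : L.Str ℕ => (fun a : F => k a)) := by fun_prop
      have h2 : Measurable (fun (y : {A : NF ℕ // A.1.card ∈ B} → X) =>
        (fun A : relevant B F => y ⟨A.1, A.2.1⟩)) := by fun_prop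
      rw [hK]
      exact hind.comp h1 h2
    have hres := ae_resample μ (relevant B F) hKm hindK hE
    have hq : Measurable (fun v : relevant B F → X => iid μ {x | K (glue (relevant B F) v x) ∈ E}) :=
      measurable_measure_prodMk_left ((hKm.comp (measurable_glue (relevant B F))) hE)
    have hv : Measurable (fun p : (ℕ × ℤ → unitInterval) × (NF ℕ → X) =>
        (fun A : relevant B F => W p.1 (∑ i ∈ A.1.1, e (p.2 (sing i))))) := by
      refine measurable_pi_lambda _ fun A => ?_
      refine hWm.comp (measurable_fst.prodMk ?_)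
      refine Finset.measurable_sum _ fun i _ => ?_
      exact he.comp ((measurable_pi_apply _).comp measurable_snd)
    have hmset : MeasurableSet {p : (ℕ × ℤ → unitInterval) × (NF ℕ → X) |
        iid μ {x | K (glue (relevant B F)
          (fun A => W p.1 (∑ i ∈ A.1.1, e (p.2 (sing i)))) x) ∈ E} = iid μ {x | K x ∈ E}} :=
      measurableSet_eq_fun (hq.comp hv) measurable_const
    have hkey : ∀ᵐ l ∂(infinitePi (fun _ : ℕ × ℤ => (volume : Measure unitInterval))),
        ∀ᵐ u ∂(iid μ), iid μ {x | K (glue (relevant B F)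
          (fun A => W l (∑ i ∈ A.1.1, e (u (sing i)))) x) ∈ E} = iid μ {x | K x ∈ E} := by
      rw [Measure.ae_ae_comm hmset]
      filter_upwards [ae_sums_ne μ he heinj] with u hu
      have hfin : Finite (relevant B F) := (relevant_finite B F).to_subtype
      have hinj : Function.Injective (fun A : relevant B F => ∑ i ∈ A.1.1, e (u (sing i))) := by
        intro A A' hA
        by_contra hne
        exact hu A.1 A'.1 (fun h => hne (Subtype.ext h)) hA
      have h0 := hW (relevant B F) (fun A => ∑ i ∈ A.1.1, e (u (sing i))) hinj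
        {v | ¬ (iid μ {x | K (glue (relevant B F) v x) ∈ E} = iid μ {x | K x ∈ E})} hres
      exact h0
    rw [hK] at hkey
    exact hkey
  have hcount : Countable (Σ F : Finset (L.Atom ℕ), Set (F → Prop)) := inferInstance
  obtain ⟨l, hl⟩ := (ae_all_iff.2 hgood).exists
  obtain ⟨w, hw⟩ : ∃ w : ℝ → X, w = W l := ⟨_, rfl⟩
  have hwm : Measurable w := by
    rw [hw]
    exact hWm.comp (measurable_const.prodMk measurable_id)
  obtain ⟨N', hN'⟩ : ∃ N' : Eucl L X, ∀ P, N'.peon P =
      {x | mix B w e (fun A => s₁ (x A)) (fun A => s₂ (x A)) ∈ N.peon P} := by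
    refine ⟨⟨fun P => {x | mix B w e (fun A => s₁ (x A)) (fun A => s₂ (x A)) ∈ N.peon P},
      fun P => ?_⟩, fun P => rfl⟩
    have h1 : Measurable (fun x : NF (Fin (L.ar P)) → X =>
        ((fun A => s₁ (x A)), (fun A => s₂ (x A)))) := by fun_prop
    exact ((measurable_mix B hwm he _).comp h1) (N.meas P)
  have harr : ∀ θ, N'.arr θ = N.arr (mix B w e (fun A => s₁ (θ A)) (fun A => s₂ (θ A))) := by
    intro θ
    funext a
    change ((fun A => θ (NF.map a.2 A)) ∈ N'.peon a.1) = ((fun A => mix B w e
      (fun A => s₁ (θ A)) (fun A => s₂ (θ A)) (NF.map a.2 A)) ∈ N.peon a.1)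
    rw [hN', mix_map]
    rfl
  have hlaw : N'.law μ = N.law μ := by
    refine law_eq_of_restrict μ fun F E => ?_
    have hE : MeasurableSet E := (Set.toFinite E).measurableSet
    have h1 : {θ | (fun a : F => N'.arr θ a) ∈ E}
        = (fun θ : NF ℕ → X => ((fun A => s₁ (θ A)), (fun A => s₂ (θ A)))) ⁻¹'
          {p | (fun a : F => N.arr (mix B w e p.1 p.2) a) ∈ E} := by
      ext θ
      change (fun a : F => N'.arr θ a) ∈ E ↔
        (fun a : F => N.arr (mix B w e (fun A => s₁ (θ A)) (fun A => s₂ (θ A))) a) ∈ E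
      rw [harr]
    have hm : MeasurableSet {p : (NF ℕ → X) × (NF ℕ → X) |
        (fun a : F => N.arr (mix B w e p.1 p.2) a) ∈ E} := by
      have : Measurable (fun p : (NF ℕ → X) × (NF ℕ → X) =>
          (fun a : F => N.arr (mix B w e p.1 p.2) a)) := by
        refine measurable_pi_lambda _ fun a => ?_
        exact (measurable_pi_apply a.1).comp (N.measurable_arr.comp (measurable_mix B hwm he _))
      exact this hE
    have hsp : Measurable (fun θ : NF ℕ → X => ((fun A => s₁ (θ A)), (fun A => s₂ (θ A)))) := by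
      fun_prop
    rw [h1]
    unfold iid
    rw [← Measure.map_apply hsp hm, hsplit, Measure.prod_apply_symm hm]
    have h2 : ∀ᵐ u ∂(iid μ), infinitePi (fun _ : NF ℕ => μ) ((fun x => (x, u)) ⁻¹'
        {p : (NF ℕ → X) × (NF ℕ → X) | (fun a : F => N.arr (mix B w e p.1 p.2) a) ∈ E})
        = iid μ {x | (fun a : F => N.arr x a) ∈ E} := by
      filter_upwards [hl ⟨F, E⟩] with u hu
      rw [← hu]
      have h3 : ((fun x => (x, u)) ⁻¹'
        {p : (NF ℕ → X) × (NF ℕ → X) | (fun a : F => N.arr (mix B w e p.1 p.2) a) ∈ E})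
          = {x | (fun a : F => N.arr (glue (relevant B F)
          (fun A => W l (∑ i ∈ A.1.1, e (u (sing i)))) x) a) ∈ E} := by
        ext x
        change (fun a : F => N.arr (mix B w e x u) a) ∈ E ↔ _
        rw [arr_mix_eq, hw]
        exact Iff.rfl
      rw [h3]
      rfl
    change ∫⁻ u, infinitePi (fun _ : NF ℕ => μ) ((fun x => (x, u)) ⁻¹'
        {p : (NF ℕ → X) × (NF ℕ → X) | (fun a : F => N.arr (mix B w e p.1 p.2) a) ∈ E})
          ∂(iid μ) = iid μ {x | (fun a : F => N.arr x a) ∈ E}
    rw [lintegral_congr_ae h2, lintegral_const, measure_univ, mul_one]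
  refine ⟨N', hN.of_law_eq μ hlaw, ?_⟩
  intro P x y hxy
  rw [hN']
  have : mix B w e (fun A => s₁ (x A)) (fun A => s₂ (x A))
      = mix B w e (fun A => s₁ (y A)) (fun A => s₂ (y A)) := by
    funext A
    unfold mix
    by_cases hA : A.1.card ∈ B
    · rw [if_pos hA, if_pos hA]
      congr 1
      refine Finset.sum_congr rfl fun i _ => ?_
      dsimp only
      rw [hxy (sing i) (by
        change (sing i).1.card ∉ B
        have : (sing i).1.card = 1 := Finset.card_singleton i
        rw [this]; exact hB)]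
    · rw [if_neg hA, if_neg hA]
      dsimp only
      rw [hxy A hA]
  change mix B w e (fun A => s₁ (x A)) (fun A => s₂ (x A)) ∈ N.peon P ↔
    mix B w e (fun A => s₁ (y A)) (fun A => s₂ (y A)) ∈ N.peon P
  rw [this]

end Pool.Agent.Q136.Arr
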