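import Mathlib
import Pool.Agent.Q136.ArrWeak

/-!
Couplings of limit objects: definitions and basic facts.
-/

open MeasureTheory Measure ProbabilityTheory Set

namespace Pool.Agent.Q136.Arr

/-- Disjoint union of two languages. -/
def Lang.sum (L₁ L₂ : Lang) : Lang where
  Pred := L₁.Pred ⊕ L₂.Pred
  fin := by
    have := L₁.fin
    have := L₂.fin
    infer_instance
  ar := Sum.elim L₁.ar L₂.ar
  ar_pos := by
    rintro (P | P)
    · exact L₁.ar_pos P
    · exact L₂.ar_pos P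

variable {L₁ L₂ : Lang} {V : Type}

/-- Restriction of a structure to the first language. -/
def reduct₁ (K : (L₁.sum L₂).Str V) : L₁.Str V := fun a => K ⟨Sum.inl a.1, a.2⟩

/-- Restriction of a structure to the second language. -/
def reduct₂ (K : (L₁.sum L₂).Str V) : L₂.Str V := fun a => K ⟨Sum.inr a.1, a.2⟩

/-- The structure with given restrictions to the two languages. -/
def join (K₁ : L₁.Str V) (K₂ : L₂.Str V) : (L₁.sum L₂).Str V
  | ⟨Sum.inl P, α⟩ => K₁ ⟨P, α⟩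
  | ⟨Sum.inr P, α⟩ => K₂ ⟨P, α⟩

/-- The theory `T₁ ∪ T₂`. -/
def UTheory.union (T₁ : UTheory L₁) (T₂ : UTheory L₂) : UTheory (L₁.sum L₂) :=
  fun n => {K | reduct₁ K ∈ T₁ n ∧ reduct₂ K ∈ T₂ n}

variable {X : Type} [MeasurableSpace X] (μ : Measure X) [IsProbabilityMeasure μ]

/-- `ξ` is a coupling of the limit objects `φ₁` of `T₁` and `φ₂` of `T₂`. -/
def IsCoupling (T₁ : UTheory L₁) (T₂ : UTheory L₂) (φ₁ : Measure (L₁.Str ℕ))
    (φ₂ : Measure (L₂.Str ℕ)) (ξ : Measure ((L₁.sum L₂).Str ℕ)) : Prop :=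
  IsLimit μ (T₁.union T₂) ξ ∧ ξ.map reduct₁ = φ₁ ∧ ξ.map reduct₂ = φ₂

/-- The independent coupling: the law of the structure whose restrictions to the two languages are
independent with laws `φ₁` and `φ₂`. -/
noncomputable def indepCoupling (φ₁ : Measure (L₁.Str ℕ)) (φ₂ : Measure (L₂.Str ℕ)) :
    Measure ((L₁.sum L₂).Str ℕ) :=
  (φ₁.prod φ₂).map (fun p => join p.1 p.2)

/-- `φ₁` and `φ₂` are uniquely coupleable. -/
def UniquelyCoupleable (T₁ : UTheory L₁) (T₂ : UTheory L₂) (φ₁ : Measure (L₁.Str ℕ))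
    (φ₂ : Measure (L₂.Str ℕ)) : Prop :=
  ∀ ξ, IsCoupling μ T₁ T₂ φ₁ φ₂ ξ → ξ = indepCoupling φ₁ φ₂

/-- `φ` has rank at most `ℓ`. -/
def RankLE {L : Lang} (T : UTheory L) (φ : Measure (L.Str ℕ)) (ℓ : ℕ) : Prop :=
  IsCompatible μ T φ {n | n ≤ ℓ}

/-- `φ ∈ UCouple[ℓ]`: it is uniquely coupleable with every limit object of rank at most `ℓ`. -/
def InUCouple {L : Lang} (T : UTheory L) (φ : Measure (L.Str ℕ)) (ℓ : ℕ) : Prop :=
  ∀ (L' : Lang) (T' : UTheory L') (ψ : Measure (L'.Str ℕ)), IsLimit μ T' ψ →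
    RankLE μ T' ψ ℓ → UniquelyCoupleable μ T T' φ ψ

/-! ### Basic facts -/

lemma measurable_reduct₁ : Measurable (reduct₁ : (L₁.sum L₂).Str V → L₁.Str V) :=
  measurable_pi_lambda _ fun _ => measurable_pi_apply _

lemma measurable_reduct₂ : Measurable (reduct₂ : (L₁.sum L₂).Str V → L₂.Str V) :=
  measurable_pi_lambda _ fun _ => measurable_pi_apply _

lemma measurable_join :
    Measurable (fun p : L₁.Str V × L₂.Str V => (join p.1 p.2 : (L₁.sum L₂).Str V)) := by
  refine measurable_pi_lambda _ fun a => ?_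
  rcases a with ⟨P | P, α⟩
  · exact (measurable_pi_apply _).comp measurable_fst
  · exact (measurable_pi_apply _).comp measurable_snd

lemma reduct₁_join (K₁ : L₁.Str V) (K₂ : L₂.Str V) : reduct₁ (join K₁ K₂) = K₁ := rfl

lemma reduct₂_join (K₁ : L₁.Str V) (K₂ : L₂.Str V) : reduct₂ (join K₁ K₂) = K₂ := rfl

lemma join_reduct (K : (L₁.sum L₂).Str V) : join (reduct₁ K) (reduct₂ K) = K := by
  funext a
  rcases a with ⟨P | P, α⟩
  · rfl
  · rfl

lemma comap_join {W : Type} (e : W ↪ V) (K₁ : L₁.Str V) (K₂ : L₂.Str V) :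
    Lang.Str.comap e (join K₁ K₂ : (L₁.sum L₂).Str V)
      = join (Lang.Str.comap e K₁) (Lang.Str.comap e K₂) := by
  funext a
  rcases a with ⟨P | P, α⟩
  · rfl
  · rfl

/-- juxtaposition of two Euclidean structures -/
def Eucl.sum (N₁ : Eucl L₁ X) (N₂ : Eucl L₂ X) : Eucl (L₁.sum L₂) X where
  peon
  | Sum.inl P => N₁.peon P
  | Sum.inr P => N₂.peon P
  meas := by
    rintro (P | P)
    · exact N₁.meas P
    · exact N₂.meas P

lemma arr_sum (N₁ : Eucl L₁ X) (N₂ : Eucl L₂ X) (θ : NF ℕ → X) :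
    (N₁.sum N₂).arr θ = join (N₁.arr θ) (N₂.arr θ) := by
  funext a
  rcases a with ⟨P | P, α⟩
  · rfl
  · rfl

/-- the array over a general vertex set -/
def Eucl.arrV {L : Lang} (N : Eucl L X) {V : Type} (θ : NF V → X) : L.Str V :=
  fun a => (fun A => θ (NF.map a.2 A)) ∈ N.peon a.1

lemma Eucl.measurable_arrV {L : Lang} (N : Eucl L X) {V : Type} :
    Measurable (N.arrV : (NF V → X) → L.Str V) := by
  refine measurable_pi_lambda _ fun a => ?_
  have h1 : Measurable (fun θ : NF V → X => (fun A : NF (Fin (L.ar a.1)) => θ (NF.map a.2 A))) := by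
    fun_prop
  exact (N.meas a.1).mem.comp h1

omit [MeasurableSpace X] in
lemma NF.map_map {U V W : Type} (α : U ↪ V) (β : V ↪ W) (A : NF U) :
    NF.map β (NF.map α A) = NF.map (α.trans β) A := by
  apply Subtype.ext
  exact Finset.map_map α β A.1

lemma comap_arr {L : Lang} (N : Eucl L X) {V : Type} (β : V ↪ ℕ) (θ : NF ℕ → X) :
    Lang.Str.comap β (N.arr θ) = N.arrV (fun A => θ (NF.map β A)) := by
  funext a
  change ((fun A => θ (NF.map (a.2.trans β) A)) ∈ N.peon a.1)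
    = ((fun A => θ (NF.map β (NF.map a.2 A))) ∈ N.peon a.1)
  simp only [NF.map_map]

/-- the law of the induced structure on finitely many vertices -/
lemma law_comap {L : Lang} (N : Eucl L X) {m : ℕ} (β : Fin m ↪ ℕ) :
    (N.law μ).map (Lang.Str.comap β)
      = (infinitePi (fun _ : NF (Fin m) => μ)).map N.arrV := by
  have h := Measure.map_infinitePi_infinitePi_of_inj (P := fun _ : NF ℕ => μ)
    (f := NF.map β) (NF.map_injective β)
  rw [← h, Measure.map_map N.measurable_arrV (by fun_prop)]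
  unfold Eucl.law iid
  rw [Measure.map_map (measurable_comap β) N.measurable_arr]
  congr 1
  funext θ
  exact comap_arr N β θ

/-- the standard embedding -/
def stdEmb (m : ℕ) : Fin m ↪ ℕ := ⟨Fin.val, Fin.val_injective⟩

lemma exists_bound {L : Lang} (F : Finset (L.Atom ℕ)) :
    ∃ m : ℕ, ∀ a ∈ F, ∃ α : Fin (L.ar a.1) ↪ Fin m, α.trans (stdEmb m) = a.2 := by
  classical
  obtain ⟨M, hM⟩ : ∃ M : ℕ, ∀ a ∈ F, ∀ i, a.2 i ≤ M := by
    induction F using Finset.induction_on with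
    | empty => exact ⟨0, fun a ha => absurd ha (Finset.notMem_empty a)⟩
    | insert b s _ ih =>
      obtain ⟨M, hM⟩ := ih
      refine ⟨M + ∑ i, b.2 i, fun a ha i => ?_⟩
      rcases Finset.mem_insert.1 ha with rfl | ha
      · exact (Finset.single_le_sum (f := fun i => a.2 i) (fun _ _ => Nat.zero_le _)
          (Finset.mem_univ i)).trans (Nat.le_add_left _ _)
      · exact (hM a ha i).trans (Nat.le_add_right _ _)
  refine ⟨M + 1, fun a ha => ?_⟩
  refine ⟨⟨fun i => ⟨a.2 i, Nat.lt_succ_of_le (hM a ha i)⟩, fun i j h => ?_⟩, ?_⟩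
  · exact a.2.injective (congrArg Fin.val h)
  · ext i
    rfl

/-- A law on structures is determined by the laws of the induced structures on `{0,…,m-1}`. -/
lemma measure_ext_of_comap {L : Lang} {ξ ξ' : Measure (L.Str ℕ)} [IsFiniteMeasure ξ]
    [IsFiniteMeasure ξ']
    (h : ∀ m, ξ.map (Lang.Str.comap (stdEmb m)) = ξ'.map (Lang.Str.comap (stdEmb m))) :
    ξ = ξ' := by
  classical
  have hfin : ∀ F : Finset (L.Atom ℕ), IsFiniteMeasure (ξ'.map F.restrict) := fun F =>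
    inferInstance
  refine IsProjectiveLimit.unique (P := fun F : Finset (L.Atom ℕ) => ξ'.map F.restrict)
    ?_ (fun F => rfl)
  intro F
  obtain ⟨m, hm⟩ := exists_bound F
  choose α hα using hm
  obtain ⟨r, hr⟩ : ∃ r : L.Str (Fin m) → (F → Prop), r = fun k a => k ⟨a.1.1, α a.1 a.2⟩ :=
    ⟨_, rfl⟩
  have hrm : Measurable r := by
    rw [hr]
    exact measurable_pi_lambda _ fun _ => measurable_pi_apply _
  have hcomp : (F.restrict : L.Str ℕ → (F → Prop)) = r ∘ (Lang.Str.comap (stdEmb m)) := by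
    funext K a
    rw [hr]
    change K a.1 = K ⟨a.1.1, (α a.1 a.2).trans (stdEmb m)⟩
    rw [hα a.1 a.2]
  change ξ.map F.restrict = ξ'.map F.restrict
  rw [hcomp, ← Measure.map_map hrm (measurable_comap _), ← Measure.map_map hrm (measurable_comap _),
    h m]

lemma exists_eucl_indep [StandardBorelSpace X] [NullSingletonClass μ] (N₁ : Eucl L₁ X)
    (N₂ : Eucl L₂ X) : ∃ N : Eucl (L₁.sum L₂) X,
      N.law μ = indepCoupling (N₁.law μ) (N₂.law μ) := by
  obtain ⟨s₁, s₂, hs₁, hs₂, hsplit⟩ := exists_split μ (NF ℕ)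
  have hm : ∀ (s : X → X), Measurable s → ∀ κ : Type,
      Measurable (fun (x : κ → X) A => s (x A)) := by
    intro s hs κ; fun_prop
  refine ⟨Eucl.sum ⟨fun P => {x | (fun A => s₁ (x A)) ∈ N₁.peon P}, fun P =>
    (hm s₁ hs₁ _) (N₁.meas P)⟩ ⟨fun P => {x | (fun A => s₂ (x A)) ∈ N₂.peon P}, fun P =>
    (hm s₂ hs₂ _) (N₂.meas P)⟩, ?_⟩
  unfold indepCoupling Eucl.law iid
  rw [Measure.map_prod_map _ _ N₁.measurable_arr N₂.measurable_arr, ← hsplit,
    Measure.map_map (N₁.measurable_arr.prodMap N₂.measurable_arr) (by fun_prop),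
    Measure.map_map measurable_join ((N₁.measurable_arr.prodMap N₂.measurable_arr).comp
      (by fun_prop))]
  congr 1
  funext θ
  rw [arr_sum]
  rfl

/-- The independent coupling is a coupling. -/
lemma indepCoupling_isCoupling [StandardBorelSpace X] [NullSingletonClass μ] {T₁ : UTheory L₁}
    {T₂ : UTheory L₂} {φ₁ : Measure (L₁.Str ℕ)} {φ₂ : Measure (L₂.Str ℕ)}
    (h₁ : IsLimit μ T₁ φ₁) (h₂ : IsLimit μ T₂ φ₂) :
    IsCoupling μ T₁ T₂ φ₁ φ₂ (indepCoupling φ₁ φ₂) := by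
  obtain ⟨N₁, hN₁, hφ₁⟩ := h₁
  obtain ⟨N₂, hN₂, hφ₂⟩ := h₂
  have hp1 : IsProbabilityMeasure φ₁ := by rw [← hφ₁]; infer_instance
  have hp2 : IsProbabilityMeasure φ₂ := by rw [← hφ₂]; infer_instance
  have h1 : (indepCoupling φ₁ φ₂).map reduct₁ = φ₁ := by
    unfold indepCoupling
    rw [Measure.map_map measurable_reduct₁ measurable_join]
    change (φ₁.prod φ₂).map Prod.fst = φ₁
    rw [Measure.map_fst_prod, measure_univ, one_smul]
  have h2 : (indepCoupling φ₁ φ₂).map reduct₂ = φ₂ := by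
    unfold indepCoupling
    rw [Measure.map_map measurable_reduct₂ measurable_join]
    change (φ₁.prod φ₂).map Prod.snd = φ₂
    rw [Measure.map_snd_prod, measure_univ, one_smul]
  refine ⟨?_, h1, h2⟩
  obtain ⟨N, hN⟩ := exists_eucl_indep μ N₁ N₂
  rw [hφ₁, hφ₂] at hN
  refine ⟨N, ?_, hN⟩
  rw [isOn_iff, hN]
  have hM1 : ∀ᵐ K ∂φ₁, IsModel T₁ K := by
    rw [← hφ₁, ← isOn_iff]; exact hN₁
  have hM2 : ∀ᵐ K ∂φ₂, IsModel T₂ K := by
    rw [← hφ₂, ← isOn_iff]; exact hN₂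
  have hM1' : ∀ᵐ K ∂(indepCoupling φ₁ φ₂), IsModel T₁ (reduct₁ K) := by
    rw [← h1] at hM1
    exact ae_of_ae_map measurable_reduct₁.aemeasurable hM1
  have hM2' : ∀ᵐ K ∂(indepCoupling φ₁ φ₂), IsModel T₂ (reduct₂ K) := by
    rw [← h2] at hM2
    exact ae_of_ae_map measurable_reduct₂.aemeasurable hM2
  filter_upwards [hM1', hM2'] with K hK1 hK2 n e
  exact ⟨hK1 n e, hK2 n e⟩

end Pool.Agent.Q136.Arr
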