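import Mathlib
import Pool.Agent.Q136.ArrCouple

/-!
Approximation of measurable sets by finite colourings, and a family of polynomial transversals.
-/

open MeasureTheory Measure ProbabilityTheory Set
open scoped ENNReal symmDiff

namespace Pool.Agent.Q136.Arr

/-! ### finite colourings -/

/-- sets determined by a finite measurable colouring of the coordinates -/
def ColourSets (ι X : Type) [MeasurableSpace X] : Set (Set (ι → X)) :=
  {s | ∃ (C : Type) (_ : Finite C) (c : X → C) (b : Set (ι → C)),
    (∀ z, MeasurableSet (c ⁻¹' {z})) ∧ s = {y | (fun i => c (y i)) ∈ b}}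

lemma isSetRing_colourSets (ι X : Type) [MeasurableSpace X] : IsSetRing (ColourSets ι X) where
  empty_mem := ⟨Unit, inferInstance, fun _ => (), ∅, fun z => by
    have : (fun _ : X => ()) ⁻¹' {z} = univ := by ext; simp
    rw [this]; exact MeasurableSet.univ, by ext; simp⟩
  union_mem := by
    rintro s t ⟨C, hC, c, b, hc, rfl⟩ ⟨C', hC', c', b', hc', rfl⟩
    refine ⟨C × C', inferInstance, fun x => (c x, c' x),
      {w | (fun i => (w i).1) ∈ b ∨ (fun i => (w i).2) ∈ b'}, fun z => ?_, ?_⟩
    · have : (fun x => (c x, c' x)) ⁻¹' {z} = c ⁻¹' {z.1} ∩ c' ⁻¹' {z.2} := by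
        ext x; simp [Prod.ext_iff]
      rw [this]; exact (hc _).inter (hc' _)
    · ext y; exact Iff.rfl
  sdiff_mem := by
    rintro s t ⟨C, hC, c, b, hc, rfl⟩ ⟨C', hC', c', b', hc', rfl⟩
    refine ⟨C × C', inferInstance, fun x => (c x, c' x),
      {w | (fun i => (w i).1) ∈ b ∧ (fun i => (w i).2) ∉ b'}, fun z => ?_, ?_⟩
    · have : (fun x => (c x, c' x)) ⁻¹' {z} = c ⁻¹' {z.1} ∩ c' ⁻¹' {z.2} := by
        ext x; simp [Prod.ext_iff]
      rw [this]; exact (hc _).inter (hc' _)
    · ext y; exact Iff.rfl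

lemma measurableSet_colour {ι X : Type} [Finite ι] [MeasurableSpace X] {C : Type} [Finite C]
    {c : X → C} (hc : ∀ z, MeasurableSet (c ⁻¹' {z})) (b : Set (ι → C)) :
    MeasurableSet {y : ι → X | (fun i => c (y i)) ∈ b} := by
  have h : {y : ι → X | (fun i => c (y i)) ∈ b} = ⋃ w ∈ b, ⋂ i, {y : ι → X | c (y i) = w i} := by
    ext y
    simp only [mem_iUnion, mem_iInter]
    constructor
    · intro hy
      exact ⟨fun i => c (y i), hy, fun i => rfl⟩
    · rintro ⟨w, hw, hyw⟩
      have : (fun i => c (y i)) = w := funext fun i => hyw i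
      change (fun i => c (y i)) ∈ b
      rw [this]; exact hw
  rw [h]
  refine MeasurableSet.biUnion (Set.to_countable b) fun w _ => ?_
  refine MeasurableSet.iInter fun i => ?_
  exact MeasurableSet.preimage (hc (w i)) (measurable_pi_apply i)

lemma generateFrom_colourSets (ι X : Type) [Finite ι] [MeasurableSpace X] :
    (MeasurableSpace.pi : MeasurableSpace (ι → X)) =
      MeasurableSpace.generateFrom (ColourSets ι X) := by
  classical
  refine le_antisymm ?_ ?_
  · refine iSup_le fun i => ?_
    rw [MeasurableSpace.comap_le_iff_le_map]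
    intro E hE
    refine MeasurableSpace.measurableSet_generateFrom ?_
    refine ⟨Bool, inferInstance, fun x => decide (x ∈ E), {w | w i = true}, fun z => ?_, ?_⟩
    · cases z
      · have : (fun x => decide (x ∈ E)) ⁻¹' {false} = Eᶜ := by ext x; simp
        rw [this]; exact hE.compl
      · have : (fun x => decide (x ∈ E)) ⁻¹' {true} = E := by ext x; simp
        rw [this]; exact hE
    · ext y
      change y i ∈ E ↔ decide (y i ∈ E) = true
      simp
  · refine MeasurableSpace.generateFrom_le ?_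
    rintro s ⟨C, hC, c, b, hc, rfl⟩
    exact measurableSet_colour hc b

lemma exists_colour_approx {ι X : Type} [Finite ι] [MeasurableSpace X] (P : Measure (ι → X))
    [IsProbabilityMeasure P] {s : Set (ι → X)} (hs : MeasurableSet s) {δ : ℝ≥0∞} (hδ : 0 < δ) :
    ∃ (C : Type) (_ : Finite C) (c : X → C) (b : Set (ι → C)),
      (∀ z, MeasurableSet (c ⁻¹' {z})) ∧ P ({y | (fun i => c (y i)) ∈ b} ∆ s) < δ := by
  obtain ⟨t, ⟨C, hC, c, b, hc, rfl⟩, ht2⟩ := exists_measure_symmDiff_lt_of_generateFrom_isSetRing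
    (μ := P) (isSetRing_colourSets ι X) ⟨{univ}, Set.countable_singleton _, by
      rintro s rfl
      exact ⟨Unit, inferInstance, fun _ => (), univ, fun z => by
        have : (fun _ : X => ()) ⁻¹' {z} = univ := by ext; simp
        rw [this]; exact MeasurableSet.univ, by ext; simp⟩, by simp⟩
    (generateFrom_colourSets ι X) hs hδ
  exact ⟨C, hC, c, b, hc, ht2⟩

/-! ### polynomial transversals -/

section poly

variable (ℓ m q : ℕ) [Fact q.Prime]

/-- the value of the polynomial with coefficients `p` at `i` -/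
def pval (p : Fin (ℓ + 1) → ZMod q) (i : ℕ) : ZMod q := ∑ j : Fin (ℓ + 1), p j * (i : ZMod q) ^ (j : ℕ)

/-- the transversal of `Fin m × ZMod q` given by a polynomial -/
def trans (p : Fin (ℓ + 1) → ZMod q) : Fin m ↪ Fin m × ZMod q :=
  ⟨fun i => (i, pval ℓ q p i), fun _ _ h => (Prod.ext_iff.1 h).1⟩

lemma card_agree (hmq : m ≤ q) {p p' : Fin (ℓ + 1) → ZMod q} (hp : p ≠ p') (A : Finset (Fin m))
    (hA : ∀ i ∈ A, pval ℓ q p i = pval ℓ q p' i) : A.card ≤ ℓ := by
  classical
  obtain ⟨P, hP⟩ : ∃ P : Polynomial (ZMod q), P = ∑ j : Fin (ℓ + 1),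
    Polynomial.monomial (j : ℕ) (p j - p' j) := ⟨_, rfl⟩
  have hcoeff : ∀ j : Fin (ℓ + 1), P.coeff (j : ℕ) = p j - p' j := by
    intro j
    rw [hP, Polynomial.finsetSum_coeff]
    rw [Finset.sum_eq_single j]
    · simp
    · intro j' _ hj'
      rw [Polynomial.coeff_monomial, if_neg]
      exact fun h => hj' (Fin.ext h)
    · intro h; exact absurd (Finset.mem_univ j) h
  have hP0 : P ≠ 0 := by
    intro h0
    apply hp
    funext j
    have := hcoeff j
    rw [h0, Polynomial.coeff_zero] at this
    exact (sub_eq_zero.1 this.symm)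
  have hdeg : P.natDegree ≤ ℓ := by
    rw [hP]
    refine Polynomial.natDegree_sum_le_of_forall_le _ _ fun j _ => ?_
    exact (Polynomial.natDegree_monomial_le _).trans (Nat.lt_succ_iff.1 j.2)
  have heval : ∀ i : ℕ, P.eval (i : ZMod q) = pval ℓ q p i - pval ℓ q p' i := by
    intro i
    rw [hP, Polynomial.eval_finsetSum]
    unfold pval
    rw [← Finset.sum_sub_distrib]
    refine Finset.sum_congr rfl fun j _ => ?_
    rw [Polynomial.eval_monomial]; ring
  have hinj : Set.InjOn (fun i : Fin m => ((i : ℕ) : ZMod q)) A := by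
    intro i _ j _ hij
    have hi : (i : ℕ) < q := i.2.trans_le hmq
    have hj : (j : ℕ) < q := j.2.trans_le hmq
    have h1 := congrArg ZMod.val hij
    dsimp only at h1
    rw [ZMod.val_cast_of_lt hi, ZMod.val_cast_of_lt hj] at h1
    exact Fin.ext h1
  have hsub : A.image (fun i : Fin m => ((i : ℕ) : ZMod q)) ⊆ P.roots.toFinset := by
    intro z hz
    obtain ⟨i, hi, rfl⟩ := Finset.mem_image.1 hz
    rw [Multiset.mem_toFinset, Polynomial.mem_roots hP0, Polynomial.IsRoot.def, heval,
      hA i hi, sub_self]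
  calc A.card = (A.image (fun i : Fin m => ((i : ℕ) : ZMod q))).card :=
        (Finset.card_image_of_injOn hinj).symm
    _ ≤ P.roots.toFinset.card := Finset.card_le_card hsub
    _ ≤ Multiset.card P.roots := Multiset.toFinset_card_le _
    _ ≤ P.natDegree := Polynomial.card_roots' P
    _ ≤ ℓ := hdeg

/-- Two different transversals share only sets with at most `ℓ` elements. -/
lemma trans_disjoint (hmq : m ≤ q) {p p' : Fin (ℓ + 1) → ZMod q} (hp : p ≠ p')
    {A A' : NF (Fin m)} (h : NF.map (trans ℓ m q p) A = NF.map (trans ℓ m q p') A') :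
    A.1.card ≤ ℓ := by
  classical
  refine card_agree ℓ m q hmq hp A.1 fun i hi => ?_
  have h1 : trans ℓ m q p i ∈ (NF.map (trans ℓ m q p) A).1 := Finset.mem_map_of_mem _ hi
  rw [h] at h1
  obtain ⟨i', _, hi'⟩ := Finset.mem_map.1 h1
  have h2 : (i', pval ℓ q p' i') = (i, pval ℓ q p i) := hi'
  have h3 : i' = i := (Prod.ext_iff.1 h2).1
  have h4 : pval ℓ q p' i' = pval ℓ q p i := (Prod.ext_iff.1 h2).2
  rw [h3] at h4
  exact h4.symm

end poly

/-- the number of nonempty sets with at most `ℓ` elements -/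
lemma card_small_sets (W : Type) [Fintype W] (ℓ : ℕ) :
    Nat.card {A : NF W // A.1.card ≤ ℓ} ≤ (Fintype.card W) ^ ℓ := by
  classical
  have hf : ∀ A : {A : NF W // A.1.card ≤ ℓ}, ∃ f : Fin ℓ → W, Set.range f = (A.1.1 : Set W) := by
    intro A
    have hne : Nonempty A.1.1 := A.1.2.to_subtype
    obtain ⟨g⟩ : Nonempty (A.1.1 ↪ Fin ℓ) := by
      rw [Function.Embedding.nonempty_iff_card_le, Fintype.card_coe, Fintype.card_fin]
      exact A.2
    refine ⟨fun j => (Function.invFun g j : A.1.1), ?_⟩
    have hs := Function.invFun_surjective g.injective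
    ext w
    constructor
    · rintro ⟨j, rfl⟩
      exact (Function.invFun g j : A.1.1).2
    · intro hw
      obtain ⟨j, hj⟩ := hs ⟨w, hw⟩
      exact ⟨j, by simp only [hj]⟩
  choose f hf using hf
  have hinj : Function.Injective f := by
    intro A A' h
    have h1 := hf A
    rw [h, hf A'] at h1
    exact Subtype.ext (Subtype.ext (Finset.coe_injective h1.symm))
  calc Nat.card {A : NF W // A.1.card ≤ ℓ} ≤ Nat.card (Fin ℓ → W) :=
        Nat.card_le_card_of_injective f hinj
    _ = (Fintype.card W) ^ ℓ := by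
        rw [Nat.card_eq_fintype_card, Fintype.card_fun, Fintype.card_fin]

end Pool.Agent.Q136.Arr
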