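import Mathlib
import Pool.Agent.Q136.ArrHighA

/-!
Concentration for structures that only use levels above `ℓ`.
-/

open MeasureTheory Measure ProbabilityTheory Set
open scoped ENNReal symmDiff

namespace Pool.Agent.Q136.Arr

variable {L : Lang} {X : Type} [MeasurableSpace X] (μ : Measure X) [IsProbabilityMeasure μ]

/-- the coordinates above level `ℓ` -/
abbrev HiIdx (m ℓ : ℕ) : Type := {A : NF (Fin m) // ℓ < A.1.card}

open Classical in
/-- the induced structure as a function of the high coordinates -/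
noncomputable def hiArr (N : Eucl L X) (m ℓ : ℕ) (x₀ : X) (y : HiIdx m ℓ → X) : L.Str (Fin m) :=
  N.arrV (fun A => if h : ℓ < A.1.card then y ⟨A, h⟩ else x₀)

lemma measurable_hiArr (N : Eucl L X) (m ℓ : ℕ) (x₀ : X) : Measurable (hiArr N m ℓ x₀) := by
  unfold hiArr
  refine N.measurable_arrV.comp ?_
  refine measurable_pi_lambda _ fun A => ?_
  by_cases h : ℓ < A.1.card
  · simp only [h, dif_pos]; fun_prop
  · simp only [h, dif_neg, not_false_iff]; fun_prop

lemma arrV_eq_hiArr (N : Eucl L X) {m ℓ : ℕ} (hN : N.Compatible {n | ℓ < n}) (x₀ : X)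
    (z : NF (Fin m) → X) : N.arrV z = hiArr N m ℓ x₀ (fun A => z A.1) := by
  funext a
  refine propext (hN a.1 _ _ fun A hA => ?_)
  have h : ℓ < (NF.map a.2 A).1.card := by rw [NF.card_map]; exact hA
  simp only [h, dif_pos]

/-- induced structures on almost disjoint vertex sets are independent -/
lemma iIndep_comap (N : Eucl L X) {ℓ m : ℕ} (hN : N.Compatible {n | ℓ < n}) {P : Type}
    (β : P → (Fin m ↪ ℕ)) (hβ : ∀ p p', p ≠ p' → ∀ A A' : NF (Fin m),
      NF.map (β p) A = NF.map (β p') A' → A.1.card ≤ ℓ) :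
    iIndepFun (fun p (K : L.Str ℕ) => Lang.Str.comap (β p) K) (N.law μ) := by
  have hne : Nonempty X := by
    by_contra h
    rw [not_nonempty_iff] at h
    have h1 : μ univ = 1 := measure_univ
    rw [Set.univ_eq_empty_iff.2 h] at h1
    simp at h1
  obtain ⟨x₀⟩ := hne
  rw [iIndepFun_iff_map_fun_eq_infinitePi_map (fun p => measurable_comap (β p))]
  obtain ⟨H, hH⟩ : ∃ H : (HiIdx m ℓ → X) → L.Str (Fin m), H = hiArr N m ℓ x₀ := ⟨_, rfl⟩
  have hHm : Measurable H := by rw [hH]; exact measurable_hiArr N m ℓ x₀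
  -- the joint law of the high coordinates
  have hinj : Function.Injective (fun pA : P × HiIdx m ℓ => NF.map (β pA.1) pA.2.1) := by
    rintro ⟨p, A⟩ ⟨p', A'⟩ h
    by_cases hp : p = p'
    · subst hp
      exact Prod.ext rfl (Subtype.ext (NF.map_injective (β p) h))
    · exact absurd (hβ p p' hp A.1 A'.1 h) (not_le.2 A.2)
  have h1 := Measure.map_infinitePi_infinitePi_of_inj (P := fun _ : NF ℕ => μ) hinj
  have h2 := infinitePi_map_curry (fun (_ : P) (_ : HiIdx m ℓ) => μ)
  have h3 : (iid μ).map (fun θ (p : P) (A : HiIdx m ℓ) => θ (NF.map (β p) A.1))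
      = infinitePi (fun _ : P => infinitePi (fun _ : HiIdx m ℓ => μ)) := by
    rw [← h2, ← h1]
    unfold iid
    rw [Measure.map_map (by fun_prop) (by fun_prop)]
    rfl
  have h4 : ∀ θ : NF ℕ → X, ∀ p, Lang.Str.comap (β p) (N.arr θ)
      = H (fun A => θ (NF.map (β p) A.1)) := by
    intro θ p
    rw [comap_arr, arrV_eq_hiArr N hN x₀, hH]
  have h5 : (N.law μ).map (fun K (p : P) => Lang.Str.comap (β p) K)
      = infinitePi (fun _ : P => (infinitePi (fun _ : HiIdx m ℓ => μ)).map H) := by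
    have h6 := infinitePi_map_pi (fun _ : P => infinitePi (fun _ : HiIdx m ℓ => μ))
      (f := fun _ => H) (fun _ => hHm)
    rw [← h6, ← h3]
    unfold Eucl.law
    have hm8 : Measurable (fun (x : P → HiIdx m ℓ → X) (i : P) => H (x i)) :=
      measurable_pi_lambda _ fun p => hHm.comp (measurable_pi_apply p)
    rw [Measure.map_map (measurable_pi_lambda _ fun p => measurable_comap (β p)) N.measurable_arr,
      Measure.map_map hm8 (by fun_prop)]
    congr 1
    funext θ
    funext p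
    exact h4 θ p
  rw [h5]
  congr 1
  funext p
  have h7 := Measure.map_infinitePi_infinitePi_of_inj (P := fun _ : NF ℕ => μ)
    (f := fun A : HiIdx m ℓ => NF.map (β p) A.1)
    (fun A A' h => Subtype.ext (NF.map_injective (β p) h))
  rw [← h7, Measure.map_map hHm (by fun_prop)]
  unfold Eucl.law iid
  rw [Measure.map_map (measurable_comap (β p)) N.measurable_arr]
  congr 1
  funext θ
  exact (h4 θ p).symm

lemma measurableSet_str {m : ℕ} (a : Set (L.Str (Fin m))) : MeasurableSet a :=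
  (Set.toFinite a).measurableSet

/-- the probability that the induced structure on `m` vertices lies in `a` -/
noncomputable def pat (N : Eucl L X) {m : ℕ} (a : Set (L.Str (Fin m))) : ℝ :=
  ((infinitePi (fun _ : NF (Fin m) => μ)).map N.arrV).real a

lemma law_real_comap (N : Eucl L X) {m : ℕ} (β : Fin m ↪ ℕ) (a : Set (L.Str (Fin m))) :
    (N.law μ).real {K | Lang.Str.comap β K ∈ a} = pat μ N a := by
  unfold pat
  rw [← law_comap μ N β]
  rw [measureReal_def, measureReal_def, Measure.map_apply (measurable_comap β)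
    (measurableSet_str a)]
  rfl

open Classical in
/-- Hoeffding's inequality for a fixed weight function. -/
lemma hoeffding (N : Eucl L X) {ℓ m : ℕ} (hN : N.Compatible {n | ℓ < n}) {P : Type} [Fintype P]
    [Nonempty P] (β : P → (Fin m ↪ ℕ)) (hβ : ∀ p p', p ≠ p' → ∀ A A' : NF (Fin m),
      NF.map (β p) A = NF.map (β p') A' → A.1.card ≤ ℓ) (a : Set (L.Str (Fin m)))
    (w : P → ℝ) (hw0 : ∀ p, 0 ≤ w p) (hw1 : ∀ p, w p ≤ 1) {ε : ℝ} (hε : 0 < ε) :
    (N.law μ).real {K | ε * Fintype.card P ≤ ∑ p, ((if Lang.Str.comap (β p) K ∈ a then (1:ℝ) else 0)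
      - pat μ N a) * w p} ≤ Real.exp (-ε ^ 2 * Fintype.card P / 2) := by
  have hpat0 : 0 ≤ pat μ N a := measureReal_nonneg
  have hpat1 : pat μ N a ≤ 1 := by
    unfold pat
    have : IsProbabilityMeasure ((infinitePi (fun _ : NF (Fin m) => μ)).map N.arrV) :=
      isProbabilityMeasure_map N.measurable_arrV.aemeasurable
    exact measureReal_le_one
  have hmset : ∀ p, MeasurableSet {K : L.Str ℕ | Lang.Str.comap (β p) K ∈ a} := fun p =>
    (measurable_comap (β p)) (measurableSet_str a)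
  obtain ⟨Y, hY⟩ : ∃ Y : P → L.Str ℕ → ℝ, Y = fun p K =>
    ((if Lang.Str.comap (β p) K ∈ a then (1:ℝ) else 0) - pat μ N a) * w p := ⟨_, rfl⟩
  have hYm : ∀ p, Measurable (Y p) := by
    intro p
    rw [hY]
    exact ((Measurable.ite (hmset p) measurable_const measurable_const).sub_const _).mul_const _
  have hYb : ∀ p K, Y p K ∈ Set.Icc (-1:ℝ) 1 := by
    intro p K
    rw [hY]
    dsimp only
    have h1 := hw0 p
    have h2 := hw1 p
    split_ifs
    · constructor
      · nlinarith
      · nlinarith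
    · constructor
      · nlinarith
      · nlinarith
  have hYi : ∀ p, (N.law μ)[Y p] = 0 := by
    intro p
    rw [hY]
    dsimp only
    rw [integral_mul_const, integral_sub, integral_const, probReal_univ, one_smul]
    · have h3 : (fun K : L.Str ℕ => if Lang.Str.comap (β p) K ∈ a then (1:ℝ) else 0)
          = {K : L.Str ℕ | Lang.Str.comap (β p) K ∈ a}.indicator 1 := by
        funext K
        by_cases h : Lang.Str.comap (β p) K ∈ a
        · rw [if_pos h, Set.indicator_of_mem (by exact h)]; rfl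
        · rw [if_neg h, Set.indicator_of_notMem (by exact h)]
      rw [h3, integral_indicator_one (hmset p), law_real_comap, sub_self, zero_mul]
    · have h3 : (fun K : L.Str ℕ => if Lang.Str.comap (β p) K ∈ a then (1:ℝ) else 0)
          = {K : L.Str ℕ | Lang.Str.comap (β p) K ∈ a}.indicator 1 := by
        funext K
        by_cases h : Lang.Str.comap (β p) K ∈ a
        · rw [if_pos h, Set.indicator_of_mem (by exact h)]; rfl
        · rw [if_neg h, Set.indicator_of_notMem (by exact h)]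
      rw [h3]
      exact (integrable_const (1:ℝ)).indicator (hmset p)
    · exact integrable_const _
  have hind : iIndepFun Y (N.law μ) := by
    have h := iIndep_comap μ N hN β hβ
    have h2 := h.comp (fun p (k : L.Str (Fin m)) => ((if k ∈ a then (1:ℝ) else 0)
      - pat μ N a) * w p) (fun p => measurable_of_finite _)
    rw [hY]
    exact h2
  have hsub : ∀ p ∈ (Finset.univ : Finset P), HasSubgaussianMGF (Y p) 1 (N.law μ) := by
    intro p _
    have h := hasSubgaussianMGF_of_mem_Icc_of_integral_eq_zero (hYm p).aemeasurable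
      (Filter.Eventually.of_forall (hYb p)) (hYi p)
    have hc : (‖(1:ℝ) - (-1)‖₊ / 2) ^ 2 = 1 := by
      have : ‖(1:ℝ) - (-1)‖₊ = 2 := by
        rw [← NNReal.coe_inj]
        simp only [coe_nnnorm, Real.norm_eq_abs]
        norm_num
      rw [this]; norm_num
    rwa [hc] at h
  have hcard : (0:ℝ) < Fintype.card P := by
    exact_mod_cast Fintype.card_pos
  have hmain := HasSubgaussianMGF.measure_sum_ge_le_of_iIndepFun hind hsub
    (ε := ε * Fintype.card P) (by positivity)
  rw [hY] at hmain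
  refine hmain.trans (le_of_eq ?_)
  congr 1
  simp only [Finset.sum_const, Finset.card_univ, nsmul_eq_mul, mul_one]
  push_cast
  field_simp

/-- the parameters can be chosen -/
lemma exists_prime_bound (K m ℓ : ℕ) (hK : 1 ≤ K) {ε τ : ℝ} (hε : 0 < ε) (hτ : 0 < τ) :
    ∃ q : ℕ, q.Prime ∧ m ≤ q ∧
      (K : ℝ) ^ ((m * q) ^ ℓ) * Real.exp (-ε ^ 2 * (q ^ (ℓ + 1) : ℕ) / 2) < τ := by
  obtain ⟨T, hT0, hT⟩ : ∃ T : ℝ, 0 < T ∧ Real.exp (-T) < τ := by
    refine ⟨|Real.log τ| + 1, by positivity, ?_⟩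
    calc Real.exp (-(|Real.log τ| + 1)) < Real.exp (Real.log τ) := by
          apply Real.exp_lt_exp.2
          have := neg_abs_le (Real.log τ)
          linarith
      _ = τ := Real.exp_log hτ
  obtain ⟨n, hn⟩ := exists_nat_ge ((2 / ε ^ 2) * ((m:ℝ) ^ ℓ * Real.log K + T))
  obtain ⟨q, hq, hqp⟩ := Nat.exists_infinite_primes (max n m)
  refine ⟨q, hqp, (le_max_right _ _).trans hq, ?_⟩
  have hqn : (n : ℝ) ≤ q := by exact_mod_cast (le_max_left n m).trans hq
  have hq1 : (1:ℝ) ≤ (q:ℝ) ^ ℓ := one_le_pow₀ (by exact_mod_cast hqp.one_lt.le)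
  have hKpos : (0:ℝ) < K := by exact_mod_cast hK
  have hbr : (m:ℝ) ^ ℓ * Real.log K - ε ^ 2 * q / 2 ≤ -T := by
    have h1 : (2 / ε ^ 2) * ((m:ℝ) ^ ℓ * Real.log K + T) ≤ q := hn.trans hqn
    have h2 : (m:ℝ) ^ ℓ * Real.log K + T ≤ ε ^ 2 * q / 2 := by
      have h3 : 0 < ε ^ 2 := by positivity
      calc (m:ℝ) ^ ℓ * Real.log K + T
          = (ε ^ 2 / 2) * ((2 / ε ^ 2) * ((m:ℝ) ^ ℓ * Real.log K + T)) := by
            field_simp
        _ ≤ (ε ^ 2 / 2) * q := by
            refine mul_le_mul_of_nonneg_left h1 (by positivity)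
        _ = ε ^ 2 * q / 2 := by ring
    linarith
  have hexp : (K : ℝ) ^ ((m * q) ^ ℓ) = Real.exp (((m:ℝ) * q) ^ ℓ * Real.log K) := by
    have h5 : ((m:ℝ) * q) ^ ℓ * Real.log K = (((m * q) ^ ℓ : ℕ) : ℝ) * Real.log K := by
      push_cast; ring
    rw [h5, Real.exp_nat_mul, Real.exp_log hKpos]
  rw [hexp, ← Real.exp_add]
  refine lt_of_le_of_lt (Real.exp_le_exp.2 ?_) hT
  have h4 : ((m:ℝ) * q) ^ ℓ * Real.log K + -ε ^ 2 * ((q ^ (ℓ + 1) : ℕ) : ℝ) / 2
      = (q:ℝ) ^ ℓ * ((m:ℝ) ^ ℓ * Real.log K - ε ^ 2 * q / 2) := by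
    push_cast
    rw [mul_pow, pow_succ]; ring
  rw [h4]
  calc (q:ℝ) ^ ℓ * ((m:ℝ) ^ ℓ * Real.log K - ε ^ 2 * q / 2) ≤ (q:ℝ) ^ ℓ * (-T) :=
        mul_le_mul_of_nonneg_left hbr (by positivity)
    _ ≤ -T := by nlinarith

end Pool.Agent.Q136.Arr
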