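import Mathlib
import Pool.Agent.Q136.ArrHighB

/-!
Structures using only levels above `ℓ` are uniquely coupleable with structures of rank at most `ℓ`.
-/

open MeasureTheory Measure ProbabilityTheory Set
open scoped ENNReal symmDiff

namespace Pool.Agent.Q136.Arr

variable {L₁ L₂ : Lang} {X : Type} [MeasurableSpace X] (μ : Measure X) [IsProbabilityMeasure μ]

/-- joint realisation of the first structure of a coupling with the variables representing the
second one -/
lemma exists_glued (M : Eucl (L₁.sum L₂) X) (N₂ : Eucl L₂ X)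
    (h2 : (M.law μ).map reduct₂ = N₂.law μ) :
    ∃ Ω : Measure ((NF ℕ → X) × L₁.Str ℕ), IsProbabilityMeasure Ω ∧ Ω.map Prod.fst = iid μ ∧
      Ω.map (fun p => (N₂.arr p.1, p.2)) = (M.law μ).map (fun K => (reduct₂ K, reduct₁ K)) := by
  obtain ⟨ρ, hρ⟩ : ∃ ρ : Measure (L₂.Str ℕ × L₁.Str ℕ),
    ρ = (M.law μ).map (fun K => (reduct₂ K, reduct₁ K)) := ⟨_, rfl⟩
  have hm : Measurable (fun K : (L₁.sum L₂).Str ℕ => (reduct₂ K, reduct₁ K)) :=
    measurable_reduct₂.prodMk measurable_reduct₁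
  have hρp : IsProbabilityMeasure ρ := by rw [hρ]; exact isProbabilityMeasure_map hm.aemeasurable
  have hfst : ρ.fst = N₂.law μ := by
    rw [← h2, hρ]
    unfold Measure.fst
    rw [Measure.map_map measurable_fst hm]
    rfl
  have hdis : ρ.fst ⊗ₘ ρ.condKernel = ρ := ρ.disintegrate ρ.condKernel
  rw [← hρ]
  obtain ⟨κ, hκ⟩ : ∃ κ : Kernel (NF ℕ → X) (L₁.Str ℕ),
    κ = ρ.condKernel.comap N₂.arr N₂.measurable_arr := ⟨_, rfl⟩
  have hκm : IsMarkovKernel κ := by rw [hκ]; infer_instance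
  refine ⟨(iid μ) ⊗ₘ κ, inferInstance, ?_, ?_⟩
  · exact Measure.fst_compProd (iid μ) κ
  · have hm2 : Measurable (fun p : (NF ℕ → X) × L₁.Str ℕ => (N₂.arr p.1, p.2)) :=
      (N₂.measurable_arr.comp measurable_fst).prodMk measurable_snd
    conv_rhs => rw [← hdis, hfst]
    refine Measure.ext fun s hs => ?_
    rw [Measure.map_apply hm2 hs, Measure.compProd_apply (hm2 hs), Measure.compProd_apply hs]
    unfold Eucl.law
    rw [lintegral_map (Kernel.measurable_kernel_prodMk_left hs) N₂.measurable_arr]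
    refine lintegral_congr fun η => ?_
    rw [hκ, Kernel.comap_apply]
    rfl

/-- the coordinates up to level `ℓ` -/
abbrev LoIdx (m ℓ : ℕ) : Type := {A : NF (Fin m) // A.1.card ≤ ℓ}

open Classical in
/-- the induced structure as a function of the low coordinates -/
noncomputable def loArr {L : Lang} (N : Eucl L X) (m ℓ : ℕ) (x₀ : X) (y : LoIdx m ℓ → X) :
    L.Str (Fin m) :=
  N.arrV (fun A => if h : A.1.card ≤ ℓ then y ⟨A, h⟩ else x₀)

lemma measurable_loArr {L : Lang} (N : Eucl L X) (m ℓ : ℕ) (x₀ : X) :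
    Measurable (loArr N m ℓ x₀) := by
  unfold loArr
  refine N.measurable_arrV.comp ?_
  refine measurable_pi_lambda _ fun A => ?_
  by_cases h : A.1.card ≤ ℓ
  · simp only [h, dif_pos]; fun_prop
  · simp only [h, dif_neg, not_false_iff]; fun_prop

lemma arrV_eq_loArr {L : Lang} (N : Eucl L X) {m ℓ : ℕ} (hN : N.Compatible {n | n ≤ ℓ}) (x₀ : X)
    (z : NF (Fin m) → X) : N.arrV z = loArr N m ℓ x₀ (fun A => z A.1) := by
  funext a
  refine propext (hN a.1 _ _ fun A hA => ?_)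
  have h : (NF.map a.2 A).1.card ≤ ℓ := by rw [NF.card_map]; exact hA
  simp only [h, dif_pos]

open Classical in
theorem one_sided {ℓ : ℕ} (N₁ : Eucl L₁ X) (N₂ : Eucl L₂ X) (M : Eucl (L₁.sum L₂) X)
    (hN₁ : N₁.Compatible {n | ℓ < n}) (hN₂ : N₂.Compatible {n | n ≤ ℓ})
    (h1 : (M.law μ).map reduct₁ = N₁.law μ) (h2 : (M.law μ).map reduct₂ = N₂.law μ)
    (m : ℕ) (a : Set (L₁.Str (Fin m))) (b : Set (L₂.Str (Fin m))) :
    (M.law μ).real {K | Lang.Str.comap (stdEmb m) (reduct₁ K) ∈ a ∧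
      Lang.Str.comap (stdEmb m) (reduct₂ K) ∈ b} ≤ pat μ N₁ a * pat μ N₂ b := by
  have hne : Nonempty X := by
    by_contra h
    rw [not_nonempty_iff] at h
    have h1 : μ univ = 1 := measure_univ
    rw [Set.univ_eq_empty_iff.2 h] at h1
    simp at h1
  obtain ⟨x₀⟩ := hne
  have hpa0 : 0 ≤ pat μ N₁ a := measureReal_nonneg
  have hpa1 : pat μ N₁ a ≤ 1 := by
    unfold pat
    have : IsProbabilityMeasure ((infinitePi (fun _ : NF (Fin m) => μ)).map N₁.arrV) :=
      isProbabilityMeasure_map N₁.measurable_arrV.aemeasurable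
    exact measureReal_le_one
  -- exchangeability
  obtain ⟨pab, hpab⟩ : ∃ r : ℝ, r = (M.law μ).real {K | Lang.Str.comap (stdEmb m) (reduct₁ K) ∈ a ∧
      Lang.Str.comap (stdEmb m) (reduct₂ K) ∈ b} := ⟨_, rfl⟩
  have hexch : ∀ β : Fin m ↪ ℕ, (M.law μ).real {K | Lang.Str.comap β (reduct₁ K) ∈ a ∧
      Lang.Str.comap β (reduct₂ K) ∈ b} = pab := by
    have h3 : ∀ β : Fin m ↪ ℕ, (M.law μ).real {K | Lang.Str.comap β (reduct₁ K) ∈ a ∧
      Lang.Str.comap β (reduct₂ K) ∈ b} = pat μ M {k | reduct₁ k ∈ a ∧ reduct₂ k ∈ b} := by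
      intro β
      rw [← law_real_comap μ M β]
      rfl
    intro β
    rw [hpab, h3, h3]
  rw [← hpab]
  obtain ⟨Ω, hΩp, hΩ1, hΩ2⟩ := exists_glued μ M N₂ h2
  have hm2 : Measurable (fun p : (NF ℕ → X) × L₁.Str ℕ => (N₂.arr p.1, p.2)) :=
    (N₂.measurable_arr.comp measurable_fst).prodMk measurable_snd
  have hm3 : Measurable (fun K : (L₁.sum L₂).Str ℕ => (reduct₂ K, reduct₁ K)) :=
    measurable_reduct₂.prodMk measurable_reduct₁
  have hΩ3 : Ω.map Prod.snd = N₁.law μ := by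
    rw [← h1]
    have h4 : Ω.map Prod.snd = (Ω.map (fun p => (N₂.arr p.1, p.2))).map Prod.snd := by
      rw [Measure.map_map measurable_snd hm2]
      rfl
    rw [h4, hΩ2, Measure.map_map measurable_snd hm3]
    rfl
  -- the low part
  obtain ⟨B', hB'⟩ : ∃ B' : Set (LoIdx m ℓ → X), B' = {y | loArr N₂ m ℓ x₀ y ∈ b} := ⟨_, rfl⟩
  have hB'm : MeasurableSet B' := by
    rw [hB']; exact (measurable_loArr N₂ m ℓ x₀) (measurableSet_str b)
  obtain ⟨Q, hQ⟩ : ∃ Q : Measure (LoIdx m ℓ → X), Q = infinitePi (fun _ => μ) := ⟨_, rfl⟩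
  have hQp : IsProbabilityMeasure Q := by rw [hQ]; infer_instance
  -- law of the low coordinates along an embedding
  have hlow : ∀ β : Fin m ↪ ℕ, (iid μ).map (fun η (A : LoIdx m ℓ) => η (NF.map β A.1)) = Q := by
    intro β
    rw [hQ]
    exact Measure.map_infinitePi_infinitePi_of_inj (P := fun _ : NF ℕ => μ)
      (f := fun A : LoIdx m ℓ => NF.map β A.1)
      (fun A A' h => Subtype.ext (NF.map_injective β h))
  have hpb : pat μ N₂ b = Q.real B' := by
    rw [← law_real_comap μ N₂ (stdEmb m), ← hlow (stdEmb m)]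
    unfold Eucl.law
    have hmb : MeasurableSet {K : L₂.Str ℕ | Lang.Str.comap (stdEmb m) K ∈ b} :=
      (measurable_comap _) (measurableSet_str b)
    rw [measureReal_def, measureReal_def, Measure.map_apply N₂.measurable_arr hmb,
      Measure.map_apply (by fun_prop) hB'm]
    congr 2
    ext η
    change Lang.Str.comap (stdEmb m) (N₂.arr η) ∈ b ↔
      (fun A : LoIdx m ℓ => η (NF.map (stdEmb m) A.1)) ∈ B'
    rw [comap_arr, arrV_eq_loArr N₂ hN₂ x₀, hB']
    exact Iff.rfl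
  have hJ : ∀ (β : Fin m ↪ ℕ) (η : NF ℕ → X), Lang.Str.comap β (N₂.arr η) ∈ b ↔
      (fun A : LoIdx m ℓ => η (NF.map β A.1)) ∈ B' := by
    intro β η
    rw [comap_arr, arrV_eq_loArr N₂ hN₂ x₀, hB']
    exact Iff.rfl
  refine le_of_forall_pos_le_add fun ε hε => ?_
  obtain ⟨δ, hδ⟩ : ∃ δ : ℝ, δ = ε / 4 := ⟨_, rfl⟩
  have hδ0 : 0 < δ := by rw [hδ]; linarith
  -- approximation by colours
  obtain ⟨C, hC, c, bt, hc, happ⟩ := exists_colour_approx Q hB'm (ENNReal.ofReal_pos.2 hδ0)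
  obtain ⟨G, hG⟩ : ∃ G : Set (LoIdx m ℓ → X), G = {y | (fun i => c (y i)) ∈ bt} := ⟨_, rfl⟩
  rw [← hG] at happ
  have hGm : MeasurableSet G := by rw [hG]; exact measurableSet_colour hc bt
  have hCne : Nonempty C := ⟨c x₀⟩
  -- parameters
  obtain ⟨q, hqp, hmq, hq⟩ := exists_prime_bound (Nat.card C) m ℓ Nat.card_pos hδ0 hδ0
  have : Fact q.Prime := ⟨hqp⟩
  have : NeZero q := ⟨hqp.ne_zero⟩
  obtain ⟨ι⟩ : Nonempty (Fin m × ZMod q ↪ ℕ) := by
    have : Countable (Fin m × ZMod q) := inferInstance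
    exact ⟨⟨_, (exists_injective_nat (Fin m × ZMod q)).choose_spec⟩⟩
  obtain ⟨β, hβ⟩ : ∃ β : (Fin (ℓ + 1) → ZMod q) → (Fin m ↪ ℕ),
    ∀ p, β p = (trans ℓ m q p).trans ι := ⟨fun p => (trans ℓ m q p).trans ι, fun p => rfl⟩
  have hβd : ∀ p p', p ≠ p' → ∀ A A' : NF (Fin m),
      NF.map (β p) A = NF.map (β p') A' → A.1.card ≤ ℓ := by
    intro p p' hp A A' h
    rw [hβ, hβ, ← NF.map_map, ← NF.map_map] at h
    exact trans_disjoint ℓ m q hmq hp (NF.map_injective ι h)
  -- weights of a colouring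
  obtain ⟨w, hw⟩ : ∃ w : ({A : NF (Fin m × ZMod q) // A.1.card ≤ ℓ} → C) →
      (Fin (ℓ + 1) → ZMod q) → ℝ, w = fun D p =>
      if (fun A : LoIdx m ℓ => D ⟨NF.map (trans ℓ m q p) A.1, by
        rw [NF.card_map]; exact A.2⟩) ∈ bt then 1 else 0 := ⟨_, rfl⟩
  have hw0 : ∀ D p, 0 ≤ w D p := by
    intro D p; rw [hw]; dsimp only; split_ifs <;> norm_num
  have hw1 : ∀ D p, w D p ≤ 1 := by
    intro D p; rw [hw]; dsimp only; split_ifs <;> norm_num
  -- the bad event
  obtain ⟨Bad, hBad⟩ : ∃ Bad : Set (L₁.Str ℕ), Bad = ⋃ D, {K | δ * Fintype.card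
      (Fin (ℓ + 1) → ZMod q) ≤ ∑ p, ((if Lang.Str.comap (β p) K ∈ a then (1:ℝ) else 0)
      - pat μ N₁ a) * w D p} := ⟨_, rfl⟩
  have hmI : ∀ p, MeasurableSet {K : L₁.Str ℕ | Lang.Str.comap (β p) K ∈ a} := fun p =>
    (measurable_comap (β p)) (measurableSet_str a)
  have hBadm : MeasurableSet Bad := by
    rw [hBad]
    refine MeasurableSet.iUnion fun D => ?_
    refine measurableSet_le measurable_const ?_
    refine Finset.measurable_sum _ fun p _ => ?_
    exact ((Measurable.ite (hmI p) measurable_const measurable_const).sub_const _).mul_const _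
  have hBadp : (N₁.law μ).real Bad ≤ δ := by
    have hfinD : Finite ({A : NF (Fin m × ZMod q) // A.1.card ≤ ℓ} → C) := inferInstance
    have := Fintype.ofFinite ({A : NF (Fin m × ZMod q) // A.1.card ≤ ℓ} → C)
    rw [hBad]
    refine (measureReal_iUnion_fintype_le _).trans ?_
    have h5 : ∀ D, (N₁.law μ).real {K | δ * Fintype.card
      (Fin (ℓ + 1) → ZMod q) ≤ ∑ p, ((if Lang.Str.comap (β p) K ∈ a then (1:ℝ) else 0)
      - pat μ N₁ a) * w D p} ≤ Real.exp (-δ ^ 2 * Fintype.card (Fin (ℓ + 1) → ZMod q) / 2) :=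
      fun D => hoeffding μ N₁ hN₁ β hβd a (w D) (hw0 D) (hw1 D) hδ0
    refine (Finset.sum_le_sum fun D _ => h5 D).trans ?_
    rw [Finset.sum_const, nsmul_eq_mul, Finset.card_univ, ← Nat.card_eq_fintype_card,
      Nat.card_fun, Fintype.card_fun, Fintype.card_fin, ZMod.card]
    refine le_trans ?_ hq.le
    refine mul_le_mul_of_nonneg_right ?_ (Real.exp_pos _).le
    have h6 := card_small_sets (Fin m × ZMod q) ℓ
    rw [Fintype.card_prod, Fintype.card_fin, ZMod.card] at h6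
    have h7 : 1 ≤ Nat.card C := Nat.card_pos
    exact_mod_cast Nat.pow_le_pow_right h7 h6
  -- events on the glued space
  obtain ⟨EI, hEI⟩ : ∃ EI : (Fin (ℓ + 1) → ZMod q) → Set ((NF ℕ → X) × L₁.Str ℕ),
    EI = fun p => {z | Lang.Str.comap (β p) z.2 ∈ a} := ⟨_, rfl⟩
  obtain ⟨EJ, hEJ⟩ : ∃ EJ : (Fin (ℓ + 1) → ZMod q) → Set ((NF ℕ → X) × L₁.Str ℕ),
    EJ = fun p => {z | (fun A : LoIdx m ℓ => z.1 (NF.map (β p) A.1)) ∈ B'} := ⟨_, rfl⟩
  obtain ⟨EG, hEG⟩ : ∃ EG : (Fin (ℓ + 1) → ZMod q) → Set ((NF ℕ → X) × L₁.Str ℕ),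
    EG = fun p => {z | (fun A : LoIdx m ℓ => z.1 (NF.map (β p) A.1)) ∈ G} := ⟨_, rfl⟩
  have hEIm : ∀ p, MeasurableSet (EI p) := by
    intro p; rw [hEI]; exact measurable_snd (hmI p)
  have hrm : ∀ p, Measurable (fun z : (NF ℕ → X) × L₁.Str ℕ =>
      (fun A : LoIdx m ℓ => z.1 (NF.map (β p) A.1))) := by
    intro p; fun_prop
  have hEJm : ∀ p, MeasurableSet (EJ p) := by
    intro p; rw [hEJ]; exact (hrm p) hB'm
  have hEGm : ∀ p, MeasurableSet (EG p) := by
    intro p; rw [hEG]; exact (hrm p) hGm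
  have hΩr : ∀ p, Ω.map (fun z : (NF ℕ → X) × L₁.Str ℕ =>
      (fun A : LoIdx m ℓ => z.1 (NF.map (β p) A.1))) = Q := by
    intro p
    rw [← hlow (β p), ← hΩ1, Measure.map_map (by fun_prop) measurable_fst]
    rfl
  have hIJ : ∀ p, Ω.real (EI p ∩ EJ p) = pab := by
    intro p
    rw [← hexch (β p)]
    have h8 : EI p ∩ EJ p = (fun z : (NF ℕ → X) × L₁.Str ℕ => (N₂.arr z.1, z.2)) ⁻¹'
        {s | Lang.Str.comap (β p) s.2 ∈ a ∧ Lang.Str.comap (β p) s.1 ∈ b} := by
      rw [hEI, hEJ]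
      ext z
      change (Lang.Str.comap (β p) z.2 ∈ a ∧ (fun A : LoIdx m ℓ => z.1 (NF.map (β p) A.1)) ∈ B') ↔
        (Lang.Str.comap (β p) z.2 ∈ a ∧ Lang.Str.comap (β p) (N₂.arr z.1) ∈ b)
      rw [hJ]
    have hm9 : MeasurableSet {s : L₂.Str ℕ × L₁.Str ℕ | Lang.Str.comap (β p) s.2 ∈ a ∧
        Lang.Str.comap (β p) s.1 ∈ b} :=
      (((measurable_comap (β p)).comp measurable_snd) (measurableSet_str a)).inter
        (((measurable_comap (β p)).comp measurable_fst) (measurableSet_str b))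
    rw [h8, measureReal_def, measureReal_def, ← Measure.map_apply hm2 hm9, hΩ2,
      Measure.map_apply hm3 hm9]
    rfl
  have hsym : ∀ p, Ω.real (EJ p \ EG p) ≤ δ := by
    intro p
    have h9 : Ω (EJ p \ EG p) ≤ ENNReal.ofReal δ := by
      have h10 : EJ p \ EG p = (fun z : (NF ℕ → X) × L₁.Str ℕ =>
          (fun A : LoIdx m ℓ => z.1 (NF.map (β p) A.1))) ⁻¹' (B' \ G) := by
        rw [hEJ, hEG]; rfl
      rw [h10, ← Measure.map_apply (hrm p) (hB'm.diff hGm), hΩr]
      refine (measure_mono ?_).trans happ.le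
      intro y hy
      exact Or.inr hy
    rw [measureReal_def]
    exact (ENNReal.toReal_mono ENNReal.ofReal_ne_top h9).trans (ENNReal.toReal_ofReal hδ0.le).le
  have hGp : ∀ p, Ω.real (EG p) ≤ pat μ N₂ b + δ := by
    intro p
    have h10 : Ω.real (EG p) = Q.real G := by
      rw [measureReal_def, measureReal_def, ← hΩr p, Measure.map_apply (hrm p) hGm, hEG]
      rfl
    rw [h10, hpb]
    have h11 : G ⊆ B' ∪ (G \ B') := by
      intro y hy
      by_cases hyB : y ∈ B'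
      · exact Or.inl hyB
      · exact Or.inr ⟨hy, hyB⟩
    refine (measureReal_mono h11).trans ((measureReal_union_le _ _).trans ?_)
    have h12 : Q.real (G \ B') ≤ δ := by
      have h13 : Q (G \ B') ≤ ENNReal.ofReal δ :=
        (measure_mono (fun y hy => Or.inl hy)).trans happ.le
      rw [measureReal_def]
      exact (ENNReal.toReal_mono ENNReal.ofReal_ne_top h13).trans (ENNReal.toReal_ofReal hδ0.le).le
    linarith
  -- the pointwise inequality
  obtain ⟨n, hn⟩ : ∃ n : ℝ, n = Fintype.card (Fin (ℓ + 1) → ZMod q) := ⟨_, rfl⟩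
  have hnpos : 0 < n := by
    rw [hn]; exact_mod_cast Fintype.card_pos
  have hpoint : ∀ z : (NF ℕ → X) × L₁.Str ℕ,
      ∑ p, (EI p ∩ EG p).indicator (fun _ => (1:ℝ)) z
        ≤ ∑ p, pat μ N₁ a * (EG p).indicator (fun _ => (1:ℝ)) z + δ * n
          + n * (Prod.snd ⁻¹' Bad).indicator (fun _ => (1:ℝ)) z := by
    intro z
    have hEGw : ∀ p, (EG p).indicator (fun _ => (1:ℝ)) z
        = w (fun A => c (z.1 (NF.map ι A.1))) p := by
      intro p
      rw [hw, hEG]
      have h14 : (z ∈ {z : (NF ℕ → X) × L₁.Str ℕ | (fun A : LoIdx m ℓ => z.1 (NF.map (β p) A.1)) ∈ G})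
          ↔ (fun A : LoIdx m ℓ => c (z.1 (NF.map ι (NF.map (trans ℓ m q p) A.1)))) ∈ bt := by
        rw [hG]
        change (fun A : LoIdx m ℓ => c (z.1 (NF.map (β p) A.1))) ∈ bt ↔ _
        simp only [NF.map_map, hβ]
      by_cases hz : (fun A : LoIdx m ℓ => c (z.1 (NF.map ι (NF.map (trans ℓ m q p) A.1)))) ∈ bt
      · rw [Set.indicator_of_mem (h14.2 hz)]
        dsimp only
        rw [if_pos hz]
      · rw [Set.indicator_of_notMem (fun h => hz (h14.1 h))]
        dsimp only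
        rw [if_neg hz]
    have hEIw : ∀ p, (EI p ∩ EG p).indicator (fun _ => (1:ℝ)) z
        = (if Lang.Str.comap (β p) z.2 ∈ a then (1:ℝ) else 0)
          * (EG p).indicator (fun _ => (1:ℝ)) z := by
      intro p
      rw [hEI]
      by_cases h15 : Lang.Str.comap (β p) z.2 ∈ a
      · rw [if_pos h15, one_mul]
        by_cases h16 : z ∈ EG p
        · rw [Set.indicator_of_mem h16, Set.indicator_of_mem (by exact ⟨h15, h16⟩)]
        · rw [Set.indicator_of_notMem h16, Set.indicator_of_notMem (fun h => h16 h.2)]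
      · rw [if_neg h15, zero_mul, Set.indicator_of_notMem (fun h => h15 h.1)]
    by_cases hzB : z.2 ∈ Bad
    · rw [Set.indicator_of_mem (show z ∈ Prod.snd ⁻¹' Bad from hzB)]
      have h17 : ∑ p, (EI p ∩ EG p).indicator (fun _ => (1:ℝ)) z ≤ n := by
        rw [hn, ← Finset.card_univ, ← mul_one ((Finset.univ : Finset (Fin (ℓ + 1) → ZMod q)).card : ℝ),
          ← nsmul_eq_mul, ← Finset.sum_const]
        refine Finset.sum_le_sum fun p _ => ?_
        by_cases h18 : z ∈ EI p ∩ EG p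
        · rw [Set.indicator_of_mem h18]
        · rw [Set.indicator_of_notMem h18]; norm_num
      have h19 : 0 ≤ ∑ p, pat μ N₁ a * (EG p).indicator (fun _ => (1:ℝ)) z := by
        refine Finset.sum_nonneg fun p _ => mul_nonneg hpa0 ?_
        exact Set.indicator_nonneg (fun _ _ => zero_le_one) _
      have h20 : 0 ≤ δ * n := by positivity
      linarith
    · rw [Set.indicator_of_notMem (show z ∉ Prod.snd ⁻¹' Bad from hzB)]
      rw [hBad, mem_iUnion] at hzB
      push Not at hzB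
      have h21 := hzB (fun A => c (z.1 (NF.map ι A.1)))
      have h22 : ∑ p, ((if Lang.Str.comap (β p) z.2 ∈ a then (1:ℝ) else 0) - pat μ N₁ a)
          * w (fun A => c (z.1 (NF.map ι A.1))) p < δ * n := by
        rw [hn]
        exact not_le.1 h21
      have h23 : ∑ p, (EI p ∩ EG p).indicator (fun _ => (1:ℝ)) z
          - ∑ p, pat μ N₁ a * (EG p).indicator (fun _ => (1:ℝ)) z
          = ∑ p, ((if Lang.Str.comap (β p) z.2 ∈ a then (1:ℝ) else 0) - pat μ N₁ a)
          * w (fun A => c (z.1 (NF.map ι A.1))) p := by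
        rw [← Finset.sum_sub_distrib]
        refine Finset.sum_congr rfl fun p _ => ?_
        rw [hEIw, hEGw]; ring
      linarith
  -- integrate
  have hint : ∀ s : Set ((NF ℕ → X) × L₁.Str ℕ), MeasurableSet s →
      Integrable (s.indicator (fun _ => (1:ℝ))) Ω := fun s hs =>
    (integrable_const (1:ℝ)).indicator hs
  have hval : ∀ s : Set ((NF ℕ → X) × L₁.Str ℕ), MeasurableSet s →
      ∫ z, s.indicator (fun _ => (1:ℝ)) z ∂Ω = Ω.real s := fun s hs =>
    integral_indicator_one hs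
  have hIbad : MeasurableSet (Prod.snd ⁻¹' Bad : Set ((NF ℕ → X) × L₁.Str ℕ)) :=
    measurable_snd hBadm
  have hL : ∫ z, ∑ p, (EI p ∩ EG p).indicator (fun _ => (1:ℝ)) z ∂Ω
      = ∑ p, Ω.real (EI p ∩ EG p) := by
    rw [integral_finsetSum _ fun p _ => hint _ ((hEIm p).inter (hEGm p))]
    exact Finset.sum_congr rfl fun p _ => hval _ ((hEIm p).inter (hEGm p))
  have hR : ∫ z, (∑ p, pat μ N₁ a * (EG p).indicator (fun _ => (1:ℝ)) z + δ * n
          + n * (Prod.snd ⁻¹' Bad).indicator (fun _ => (1:ℝ)) z) ∂Ω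
      = ∑ p, pat μ N₁ a * Ω.real (EG p) + δ * n + n * Ω.real (Prod.snd ⁻¹' Bad) := by
    have hi1 : Integrable (fun z => ∑ p, pat μ N₁ a * (EG p).indicator (fun _ => (1:ℝ)) z) Ω :=
      integrable_finsetSum _ fun p _ => (hint _ (hEGm p)).const_mul _
    have hi2 : Integrable (fun z => n * (Prod.snd ⁻¹' Bad).indicator (fun _ => (1:ℝ)) z) Ω :=
      (hint _ hIbad).const_mul _
    have hi3 : Integrable (fun z => ∑ p, pat μ N₁ a * (EG p).indicator (fun _ => (1:ℝ)) z
        + δ * n) Ω := hi1.add (integrable_const _)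
    rw [integral_add hi3 hi2, integral_add hi1 (integrable_const _),
      integral_const, probReal_univ, one_smul, integral_const_mul, hval _ hIbad,
      integral_finsetSum _ fun p _ => (hint _ (hEGm p)).const_mul _]
    congr 2
    refine Finset.sum_congr rfl fun p _ => ?_
    rw [integral_const_mul, hval _ (hEGm p)]
  have hineq : ∑ p, Ω.real (EI p ∩ EG p)
      ≤ ∑ p, pat μ N₁ a * Ω.real (EG p) + δ * n + n * Ω.real (Prod.snd ⁻¹' Bad) := by
    rw [← hL, ← hR]
    refine integral_mono ?_ ?_ hpoint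
    · exact integrable_finsetSum _ fun p _ => hint _ ((hEIm p).inter (hEGm p))
    · exact ((integrable_finsetSum _ fun p _ => (hint _ (hEGm p)).const_mul _).add
        (integrable_const _)).add ((hint _ hIbad).const_mul _)
  have hbadΩ : Ω.real (Prod.snd ⁻¹' Bad) ≤ δ := by
    have : Ω.real (Prod.snd ⁻¹' Bad) = (N₁.law μ).real Bad := by
      rw [measureReal_def, measureReal_def, ← hΩ3, Measure.map_apply measurable_snd hBadm]
    rw [this]; exact hBadp
  have hlower : ∀ p, pab - δ ≤ Ω.real (EI p ∩ EG p) := by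
    intro p
    have h24 : EI p ∩ EJ p ⊆ (EI p ∩ EG p) ∪ (EJ p \ EG p) := by
      rintro z ⟨hz1, hz2⟩
      by_cases hz3 : z ∈ EG p
      · exact Or.inl ⟨hz1, hz3⟩
      · exact Or.inr ⟨hz2, hz3⟩
    have h25 := (measureReal_mono (μ := Ω) h24).trans (measureReal_union_le _ _)
    rw [hIJ] at h25
    have := hsym p
    linarith
  have hsum1 : n * (pab - δ) ≤ ∑ p, Ω.real (EI p ∩ EG p) := by
    rw [hn, ← Finset.card_univ, ← nsmul_eq_mul, ← Finset.sum_const]
    exact Finset.sum_le_sum fun p _ => hlower p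
  have hsum2 : ∑ p, pat μ N₁ a * Ω.real (EG p) ≤ n * (pat μ N₁ a * (pat μ N₂ b + δ)) := by
    rw [hn, ← Finset.card_univ, ← nsmul_eq_mul, ← Finset.sum_const]
    exact Finset.sum_le_sum fun p _ => mul_le_mul_of_nonneg_left (hGp p) hpa0
  have hfinal : n * (pab - δ) ≤ n * (pat μ N₁ a * (pat μ N₂ b + δ) + δ + δ) := by
    have h26 : n * Ω.real (Prod.snd ⁻¹' Bad) ≤ n * δ := mul_le_mul_of_nonneg_left hbadΩ hnpos.le
    nlinarith
  have h27 := le_of_mul_le_mul_left hfinal hnpos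
  have h28 : pat μ N₁ a * δ ≤ δ := by
    calc pat μ N₁ a * δ ≤ 1 * δ := mul_le_mul_of_nonneg_right hpa1 hδ0.le
      _ = δ := one_mul _
  have h29 : ε = 4 * δ := by rw [hδ]; ring
  rw [h29]
  nlinarith

end Pool.Agent.Q136.Arr
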