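import Mathlib
import Pool.Agent.Q136.ArrHighC

/-!
Structures using only levels above `ℓ` belong to `UCouple[ℓ]`.
-/

open MeasureTheory Measure ProbabilityTheory Set
open scoped ENNReal symmDiff

namespace Pool.Agent.Q136.Arr

variable {L₁ L₂ : Lang} {X : Type} [MeasurableSpace X] (μ : Measure X) [IsProbabilityMeasure μ]

lemma pat_add_compl {L : Lang} (N : Eucl L X) {m : ℕ} (a : Set (L.Str (Fin m))) :
    pat μ N a + pat μ N aᶜ = 1 := by
  unfold pat
  have : IsProbabilityMeasure ((infinitePi (fun _ : NF (Fin m) => μ)).map N.arrV) :=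
    isProbabilityMeasure_map N.measurable_arrV.aemeasurable
  rw [measureReal_add_measureReal_compl (measurableSet_str a), probReal_univ]

theorem two_sided {ℓ : ℕ} (N₁ : Eucl L₁ X) (N₂ : Eucl L₂ X) (M : Eucl (L₁.sum L₂) X)
    (hN₁ : N₁.Compatible {n | ℓ < n}) (hN₂ : N₂.Compatible {n | n ≤ ℓ})
    (h1 : (M.law μ).map reduct₁ = N₁.law μ) (h2 : (M.law μ).map reduct₂ = N₂.law μ)
    (m : ℕ) (a : Set (L₁.Str (Fin m))) (b : Set (L₂.Str (Fin m))) :
    (M.law μ).real {K | Lang.Str.comap (stdEmb m) (reduct₁ K) ∈ a ∧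
      Lang.Str.comap (stdEmb m) (reduct₂ K) ∈ b} = pat μ N₁ a * pat μ N₂ b := by
  have ha := one_sided μ N₁ N₂ M hN₁ hN₂ h1 h2 m a b
  have hac := one_sided μ N₁ N₂ M hN₁ hN₂ h1 h2 m aᶜ b
  have hsum : (M.law μ).real {K | Lang.Str.comap (stdEmb m) (reduct₁ K) ∈ a ∧
      Lang.Str.comap (stdEmb m) (reduct₂ K) ∈ b}
      + (M.law μ).real {K | Lang.Str.comap (stdEmb m) (reduct₁ K) ∈ aᶜ ∧
      Lang.Str.comap (stdEmb m) (reduct₂ K) ∈ b} = pat μ N₂ b := by
    have hm1 : MeasurableSet {K : (L₁.sum L₂).Str ℕ |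
        Lang.Str.comap (stdEmb m) (reduct₁ K) ∈ aᶜ ∧
        Lang.Str.comap (stdEmb m) (reduct₂ K) ∈ b} :=
      (((measurable_comap (stdEmb m)).comp measurable_reduct₁) (measurableSet_str aᶜ)).inter
        (((measurable_comap (stdEmb m)).comp measurable_reduct₂) (measurableSet_str b))
    rw [← measureReal_union _ hm1]
    · have hmb : MeasurableSet {K : L₂.Str ℕ | Lang.Str.comap (stdEmb m) K ∈ b} :=
        (measurable_comap _) (measurableSet_str b)
      rw [← law_real_comap μ N₂ (stdEmb m), ← h2, measureReal_def, measureReal_def,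
        Measure.map_apply measurable_reduct₂ hmb]
      congr 2
      ext K
      constructor
      · rintro (h | h)
        · exact h.2
        · exact h.2
      · intro h
        by_cases hK : Lang.Str.comap (stdEmb m) (reduct₁ K) ∈ a
        · exact Or.inl ⟨hK, h⟩
        · exact Or.inr ⟨hK, h⟩
    · rw [Set.disjoint_left]
      rintro K h h'
      exact h'.1 h.1
  have hpc := pat_add_compl μ N₁ a
  have h3 : pat μ N₁ a * pat μ N₂ b + pat μ N₁ aᶜ * pat μ N₂ b = pat μ N₂ b := by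
    rw [← add_mul, hpc, one_mul]
  linarith

theorem law_eq_indep {ℓ : ℕ} (N₁ : Eucl L₁ X) (N₂ : Eucl L₂ X) (M : Eucl (L₁.sum L₂) X)
    (hN₁ : N₁.Compatible {n | ℓ < n}) (hN₂ : N₂.Compatible {n | n ≤ ℓ})
    (h1 : (M.law μ).map reduct₁ = N₁.law μ) (h2 : (M.law μ).map reduct₂ = N₂.law μ) :
    M.law μ = indepCoupling (N₁.law μ) (N₂.law μ) := by
  have hprod : IsProbabilityMeasure (indepCoupling (N₁.law μ) (N₂.law μ)) :=
    isProbabilityMeasure_map measurable_join.aemeasurable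
  refine measure_ext_of_comap fun m => ?_
  have hp1 : IsProbabilityMeasure ((M.law μ).map (Lang.Str.comap (stdEmb m))) :=
    isProbabilityMeasure_map (measurable_comap _).aemeasurable
  have hp2 : IsProbabilityMeasure ((indepCoupling (N₁.law μ) (N₂.law μ)).map
      (Lang.Str.comap (stdEmb m))) :=
    isProbabilityMeasure_map (measurable_comap _).aemeasurable
  have hf : Finite ((L₁.sum L₂).Str (Fin m)) := inferInstance
  refine Measure.ext_of_singleton fun k => ?_
  obtain ⟨k₁, hk₁⟩ : ∃ k₁ : L₁.Str (Fin m), k₁ = reduct₁ k := ⟨_, rfl⟩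
  obtain ⟨k₂, hk₂⟩ : ∃ k₂ : L₂.Str (Fin m), k₂ = reduct₂ k := ⟨_, rfl⟩
  have hk : k = join k₁ k₂ := by rw [hk₁, hk₂, join_reduct]
  have hjoin : ∀ (K₁ : L₁.Str (Fin m)) (K₂ : L₂.Str (Fin m)),
      (join K₁ K₂ : (L₁.sum L₂).Str (Fin m)) = k ↔ (K₁ = k₁ ∧ K₂ = k₂) := by
    intro K₁ K₂
    constructor
    · intro h
      rw [hk₁, hk₂, ← h]
      exact ⟨rfl, rfl⟩
    · rintro ⟨rfl, rfl⟩
      exact hk.symm
  have hleft : ((M.law μ).map (Lang.Str.comap (stdEmb m))).real {k}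
      = pat μ N₁ {k₁} * pat μ N₂ {k₂} := by
    rw [← two_sided μ N₁ N₂ M hN₁ hN₂ h1 h2 m {k₁} {k₂}, measureReal_def, measureReal_def,
      Measure.map_apply (measurable_comap _) (measurableSet_singleton k)]
    congr 2
    ext K
    change Lang.Str.comap (stdEmb m) K = k ↔ (Lang.Str.comap (stdEmb m) (reduct₁ K) = k₁ ∧
      Lang.Str.comap (stdEmb m) (reduct₂ K) = k₂)
    rw [← hjoin, ← comap_join, join_reduct]
  have hright : ((indepCoupling (N₁.law μ) (N₂.law μ)).map
      (Lang.Str.comap (stdEmb m))).real {k} = pat μ N₁ {k₁} * pat μ N₂ {k₂} := by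
    unfold indepCoupling
    rw [Measure.map_map (measurable_comap _) measurable_join, measureReal_def,
      Measure.map_apply ((measurable_comap _).comp measurable_join) (measurableSet_singleton k)]
    have h5 : ((Lang.Str.comap (stdEmb m)) ∘ fun p : L₁.Str ℕ × L₂.Str ℕ =>
        (join p.1 p.2 : (L₁.sum L₂).Str ℕ)) ⁻¹' {k}
        = {K | Lang.Str.comap (stdEmb m) K ∈ ({k₁} : Set (L₁.Str (Fin m)))} ×ˢ
          {K | Lang.Str.comap (stdEmb m) K ∈ ({k₂} : Set (L₂.Str (Fin m)))} := by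
      ext p
      change Lang.Str.comap (stdEmb m) (join p.1 p.2 : (L₁.sum L₂).Str ℕ) = k ↔
        (Lang.Str.comap (stdEmb m) p.1 = k₁ ∧ Lang.Str.comap (stdEmb m) p.2 = k₂)
      rw [comap_join, hjoin]
    rw [h5, Measure.prod_prod, ENNReal.toReal_mul, ← measureReal_def, ← measureReal_def,
      law_real_comap, law_real_comap]
  have h6 := hleft.trans hright.symm
  rw [measureReal_def, measureReal_def] at h6
  exact (ENNReal.toReal_eq_toReal_iff' (measure_ne_top _ _) (measure_ne_top _ _)).1 h6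

/-- Limit objects represented using only levels above `ℓ` are in `UCouple[ℓ]`. -/
theorem inUCouple_of_high {L : Lang} {ℓ : ℕ} (N : Eucl L X) (T : UTheory L)
    (hN : N.Compatible {n | ℓ < n}) : InUCouple μ T (N.law μ) ℓ := by
  intro L' T' ψ _ hrank ξ hξ
  obtain ⟨N', ⟨_, hψ⟩, hN'⟩ := hrank
  obtain ⟨⟨M, _, hM⟩, hc1, hc2⟩ := hξ
  rw [← hM, ← hψ]
  refine law_eq_indep μ N N' M hN hN' ?_ ?_
  · rw [hM, hc1]
  · rw [hM, hc2, hψ]

end Pool.Agent.Q136.Arr
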