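import Mathlib

open Finset Module

namespace Q136.FH

variable {W : Type*} [NormedAddCommGroup W] [InnerProductSpace ℝ W] [FiniteDimensional ℝ W]

/-- `p` is a point of `S` of least norm. -/
def IsMin (S : Set W) (p : W) : Prop := p ∈ S ∧ ∀ q ∈ S, ‖p‖ ≤ ‖q‖

lemma exists_isMin {S : Set W} (hc : IsClosed S) (hne : S.Nonempty) : ∃ p, IsMin S p := by
  obtain ⟨p, hp, h⟩ := hc.exists_infDist_eq_dist hne 0
  refine ⟨p, hp, fun q hq => ?_⟩
  have h2 := Metric.infDist_le_dist_of_mem (x := (0 : W)) hq
  rw [h] at h2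
  simpa [dist_eq_norm] using h2

omit [FiniteDimensional ℝ W] in
lemma isMin_unique {S : Set W} (hconv : Convex ℝ S) {p q : W} (hp : IsMin S p)
    (hq : IsMin S q) : p = q := by
  by_contra hne
  have h1 : ‖p‖ = ‖q‖ := le_antisymm (hp.2 q hq.1) (hq.2 p hp.1)
  have h2 := (norm_midpoint_lt_iff h1).2 hne
  have hm : (1/2:ℝ) • (p+q) ∈ S := by
    have := hconv hp.1 hq.1 (by norm_num : (0:ℝ) ≤ 1/2) (by norm_num : (0:ℝ) ≤ 1/2)
      (by norm_num)
    simpa [smul_add] using this
  exact absurd (hp.2 _ hm) (not_le.2 h2)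

lemma compress_le {X : Type*} [DecidableEq X] (K : X → Set W)
    (hconv : ∀ x, Convex ℝ (K x)) (R : Finset X) {p : W}
    (hp : IsMin (⋂ x ∈ R, K x) p) :
    ∃ T ⊆ R, T.card ≤ finrank ℝ W ∧ IsMin (⋂ x ∈ T, K x) p := by
  by_contra hcon
  push Not at hcon
  let F : Option X → Set W := fun o => o.elim (Metric.ball 0 ‖p‖) K
  have key : (⋂ i ∈ insertNone R, F i).Nonempty := by
    apply Convex.helly_theorem' (𝕜 := ℝ)
    · intro i _
      cases i with
      | none => exact convex_ball _ _
      | some x => exact hconv x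
    · intro I hI hcard
      by_cases hn : none ∈ I
      · -- some point of the ball lies in all `K x`, `x ∈ eraseNone I`
        have hsub : eraseNone I ⊆ R := by
          intro x hx
          have := hI (mem_eraseNone.1 hx)
          simpa using this
        have hc : (eraseNone I).card ≤ finrank ℝ W := by
          have h1 : insertNone (eraseNone I) = I := by
            ext o
            cases o with
            | none => simp [hn]
            | some x => simp
          have h2 : (insertNone (eraseNone I)).card = (eraseNone I).card + 1 :=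
            card_insertNone _
          rw [h1] at h2
          omega
        have h3 := hcon _ hsub hc
        have hpm : p ∈ ⋂ x ∈ eraseNone I, K x := by
          simp only [Set.mem_iInter]
          intro x hx
          have := hp.1
          simp only [Set.mem_iInter] at this
          exact this x (hsub hx)
        unfold IsMin at h3
        push Not at h3
        obtain ⟨q, hq, hlt⟩ := h3 hpm
        refine ⟨q, ?_⟩
        simp only [Set.mem_iInter] at hq ⊢
        intro i hi
        cases i with
        | none => simpa [F] using hlt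
        | some x => exact hq x (mem_eraseNone.2 hi)
      · refine ⟨p, ?_⟩
        simp only [Set.mem_iInter]
        intro i hi
        cases i with
        | none => exact absurd hi hn
        | some x =>
          have h4 := hI hi
          have h5 : x ∈ R := by simpa using h4
          have := hp.1
          simp only [Set.mem_iInter] at this
          exact this x h5
  obtain ⟨q, hq⟩ := key
  simp only [Set.mem_iInter] at hq
  have hq1 : q ∈ Metric.ball (0:W) ‖p‖ := hq none (by simp)
  have hq2 : q ∈ ⋂ x ∈ R, K x := by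
    simp only [Set.mem_iInter]
    intro x hx
    exact hq (some x) (by simpa using hx)
  have := hp.2 q hq2
  simp at hq1
  linarith

lemma compress {X : Type*} [DecidableEq X] (K : X → Set W)
    (hconv : ∀ x, Convex ℝ (K x)) (R : Finset X) (hR : finrank ℝ W ≤ R.card) {p : W}
    (hp : IsMin (⋂ x ∈ R, K x) p) :
    ∃ T ⊆ R, T.card = finrank ℝ W ∧ IsMin (⋂ x ∈ T, K x) p := by
  obtain ⟨T, hTR, hTc, hT⟩ := compress_le K hconv R hp
  obtain ⟨T', h1, h2, h3⟩ := exists_subsuperset_card_eq hTR hTc hR
  refine ⟨T', h2, h3, ?_, ?_⟩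
  · have := hp.1
    simp only [Set.mem_iInter] at this ⊢
    intro x hx
    exact this x (h2 hx)
  · intro q hq
    apply hT.2
    simp only [Set.mem_iInter] at hq ⊢
    intro x hx
    exact hq x (h1 hx)

/-- Number of `s`-subsets of `M` that contain a given `T ⊆ M`. -/
lemma card_superset {X : Type*} [DecidableEq X] (M T : Finset X) (hT : T ⊆ M) (s : ℕ) :
    ((powersetCard s M).filter (fun R => T ⊆ R)).card ≤ (M.card - T.card).choose (s - T.card) := by
  rw [← card_sdiff_of_subset hT, ← card_powersetCard]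
  apply card_le_card_of_injOn (fun R => R \ T)
  · intro R hR
    simp only [coe_filter, mem_powersetCard, Set.mem_ofPred_eq] at hR
    simp only [mem_coe, mem_powersetCard]
    refine ⟨sdiff_subset_sdiff hR.1.1 (le_refl _), ?_⟩
    rw [card_sdiff_of_subset hR.2, hR.1.2]
  · intro R hR R' hR' h
    simp only [coe_filter, mem_powersetCard, Set.mem_ofPred_eq] at hR hR'
    simp only at h
    have h1 : R \ T ∪ T = R := sdiff_union_of_subset hR.2
    have h2 : R' \ T ∪ T = R' := sdiff_union_of_subset hR'.2
    rw [← h1, ← h2, h]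

/-- `C(a,k) b^k ≤ a^k C(b,k)` for `a ≤ b`. -/
lemma choose_ratio (a b k : ℕ) (h : a ≤ b) : a.choose k * b ^ k ≤ a ^ k * b.choose k := by
  have h1 : a.descFactorial k * b ^ k ≤ a ^ k * b.descFactorial k := by
    induction k with
    | zero => simp
    | succ k ih =>
      rw [Nat.descFactorial_succ, Nat.descFactorial_succ, pow_succ, pow_succ]
      have h2 : (a - k) * b ≤ a * (b - k) := by
        rcases Nat.le_total k a with hk | hk
        · have hk2 : k ≤ b := le_trans hk h
          obtain ⟨c, rfl⟩ := Nat.exists_eq_add_of_le hk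
          obtain ⟨e, rfl⟩ := Nat.exists_eq_add_of_le h
          have e1 : k + c - k = c := by omega
          have e2 : k + c + e - k = c + e := by omega
          rw [e1, e2]
          nlinarith [Nat.zero_le (k * e)]
        · have : a - k = 0 := by omega
          rw [this]; simp
      calc (a - k) * a.descFactorial k * (b ^ k * b)
          = ((a - k) * b) * (a.descFactorial k * b ^ k) := by ring
        _ ≤ (a * (b - k)) * (a ^ k * b.descFactorial k) := Nat.mul_le_mul h2 ih
        _ = a ^ k * a * ((b - k) * b.descFactorial k) := by ring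
  have h3 : a.descFactorial k = k.factorial * a.choose k := Nat.descFactorial_eq_factorial_mul_choose a k
  have h4 : b.descFactorial k = k.factorial * b.choose k := Nat.descFactorial_eq_factorial_mul_choose b k
  rw [h3, h4] at h1
  have h5 : 0 < k.factorial := Nat.factorial_pos k
  have h6 : k.factorial * (a.choose k * b ^ k) ≤ k.factorial * (a ^ k * b.choose k) := by
    calc k.factorial * (a.choose k * b ^ k) = k.factorial * a.choose k * b ^ k := by ring
      _ ≤ a ^ k * (k.factorial * b.choose k) := h1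
      _ = _ := by ring
  exact Nat.le_of_mul_le_mul_left h6 h5


lemma exists_s (D : ℕ) (r : ℝ) (hr0 : 0 < r) (hr1 : r < 1) :
    ∃ s : ℕ, D + 1 ≤ s ∧ (s.choose D : ℝ) * r ^ (s - D) < 1 / 2 := by
  have h1 : Filter.Tendsto (fun n : ℕ => (n : ℝ) ^ D * r ^ n) Filter.atTop (nhds 0) :=
    tendsto_pow_const_mul_const_pow_of_abs_lt_one D (by rw [abs_of_pos hr0]; exact hr1)
  have h2 : ∀ᶠ n : ℕ in Filter.atTop, (n : ℝ) ^ D * r ^ n < r ^ D / 2 :=
    h1.eventually_lt_const (by positivity)
  obtain ⟨s, hs1, hs2⟩ := (h2.and (Filter.eventually_ge_atTop (D+1))).exists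
  refine ⟨s, hs2, ?_⟩
  have h3 : (s.choose D : ℝ) ≤ (s : ℝ) ^ D := by
    have := Nat.choose_le_pow s D
    exact_mod_cast this
  have h4 : r ^ s = r ^ (s - D) * r ^ D := by
    rw [← pow_add]; congr 1; omega
  have h5 : 0 < r ^ D := by positivity
  have h6 : (s:ℝ)^D * r ^ (s-D) * r ^ D < 1 / 2 * r ^ D := by
    calc (s:ℝ)^D * r ^ (s-D) * r ^ D = (s:ℝ)^D * r ^ s := by rw [h4]; ring
      _ < r ^ D / 2 := hs1
      _ = 1 / 2 * r ^ D := by ring
  have h7 : (s:ℝ)^D * r ^ (s-D) < 1 / 2 := lt_of_mul_lt_mul_right h6 h5.le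
  calc (s.choose D : ℝ) * r ^ (s - D) ≤ (s:ℝ)^D * r ^ (s-D) := by
        apply mul_le_mul_of_nonneg_right h3 (by positivity)
    _ < 1 / 2 := h7

/-- **Fractional Helly theorem with density tending to one.** -/
theorem fracHelly (D : ℕ) (δ : ℝ) (hδ : 0 < δ) :
    ∃ ε : ℝ, 0 < ε ∧ ∀ (W : Type) [NormedAddCommGroup W] [InnerProductSpace ℝ W]
      [FiniteDimensional ℝ W], finrank ℝ W = D →
      ∀ (X : Type) [DecidableEq X] (P : Finset X) (K : X → Set W),
      (∀ x, IsClosed (K x)) → (∀ x, Convex ℝ (K x)) → D + 1 ≤ P.card →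
      ∀ bad : Finset (Finset X),
      (∀ S ⊆ P, S.card = D + 1 → S ∉ bad → (⋂ x ∈ S, K x).Nonempty) →
      (∀ S ∈ bad, S ⊆ P ∧ S.card = D + 1) →
      (bad.card : ℝ) ≤ ε * (P.card.choose (D+1)) →
      ∃ (p : W) (M : Finset X), M ⊆ P ∧ (∀ x ∈ M, p ∈ K x) ∧ (1 - δ) * P.card ≤ M.card := by
  classical
  by_cases hδ1 : 1 ≤ δ
  · refine ⟨1, one_pos, ?_⟩
    intro W _ _ _ _ X _ P K _ _ _ _ _ _ _
    refine ⟨0, ∅, by simp, by simp, ?_⟩
    have : (0:ℝ) ≤ P.card := by positivity
    simp only [card_empty, Nat.cast_zero]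
    nlinarith
  push Not at hδ1
  obtain ⟨s, hsD, hs⟩ := exists_s D (1 - δ) (by linarith) (by linarith)
  have hCs : 0 < s.choose (D+1) := Nat.choose_pos hsD
  have hCs' : (0:ℝ) < s.choose (D+1) := by exact_mod_cast hCs
  refine ⟨1 / (2 * s.choose (D+1)), by positivity, ?_⟩
  intro W _ _ _ hW X _ P K hcl hconv hP bad hgood hbad hcard
  -- all sets `K x`, `x ∈ R`, meet as soon as all `(D+1)`-subsets of `R` are good
  have helly : ∀ R ⊆ P, D + 1 ≤ R.card → (∀ B ∈ bad, ¬ B ⊆ R) → (⋂ x ∈ R, K x).Nonempty := by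
    intro R hRP hR hB
    apply Convex.helly_theorem (𝕜 := ℝ) (by rw [hW]; exact hR) (fun i _ => hconv i)
    intro I hI hIc
    rw [hW] at hIc
    exact hgood I (hI.trans hRP) hIc (fun hmem => hB I hmem hI)
  by_cases hn : P.card < s
  · -- few sets: no bad subsets at all
    have h1 : P.card.choose (D+1) ≤ s.choose (D+1) := Nat.choose_le_choose _ hn.le
    have h1' : ((P.card.choose (D+1) : ℕ) : ℝ) ≤ s.choose (D+1) := by exact_mod_cast h1
    have h2 : (bad.card : ℝ) < 1 := by
      calc (bad.card : ℝ) ≤ 1 / (2 * s.choose (D+1)) * (P.card.choose (D+1)) := hcard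
        _ ≤ 1 / (2 * s.choose (D+1)) * (s.choose (D+1)) := by
            apply mul_le_mul_of_nonneg_left h1' (by positivity)
        _ = 1 / 2 := by field_simp
        _ < 1 := by norm_num
    have h3 : bad.card = 0 := by
      have : bad.card < 1 := by exact_mod_cast h2
      omega
    have h4 : bad = ∅ := card_eq_zero.1 h3
    obtain ⟨p, hp⟩ := helly P (le_refl _) hP (by simp [h4])
    simp only [Set.mem_iInter] at hp
    refine ⟨p, P, le_refl _, hp, ?_⟩
    have : (0:ℝ) ≤ P.card := by positivity
    nlinarith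
  push Not at hn
  by_contra hcon
  push Not at hcon
  -- choose the least norm points
  have hch : ∀ T : Finset X, ∃ p : W, (⋂ x ∈ T, K x).Nonempty → IsMin (⋂ x ∈ T, K x) p := by
    intro T
    by_cases hne : (⋂ x ∈ T, K x).Nonempty
    · obtain ⟨p, hp⟩ := exists_isMin
        (isClosed_iInter (fun x => isClosed_iInter (fun _ => hcl x))) hne
      exact ⟨p, fun _ => hp⟩
    · exact ⟨0, fun h => absurd h hne⟩
  choose pt hpt using hch
  let M : Finset X → Finset X := fun T => P.filter (fun x => pt T ∈ K x)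
  have hMP : ∀ T, M T ⊆ P := fun T => filter_subset _ _
  have hMc : ∀ T, ((M T).card : ℝ) < (1 - δ) * P.card := by
    intro T
    exact hcon (pt T) (M T) (hMP T) (fun x hx => (mem_filter.1 hx).2)
  let n := P.card
  have hn0 : (0:ℝ) < n := by
    have : 0 < P.card := by omega
    exact_mod_cast this
  let G1 : Finset (Finset X) := bad.biUnion (fun B => (powersetCard s P).filter (fun R => B ⊆ R))
  let G2 : Finset (Finset X) := (powersetCard D P).biUnion
    (fun T => (powersetCard s (M T)).filter (fun R => T ⊆ R))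
  have hcover : powersetCard s P ⊆ G1 ∪ G2 := by
    intro R hR
    obtain ⟨hRP, hRs⟩ := mem_powersetCard.1 hR
    by_cases hB : ∃ B ∈ bad, B ⊆ R
    · obtain ⟨B, hB1, hB2⟩ := hB
      apply mem_union_left
      exact mem_biUnion.2 ⟨B, hB1, mem_filter.2 ⟨hR, hB2⟩⟩
    · push Not at hB
      apply mem_union_right
      have hne := helly R hRP (by omega) hB
      have hmin := hpt R hne
      obtain ⟨T, hTR, hTc, hT⟩ := compress K hconv R (by rw [hW]; omega) hmin
      rw [hW] at hTc
      have hT2 := hpt T ⟨_, hT.1⟩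
      have heq : pt T = pt R := isMin_unique
        (convex_iInter (fun x => convex_iInter (fun _ => hconv x))) hT2 hT
      refine mem_biUnion.2 ⟨T, mem_powersetCard.2 ⟨hTR.trans hRP, hTc⟩, mem_filter.2 ⟨?_, hTR⟩⟩
      refine mem_powersetCard.2 ⟨?_, hRs⟩
      intro x hx
      refine mem_filter.2 ⟨hRP hx, ?_⟩
      rw [heq]
      have := hmin.1
      simp only [Set.mem_iInter] at this
      exact this x hx
  have hc1 : (G1.card : ℝ) ≤ bad.card * ((n - (D+1)).choose (s - (D+1)) : ℕ) := by
    have : G1.card ≤ bad.card * ((n - (D+1)).choose (s - (D+1))) := by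
      apply card_biUnion_le_card_mul
      intro B hB
      have := card_superset P B (hbad B hB).1 s
      rw [(hbad B hB).2] at this
      exact this
    exact_mod_cast this
  have hc2 : (G2.card : ℝ) ≤ (n.choose D : ℕ) * ((1 - δ) ^ (s - D) * ((n - D).choose (s - D) : ℕ)) := by
    have h1 : G2.card ≤ ∑ T ∈ powersetCard D P,
        ((powersetCard s (M T)).filter (fun R => T ⊆ R)).card := card_biUnion_le
    have h2 : (G2.card : ℝ) ≤ ∑ T ∈ powersetCard D P,
        (((powersetCard s (M T)).filter (fun R => T ⊆ R)).card : ℝ) := by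
      exact_mod_cast h1
    refine h2.trans ?_
    have h3 : ∀ T ∈ powersetCard D P, (((powersetCard s (M T)).filter (fun R => T ⊆ R)).card : ℝ)
        ≤ (1 - δ) ^ (s - D) * ((n - D).choose (s - D) : ℕ) := by
      intro T hT
      obtain ⟨hTP, hTc⟩ := mem_powersetCard.1 hT
      by_cases hTM : T ⊆ M T
      · have h4 := card_superset (M T) T hTM s
        rw [hTc] at h4
        have h5 : D ≤ (M T).card := by rw [← hTc]; exact card_le_card hTM
        have h6 : (M T).card ≤ n := card_le_card (hMP T)
        have h7 := choose_ratio ((M T).card - D) (n - D) (s - D) (by omega)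
        have h8 : (0:ℝ) < ((n - D : ℕ) : ℝ) := by
          have : 0 < n - D := by omega
          exact_mod_cast this
        have h9 : (((M T).card - D : ℕ) : ℝ) ≤ (1 - δ) * ((n - D : ℕ) : ℝ) := by
          rw [Nat.cast_sub h5, Nat.cast_sub (by omega)]
          have h10 := hMc T
          have h11 : (0:ℝ) ≤ D := by positivity
          nlinarith
        have h7' : ((((M T).card - D).choose (s - D) : ℕ) : ℝ) * ((n - D : ℕ) : ℝ) ^ (s - D)
            ≤ (((M T).card - D : ℕ) : ℝ) ^ (s - D) * ((n - D).choose (s - D) : ℕ) := by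
          exact_mod_cast h7
        have h12 : (((M T).card - D : ℕ) : ℝ) ^ (s - D)
            ≤ (1 - δ) ^ (s - D) * ((n - D : ℕ) : ℝ) ^ (s - D) := by
          rw [← mul_pow]
          exact pow_le_pow_left₀ (by positivity) h9 _
        have h13 : ((((M T).card - D).choose (s - D) : ℕ) : ℝ)
            ≤ (1 - δ) ^ (s - D) * ((n - D).choose (s - D) : ℕ) := by
          have h14 : (0:ℝ) < ((n - D : ℕ) : ℝ) ^ (s - D) := by positivity
          apply le_of_mul_le_mul_right _ h14
          calc _ ≤ (((M T).card - D : ℕ) : ℝ) ^ (s - D) * ((n - D).choose (s - D) : ℕ) := h7'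
            _ ≤ ((1 - δ) ^ (s - D) * ((n - D : ℕ) : ℝ) ^ (s - D)) * ((n - D).choose (s - D) : ℕ) := by
                apply mul_le_mul_of_nonneg_right h12 (by positivity)
            _ = _ := by ring
        refine le_trans ?_ h13
        exact_mod_cast h4
      · have : (powersetCard s (M T)).filter (fun R => T ⊆ R) = ∅ := by
          apply filter_eq_empty_iff.2
          intro R hR hTR
          exact hTM (hTR.trans (mem_powersetCard.1 hR).1)
        rw [this]
        simp only [card_empty, Nat.cast_zero]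
        have : 0 ≤ 1 - δ := by linarith
        positivity
    calc _ ≤ ∑ T ∈ powersetCard D P, ((1 - δ) ^ (s - D) * ((n - D).choose (s - D) : ℕ)) :=
          sum_le_sum h3
      _ = _ := by rw [sum_const, card_powersetCard, nsmul_eq_mul]
  have htot : ((n.choose s : ℕ) : ℝ) ≤ G1.card + G2.card := by
    have h1 : (powersetCard s P).card ≤ (G1 ∪ G2).card := card_le_card hcover
    have h2 : (G1 ∪ G2).card ≤ G1.card + G2.card := card_union_le _ _
    rw [card_powersetCard] at h1
    exact_mod_cast h1.trans h2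
  have hpos : (0:ℝ) < (n.choose s : ℕ) := by
    have := Nat.choose_pos hn
    exact_mod_cast this
  have e1 : ((n.choose s : ℕ) : ℝ) * (s.choose (D+1) : ℕ) =
      (n.choose (D+1) : ℕ) * ((n - (D+1)).choose (s - (D+1)) : ℕ) := by
    have := Nat.choose_mul (n := n) hsD
    exact_mod_cast this
  have e2 : ((n.choose s : ℕ) : ℝ) * (s.choose D : ℕ) =
      (n.choose D : ℕ) * ((n - D).choose (s - D) : ℕ) := by
    have := Nat.choose_mul (n := n) (show D ≤ s by omega)
    exact_mod_cast this
  have f1 : (G1.card : ℝ) ≤ 1 / 2 * (n.choose s : ℕ) := by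
    calc (G1.card : ℝ) ≤ bad.card * ((n - (D+1)).choose (s - (D+1)) : ℕ) := hc1
      _ ≤ (1 / (2 * s.choose (D+1)) * (n.choose (D+1))) * ((n - (D+1)).choose (s - (D+1)) : ℕ) := by
          apply mul_le_mul_of_nonneg_right hcard (by positivity)
      _ = 1 / (2 * s.choose (D+1)) * ((n.choose (D+1) : ℕ) * ((n - (D+1)).choose (s - (D+1)) : ℕ)) := by
          ring
      _ = 1 / (2 * s.choose (D+1)) * (((n.choose s : ℕ) : ℝ) * (s.choose (D+1) : ℕ)) := by rw [e1]
      _ = _ := by field_simp
  have f2 : (G2.card : ℝ) < 1 / 2 * (n.choose s : ℕ) := by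
    calc (G2.card : ℝ) ≤ (n.choose D : ℕ) * ((1 - δ) ^ (s - D) * ((n - D).choose (s - D) : ℕ)) := hc2
      _ = (1 - δ) ^ (s - D) * ((n.choose D : ℕ) * ((n - D).choose (s - D) : ℕ)) := by ring
      _ = ((s.choose D : ℕ) * (1 - δ) ^ (s - D)) * (n.choose s : ℕ) := by rw [← e2]; ring
      _ < 1 / 2 * (n.choose s : ℕ) := mul_lt_mul_of_pos_right hs hpos
  linarith

end Q136.FH
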