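import Mathlib

/-!
# The fractional transversal game on a finite hypergraph

General definitions (moves with finitely or infinitely many submoves, legality, guarantees of the
two players, value) and general lemmas.
-/

namespace Pool.Agent.Q136.FracTrans

/-- A finite hypergraph with nonempty edges. -/
structure FinHypergraph (V : Type) where
  edges : Finset (Finset V)
  nonempty : ∀ E ∈ edges, E.Nonempty

variable {V : Type}

/-- The load of the edge `E` under the cover function `t`. -/
noncomputable def load (t : V → ℝ) (E : Finset V) : ℝ := min 1 (∑ v ∈ E, t v)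

/-- `H` is fully covered by `t`: every edge has load `1`. -/
def FullyCovered (H : FinHypergraph V) (t : V → ℝ) : Prop := ∀ E ∈ H.edges, load t E = 1

/-- A finite (`len < ⊤`) or infinite (`len = ⊤`) sequence of submoves: submove number `k`
(for `k < len`) puts weight `w k` on the vertex `v k`. -/
structure Move (V : Type) where
  len : ℕ∞
  v : ℕ → V
  w : ℕ → ℝ

/-- The weight of submove `k`, and `0` if there is no such submove. -/
noncomputable def Move.wt (m : Move V) (k : ℕ) : ℝ := by
  classical exact if (k : ℕ∞) < m.len then m.w k else 0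

/-- The weight placed on vertices of `E` before submove `k`. -/
noncomputable def Move.before (m : Move V) (k : ℕ) (E : Finset V) : ℝ := by
  classical exact ∑ s ∈ Finset.range k, if m.v s ∈ E then m.wt s else 0

/-- The total weight of the move. -/
noncomputable def Move.total (m : Move V) : ℝ := ∑' k, m.wt k

/-- The weight that the move places on the vertex `u`. -/
noncomputable def Move.on (m : Move V) (u : V) : ℝ := by
  classical exact ∑' k, if m.v k = u then m.wt k else 0

/-- The cover function after the move. -/
noncomputable def Move.apply (m : Move V) (t : V → ℝ) : V → ℝ := fun u => t u + m.on u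

/-- Putting weight `x` on the vertex `m.v k` is a legal submove number `k` (after the submoves
`0, …, k - 1` of `m`, in the position with cover function `t`). -/
def LegalWeight (H : FinHypergraph V) (t : V → ℝ) (m : Move V) (k : ℕ) (x : ℝ) : Prop :=
  0 ≤ x ∧ x ≤ 1 ∧ ∃ E ∈ H.edges, m.v k ∈ E ∧ load t E + m.before k E + x ≤ 1

/-- The move `m` is legal in the position with cover function `t`: every submove is legal and the
weights sum to exactly `1`, or the move ends the game and the weights sum to at most `1`. -/
def Legal (H : FinHypergraph V) (t : V → ℝ) (m : Move V) : Prop :=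
  (∀ k : ℕ, (k : ℕ∞) < m.len → LegalWeight H t m k (m.w k)) ∧ Summable m.wt ∧
    (m.total = 1 ∨ (m.total ≤ 1 ∧ FullyCovered H (m.apply t)))

/-- The two players. -/
inductive Player
  | hitter
  | staller

/-- `StallerCan H p t x`: in the position with cover function `t` and player `p` to move, Staller
can guarantee that the total weight added from now on is at least `x`. -/
inductive StallerCan (H : FinHypergraph V) : Player → (V → ℝ) → ℝ → Prop
  | zero (p : Player) (t : V → ℝ) (x : ℝ) : x ≤ 0 → StallerCan H p t x
  | staller (t : V → ℝ) (x : ℝ) (m : Move V) : ¬ FullyCovered H t → Legal H t m →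
      StallerCan H Player.hitter (m.apply t) (x - m.total) → StallerCan H Player.staller t x
  | hitter (t : V → ℝ) (x : ℝ) : ¬ FullyCovered H t →
      (∀ m : Move V, Legal H t m →
        StallerCan H Player.staller (m.apply t) (x - m.total)) → StallerCan H Player.hitter t x

/-- `HitterCan H p t y`: in the position with cover function `t` and player `p` to move,
Edge-hitter can guarantee that the total weight added from now on (until `H` is fully covered) is
at most `y`. -/
inductive HitterCan (H : FinHypergraph V) : Player → (V → ℝ) → ℝ → Prop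
  | done (p : Player) (t : V → ℝ) (y : ℝ) : FullyCovered H t → 0 ≤ y → HitterCan H p t y
  | hitter (t : V → ℝ) (y : ℝ) (m : Move V) : ¬ FullyCovered H t → Legal H t m →
      HitterCan H Player.staller (m.apply t) (y - m.total) → HitterCan H Player.hitter t y
  | staller (t : V → ℝ) (y : ℝ) : ¬ FullyCovered H t → 0 ≤ y →
      (∀ m : Move V, Legal H t m →
        HitterCan H Player.hitter (m.apply t) (y - m.total)) → HitterCan H Player.staller t y

/-- The value: the supremum of the total weights that Staller can guarantee from the position with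
cover function `t` and player `p` to move. -/
noncomputable def value (H : FinHypergraph V) (p : Player) (t : V → ℝ) : ℝ :=
  sSup {x : ℝ | StallerCan H p t x}

/-! ## General lemmas -/

lemma wt_of_lt (m : Move V) {k : ℕ} (h : (k : ℕ∞) < m.len) : m.wt k = m.w k := by
  unfold Move.wt; rw [if_pos h]

lemma wt_of_not_lt (m : Move V) {k : ℕ} (h : ¬ (k : ℕ∞) < m.len) : m.wt k = 0 := by
  unfold Move.wt; rw [if_neg h]

lemma Legal.wt_nonneg {H : FinHypergraph V} {t : V → ℝ} {m : Move V} (h : Legal H t m) (k : ℕ) :
    0 ≤ m.wt k := by
  by_cases hk : (k : ℕ∞) < m.len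
  · rw [wt_of_lt m hk]; exact (h.1 k hk).1
  · rw [wt_of_not_lt m hk]

lemma Legal.summable {H : FinHypergraph V} {t : V → ℝ} {m : Move V} (h : Legal H t m) :
    Summable m.wt := h.2.1

lemma Legal.total_nonneg {H : FinHypergraph V} {t : V → ℝ} {m : Move V} (h : Legal H t m) :
    0 ≤ m.total := tsum_nonneg h.wt_nonneg

lemma Legal.total_le {H : FinHypergraph V} {t : V → ℝ} {m : Move V} (h : Legal H t m) :
    m.total ≤ 1 := by
  rcases h.2.2 with h | h
  · exact h.le
  · exact h.1

lemma Legal.summable_on {H : FinHypergraph V} {t : V → ℝ} {m : Move V} (h : Legal H t m) (u : V) :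
    Summable (fun k => by classical exact if m.v k = u then m.wt k else 0) := by
  classical
  refine Summable.of_nonneg_of_le (fun k => ?_) (fun k => ?_) h.summable
  · split_ifs
    · exact h.wt_nonneg k
    · exact le_refl _
  · split_ifs
    · exact le_refl _
    · exact h.wt_nonneg k

lemma Legal.on_nonneg {H : FinHypergraph V} {t : V → ℝ} {m : Move V} (h : Legal H t m) (u : V) :
    0 ≤ m.on u := by
  classical
  unfold Move.on
  refine tsum_nonneg fun k => ?_
  split_ifs
  · exact h.wt_nonneg k
  · exact le_refl _

lemma Legal.total_eq [Fintype V] {H : FinHypergraph V} {t : V → ℝ} {m : Move V} (h : Legal H t m) :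
    m.total = ∑ u, m.on u := by
  classical
  unfold Move.total Move.on
  rw [← Summable.tsum_finsetSum (fun u _ => h.summable_on u)]
  refine tsum_congr fun k => ?_
  rw [Finset.sum_ite_eq Finset.univ (m.v k) (fun _ => m.wt k)]
  simp

/-- No weight can be put on a vertex all of whose edges have load `1`. -/
lemma Legal.on_dead {H : FinHypergraph V} {t : V → ℝ} {m : Move V} (h : Legal H t m) {u : V}
    (hu : ∀ E ∈ H.edges, u ∈ E → load t E = 1) : m.on u = 0 := by
  classical
  unfold Move.on
  have : ∀ k, (if m.v k = u then m.wt k else 0) = 0 := by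
    intro k
    split_ifs with hk
    · by_cases hl : (k : ℕ∞) < m.len
      · obtain ⟨h0, _, E, hE, hm, hle⟩ := h.1 k hl
        rw [hk] at hm
        rw [hu E hE hm] at hle
        have hb : 0 ≤ m.before k E := by
          unfold Move.before
          refine Finset.sum_nonneg fun s _ => ?_
          split_ifs
          · exact h.wt_nonneg s
          · exact le_refl _
        rw [wt_of_lt m hl]
        linarith
      · rw [wt_of_not_lt m hl]
    · rfl
  simp only [this, tsum_zero]

lemma load_le_one (t : V → ℝ) (E : Finset V) : load t E ≤ 1 := min_le_left _ _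

lemma fullyCovered_iff {H : FinHypergraph V} {t : V → ℝ} :
    FullyCovered H t ↔ ∀ E ∈ H.edges, 1 ≤ ∑ v ∈ E, t v := by
  unfold FullyCovered load
  refine forall_congr' fun E => forall_congr' fun _ => ?_
  exact min_eq_left_iff

/-- What Staller can guarantee is at most what Edge-hitter can guarantee. -/
theorem stallerCan_le {H : FinHypergraph V} {p : Player} {t : V → ℝ} {x y : ℝ}
    (h : StallerCan H p t x) (h' : HitterCan H p t y) : x ≤ y := by
  induction h' generalizing x with
  | done p t y hc hy =>
    cases h with
    | zero _ _ _ hx => linarith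
    | staller _ _ m hn => exact absurd hc hn
    | hitter _ _ hn => exact absurd hc hn
  | hitter t y m hn hm hr ih =>
    cases h with
    | zero _ _ _ hx =>
      have := ih (StallerCan.zero _ _ (0 : ℝ) (le_refl _))
      have := hm.total_nonneg
      linarith
    | hitter _ _ _ hall =>
      have := ih (hall m hm)
      linarith
  | staller t y hn hy hr ih =>
    cases h with
    | zero _ _ _ hx => linarith
    | staller _ _ m _ hm hs =>
      have := ih m hm hs
      linarith

lemma HitterCan.mono {H : FinHypergraph V} {p : Player} {t : V → ℝ} {y : ℝ}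
    (h : HitterCan H p t y) : ∀ {y' : ℝ}, y ≤ y' → HitterCan H p t y' := by
  induction h with
  | done p t y hc hy => intro y' h; exact HitterCan.done _ _ _ hc (hy.trans h)
  | hitter t y m hn hm _ ih => intro y' h; exact HitterCan.hitter _ _ m hn hm (ih (by linarith))
  | staller t y hn hy _ ih =>
    intro y' h
    exact HitterCan.staller _ _ hn (by linarith) fun m hm => ih m hm (by linarith)

lemma StallerCan.mono {H : FinHypergraph V} {p : Player} {t : V → ℝ} {x : ℝ}
    (h : StallerCan H p t x) : ∀ {x' : ℝ}, x' ≤ x → StallerCan H p t x' := by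
  induction h with
  | zero p t x hx => intro x' h; exact StallerCan.zero _ _ _ (h.trans hx)
  | staller t x m hn hm _ ih => intro x' h; exact StallerCan.staller _ _ m hn hm (ih (by linarith))
  | hitter t x hn _ ih =>
    intro x' h
    exact StallerCan.hitter _ _ hn fun m hm => ih m hm (by linarith)

/-! ## Finite moves -/

/-- The finite move with the `n` submoves `(v k, w k)`, `k < n`. -/
def Move.fin (n : ℕ) (v : ℕ → V) (w : ℕ → ℝ) : Move V := ⟨(n : ℕ∞), v, w⟩

/-- The integer move `(v, 1)`. -/
def intMove (v : V) : Move V := ⟨1, fun _ => v, fun _ => 1⟩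

lemma fin_wt (n : ℕ) (v : ℕ → V) (w : ℕ → ℝ) (k : ℕ) :
    (Move.fin n v w).wt k = if k < n then w k else 0 := by
  unfold Move.wt Move.fin
  simp

lemma fin_wt_eq_zero {n : ℕ} {v : ℕ → V} {w : ℕ → ℝ} {k : ℕ} (h : k ∉ Finset.range n) :
    (Move.fin n v w).wt k = 0 := by
  rw [fin_wt, if_neg (by simpa using h)]

lemma fin_total (n : ℕ) (v : ℕ → V) (w : ℕ → ℝ) :
    (Move.fin n v w).total = ∑ k ∈ Finset.range n, w k := by
  unfold Move.total
  rw [tsum_eq_sum (s := Finset.range n) (fun k hk => fin_wt_eq_zero hk)]
  refine Finset.sum_congr rfl fun k hk => ?_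
  rw [fin_wt, if_pos (Finset.mem_range.mp hk)]

lemma fin_summable (n : ℕ) (v : ℕ → V) (w : ℕ → ℝ) : Summable (Move.fin n v w).wt :=
  summable_of_ne_finset_zero (s := Finset.range n) (fun _ hk => fin_wt_eq_zero hk)

lemma fin_on [DecidableEq V] (n : ℕ) (v : ℕ → V) (w : ℕ → ℝ) (u : V) :
    (Move.fin n v w).on u = ∑ k ∈ Finset.range n, if v k = u then w k else 0 := by
  unfold Move.on
  rw [tsum_eq_sum (s := Finset.range n)]
  · refine Finset.sum_congr rfl fun k hk => ?_
    rw [fin_wt, if_pos (Finset.mem_range.mp hk)]
    by_cases h : v k = u <;> simp [Move.fin, h]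
  · intro k hk
    rw [fin_wt_eq_zero hk]
    simp

lemma fin_before [DecidableEq V] (n : ℕ) (v : ℕ → V) (w : ℕ → ℝ) {k : ℕ} (hk : k ≤ n)
    (E : Finset V) :
    (Move.fin n v w).before k E = ∑ s ∈ Finset.range k, if v s ∈ E then w s else 0 := by
  unfold Move.before
  refine Finset.sum_congr rfl fun s hs => ?_
  have hs' : s < n := lt_of_lt_of_le (Finset.mem_range.mp hs) hk
  rw [fin_wt, if_pos hs']
  by_cases h : v s ∈ E <;> simp [Move.fin, h]

lemma fin_legal [DecidableEq V] {H : FinHypergraph V} {t : V → ℝ} {n : ℕ} {v : ℕ → V} {w : ℕ → ℝ}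
    (h : ∀ k < n, 0 ≤ w k ∧ w k ≤ 1 ∧ ∃ E ∈ H.edges, v k ∈ E ∧
      load t E + (∑ s ∈ Finset.range k, if v s ∈ E then w s else 0) + w k ≤ 1)
    (h' : ∑ k ∈ Finset.range n, w k = 1 ∨
      (∑ k ∈ Finset.range n, w k ≤ 1 ∧ FullyCovered H ((Move.fin n v w).apply t))) :
    Legal H t (Move.fin n v w) := by
  refine ⟨fun k hk => ?_, fin_summable n v w, ?_⟩
  · have hk' : k < n := by
      have : (k : ℕ∞) < (n : ℕ∞) := hk
      exact_mod_cast this
    obtain ⟨h0, h1, E, hE, hv, hle⟩ := h k hk'
    refine ⟨h0, h1, E, hE, hv, ?_⟩
    rw [fin_before n v w hk'.le]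
    exact hle
  · rw [fin_total]
    exact h'

lemma intMove_eq (v : V) : intMove v = Move.fin 1 (fun _ => v) (fun _ => 1) := by
  unfold intMove Move.fin
  simp

lemma intMove_total (v : V) : (intMove v).total = 1 := by
  rw [intMove_eq, fin_total]
  simp

lemma intMove_apply [DecidableEq V] (v : V) (t : V → ℝ) :
    (intMove v).apply t = fun u => t u + if v = u then 1 else 0 := by
  funext u
  unfold Move.apply
  rw [intMove_eq, fin_on]
  simp

lemma intMove_legal {H : FinHypergraph V} {t : V → ℝ} {v : V} {E : Finset V} (hE : E ∈ H.edges)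
    (hv : v ∈ E) (hl : load t E ≤ 0) : Legal H t (intMove v) := by
  classical
  rw [intMove_eq]
  refine fin_legal (fun k hk => ?_) (Or.inl (by simp))
  have : k = 0 := by omega
  subst this
  refine ⟨by norm_num, le_refl _, E, hE, hv, ?_⟩
  simp
  linarith

/-- An integer move at `v` is legal only if some edge containing `v` has load `0`
(or less). -/
lemma intMove_legal_imp {H : FinHypergraph V} {t : V → ℝ} {v : V} (h : Legal H t (intMove v)) :
    ∃ E ∈ H.edges, v ∈ E ∧ load t E ≤ 0 := by
  obtain ⟨_, _, E, hE, hv, hle⟩ := h.1 0 (by simp [intMove])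
  refine ⟨E, hE, hv, ?_⟩
  have : (intMove v).before 0 E = 0 := by simp [Move.before]
  rw [this] at hle
  simp only [intMove] at hle
  linarith

end Pool.Agent.Q136.FracTrans
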