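import Pool.Agent.Q136.FracTrans

/-!
# The example: a path `1 - 2 - 3 - 4` with loops at `1` and `4`, a loop `0`, and a loop `5` with a
pendant edge `5 - 6`.
-/

set_option linter.unusedSimpArgs false

namespace Pool.Agent.Q136.FracTrans.Ex

open Finset

/-- Vertices `0, …, 6`; edges `0`, `1`, `12`, `23`, `34`, `4`, `5`, `56`. -/
def H : FinHypergraph (Fin 7) where
  edges := {{0}, {1}, {1, 2}, {2, 3}, {3, 4}, {4}, {5}, {5, 6}}
  nonempty := by
    intro E hE
    simp only [mem_insert, mem_singleton] at hE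
    rcases hE with rfl | rfl | rfl | rfl | rfl | rfl | rfl | rfl <;> simp

lemma covered_iff (t : Fin 7 → ℝ) : FullyCovered H t ↔
    1 ≤ t 0 ∧ 1 ≤ t 1 ∧ 1 ≤ t 1 + t 2 ∧ 1 ≤ t 2 + t 3 ∧ 1 ≤ t 3 + t 4 ∧ 1 ≤ t 4 ∧ 1 ≤ t 5 ∧
      1 ≤ t 5 + t 6 := by
  rw [fullyCovered_iff]
  simp only [H, mem_insert, mem_singleton, forall_eq_or_imp, forall_eq]
  simp only [sum_singleton]
  rw [sum_pair (by decide), sum_pair (by decide), sum_pair (by decide), sum_pair (by decide)]

lemma load0 (t : Fin 7 → ℝ) : load t {0} = min 1 (t 0) := by simp [load]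
lemma load1 (t : Fin 7 → ℝ) : load t {1} = min 1 (t 1) := by simp [load]
lemma load4 (t : Fin 7 → ℝ) : load t {4} = min 1 (t 4) := by simp [load]
lemma load5 (t : Fin 7 → ℝ) : load t {5} = min 1 (t 5) := by simp [load]
lemma load12 (t : Fin 7 → ℝ) : load t {1, 2} = min 1 (t 1 + t 2) := by
  rw [load, sum_pair (by decide)]
lemma load23 (t : Fin 7 → ℝ) : load t {2, 3} = min 1 (t 2 + t 3) := by
  rw [load, sum_pair (by decide)]
lemma load34 (t : Fin 7 → ℝ) : load t {3, 4} = min 1 (t 3 + t 4) := by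
  rw [load, sum_pair (by decide)]
lemma load56 (t : Fin 7 → ℝ) : load t {5, 6} = min 1 (t 5 + t 6) := by
  rw [load, sum_pair (by decide)]

lemma e0 : ({0} : Finset (Fin 7)) ∈ H.edges := by simp [H]
lemma e1 : ({1} : Finset (Fin 7)) ∈ H.edges := by simp [H]
lemma e4 : ({4} : Finset (Fin 7)) ∈ H.edges := by simp [H]
lemma e5 : ({5} : Finset (Fin 7)) ∈ H.edges := by simp [H]
lemma e12 : ({1, 2} : Finset (Fin 7)) ∈ H.edges := by simp [H]
lemma e23 : ({2, 3} : Finset (Fin 7)) ∈ H.edges := by simp [H]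
lemma e34 : ({3, 4} : Finset (Fin 7)) ∈ H.edges := by simp [H]
lemma e56 : ({5, 6} : Finset (Fin 7)) ∈ H.edges := by simp [H]

/-- The weight still needed on the five disjoint edges `0`, `1`, `23`, `4`, `5`. -/
noncomputable def Φ (t : Fin 7 → ℝ) : ℝ :=
  (1 - min 1 (t 0)) + (1 - min 1 (t 1)) + (1 - min 1 (t 2 + t 3)) + (1 - min 1 (t 4)) +
    (1 - min 1 (t 5))

lemma Φ_nonneg (t : Fin 7 → ℝ) : 0 ≤ Φ t := by
  unfold Φ
  have h0 := min_le_left 1 (t 0)
  have h1 := min_le_left 1 (t 1)
  have h2 := min_le_left 1 (t 2 + t 3)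
  have h3 := min_le_left 1 (t 4)
  have h4 := min_le_left 1 (t 5)
  linarith

lemma def_add (a y : ℝ) (hy : 0 ≤ y) : 1 - min 1 a - y ≤ 1 - min 1 (a + y) := by
  rcases le_total 1 a with h | h
  · rw [min_eq_left h, min_eq_left (by linarith)]; linarith
  · rw [min_eq_right h]
    have := min_le_right 1 (a + y)
    linarith

lemma def_mono (a y : ℝ) (hy : 0 ≤ y) : 1 - min 1 (a + y) ≤ 1 - min 1 a := by
  have : min 1 a ≤ min 1 (a + y) := min_le_min_left 1 (by linarith)
  linarith

lemma def_fill (a y : ℝ) (hy : 0 ≤ y) (h : y ≤ 1 - min 1 a) :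
    1 - min 1 (a + y) = 1 - min 1 a - y := by
  rcases le_total 1 a with h1 | h1
  · rw [min_eq_left h1] at h ⊢
    have : y = 0 := by linarith
    subst this
    rw [min_eq_left (by linarith)]; linarith
  · rw [min_eq_right h1] at h ⊢
    rw [min_eq_right (by linarith)]; ring

lemma covered_of_Φ {t : Fin 7 → ℝ} (ht : ∀ u, 0 ≤ t u) (h : Φ t ≤ 0) : FullyCovered H t := by
  rw [covered_iff]
  unfold Φ at h
  have h0 := min_le_left 1 (t 0)
  have h1 := min_le_left 1 (t 1)
  have h2 := min_le_left 1 (t 2 + t 3)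
  have h3 := min_le_left 1 (t 4)
  have h4 := min_le_left 1 (t 5)
  have k0 : 1 ≤ t 0 := by have := min_le_right 1 (t 0); linarith
  have k1 : 1 ≤ t 1 := by have := min_le_right 1 (t 1); linarith
  have k2 : 1 ≤ t 2 + t 3 := by have := min_le_right 1 (t 2 + t 3); linarith
  have k3 : 1 ≤ t 4 := by have := min_le_right 1 (t 4); linarith
  have k4 : 1 ≤ t 5 := by have := min_le_right 1 (t 5); linarith
  have := ht 2
  have := ht 3
  have := ht 6
  refine ⟨k0, k1, ?_, k2, ?_, k3, k4, ?_⟩ <;> linarith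

lemma Φ_of_covered {t : Fin 7 → ℝ} (h : FullyCovered H t) : Φ t = 0 := by
  rw [covered_iff] at h
  obtain ⟨h0, h1, _, h2, _, h3, h4, _⟩ := h
  unfold Φ
  rw [min_eq_left h0, min_eq_left h1, min_eq_left h2, min_eq_left h3, min_eq_left h4]
  ring

lemma apply_nonneg {t : Fin 7 → ℝ} (ht : ∀ u, 0 ≤ t u) {m : Move (Fin 7)} (hm : Legal H t m) :
    ∀ u, 0 ≤ m.apply t u := fun u => add_nonneg (ht u) (hm.on_nonneg u)

lemma total_eq' {t : Fin 7 → ℝ} {m : Move (Fin 7)} (hm : Legal H t m) :
    m.total = m.on 0 + m.on 1 + m.on 2 + m.on 3 + m.on 4 + m.on 5 + m.on 6 := by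
  rw [hm.total_eq, Fin.sum_univ_seven]

/-- A legal move decreases `Φ` by at most its total weight minus the weight on `6`. -/
lemma Φ_apply {t : Fin 7 → ℝ} {m : Move (Fin 7)} (hm : Legal H t m) :
    Φ t - m.total + m.on 6 ≤ Φ (m.apply t) := by
  rw [total_eq' hm]
  unfold Φ Move.apply
  have h0 := def_add (t 0) (m.on 0) (hm.on_nonneg 0)
  have h1 := def_add (t 1) (m.on 1) (hm.on_nonneg 1)
  have h2 := def_add (t 2 + t 3) (m.on 2 + m.on 3) (add_nonneg (hm.on_nonneg 2) (hm.on_nonneg 3))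
  have h4 := def_add (t 4) (m.on 4) (hm.on_nonneg 4)
  have h5 := def_add (t 5) (m.on 5) (hm.on_nonneg 5)
  have e : t 2 + m.on 2 + (t 3 + m.on 3) = t 2 + t 3 + (m.on 2 + m.on 3) := by ring
  rw [e]
  linarith

lemma Φ_apply' {t : Fin 7 → ℝ} {m : Move (Fin 7)} (hm : Legal H t m) :
    Φ t - m.total ≤ Φ (m.apply t) := by
  have := Φ_apply hm
  have := hm.on_nonneg 6
  linarith

lemma Φ_apply_le {t : Fin 7 → ℝ} {m : Move (Fin 7)} (hm : Legal H t m) :
    Φ (m.apply t) ≤ Φ t := by
  unfold Φ Move.apply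
  have h0 := def_mono (t 0) (m.on 0) (hm.on_nonneg 0)
  have h1 := def_mono (t 1) (m.on 1) (hm.on_nonneg 1)
  have h2 := def_mono (t 2 + t 3) (m.on 2 + m.on 3) (add_nonneg (hm.on_nonneg 2) (hm.on_nonneg 3))
  have h4 := def_mono (t 4) (m.on 4) (hm.on_nonneg 4)
  have h5 := def_mono (t 5) (m.on 5) (hm.on_nonneg 5)
  have e : t 2 + m.on 2 + (t 3 + m.on 3) = t 2 + t 3 + (m.on 2 + m.on 3) := by ring
  rw [e]
  linarith

/-- If more than `1` is still needed, a legal move has total weight exactly `1`. -/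
lemma total_eq_one {t : Fin 7 → ℝ} {m : Move (Fin 7)} (hm : Legal H t m) (h : 1 < Φ t) :
    m.total = 1 := by
  rcases hm.2.2 with h1 | ⟨h1, h2⟩
  · exact h1
  · have := Φ_apply' hm
    rw [Φ_of_covered h2] at this
    linarith

lemma exists_fill5 (c0 c1 c2 c3 c4 r : ℝ) (h0 : 0 ≤ c0) (h1 : 0 ≤ c1) (h2 : 0 ≤ c2) (h3 : 0 ≤ c3)
    (h4 : 0 ≤ c4) (hr : 0 ≤ r) (h : r ≤ c0 + c1 + c2 + c3 + c4) :
    ∃ f0 f1 f2 f3 f4 : ℝ, 0 ≤ f0 ∧ f0 ≤ c0 ∧ 0 ≤ f1 ∧ f1 ≤ c1 ∧ 0 ≤ f2 ∧ f2 ≤ c2 ∧ 0 ≤ f3 ∧
      f3 ≤ c3 ∧ 0 ≤ f4 ∧ f4 ≤ c4 ∧ f0 + f1 + f2 + f3 + f4 = r := by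
  rcases le_total r c0 with k0 | k0
  · exact ⟨r, 0, 0, 0, 0, hr, k0, le_refl _, h1, le_refl _, h2, le_refl _, h3, le_refl _, h4,
      by ring⟩
  rcases le_total r (c0 + c1) with k1 | k1
  · exact ⟨c0, r - c0, 0, 0, 0, h0, le_refl _, by linarith, by linarith, le_refl _, h2, le_refl _,
      h3, le_refl _, h4, by ring⟩
  rcases le_total r (c0 + c1 + c2) with k2 | k2
  · exact ⟨c0, c1, r - c0 - c1, 0, 0, h0, le_refl _, h1, le_refl _, by linarith, by linarith,
      le_refl _, h3, le_refl _, h4, by ring⟩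
  rcases le_total r (c0 + c1 + c2 + c3) with k3 | k3
  · exact ⟨c0, c1, c2, r - c0 - c1 - c2, 0, h0, le_refl _, h1, le_refl _, h2, le_refl _,
      by linarith, by linarith, le_refl _, h4, by ring⟩
  · exact ⟨c0, c1, c2, c3, r - c0 - c1 - c2 - c3, h0, le_refl _, h1, le_refl _, h2, le_refl _,
      h3, le_refl _, by linarith, by linarith, by ring⟩

/-! ## Filling moves -/

/-- vertices of the filling move -/
def fv : ℕ → Fin 7
  | 0 => 0
  | 1 => 1
  | 2 => 4
  | 3 => 5
  | _ => 2

def fw (f0 f1 f2 f3 f4 : ℝ) : ℕ → ℝ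
  | 0 => f0
  | 1 => f1
  | 2 => f2
  | 3 => f3
  | _ => f4

/-- There is a legal move of total weight `min 1 (Φ t)` without any waste. -/
lemma exists_fill {t : Fin 7 → ℝ} (ht : ∀ u, 0 ≤ t u) (_hc : ¬ FullyCovered H t) :
    ∃ m : Move (Fin 7), Legal H t m ∧ m.total = min 1 (Φ t) ∧ Φ (m.apply t) = Φ t - m.total := by
  have c0 : 0 ≤ 1 - min 1 (t 0) := by have := min_le_left 1 (t 0); linarith
  have c1 : 0 ≤ 1 - min 1 (t 1) := by have := min_le_left 1 (t 1); linarith
  have c2 : 0 ≤ 1 - min 1 (t 4) := by have := min_le_left 1 (t 4); linarith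
  have c3 : 0 ≤ 1 - min 1 (t 5) := by have := min_le_left 1 (t 5); linarith
  have c4 : 0 ≤ 1 - min 1 (t 2 + t 3) := by have := min_le_left 1 (t 2 + t 3); linarith
  have m0 : 0 ≤ min 1 (t 0) := le_min zero_le_one (ht 0)
  have m1 : 0 ≤ min 1 (t 1) := le_min zero_le_one (ht 1)
  have m2 : 0 ≤ min 1 (t 4) := le_min zero_le_one (ht 4)
  have m3 : 0 ≤ min 1 (t 5) := le_min zero_le_one (ht 5)
  have m4 : 0 ≤ min 1 (t 2 + t 3) := le_min zero_le_one (add_nonneg (ht 2) (ht 3))
  obtain ⟨f0, f1, f2, f3, f4, a0, b0, a1, b1, a2, b2, a3, b3, a4, b4, hs⟩ :=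
    exists_fill5 _ _ _ _ _ (min 1 (Φ t)) c0 c1 c2 c3 c4 (le_min zero_le_one (Φ_nonneg t))
      (by have := min_le_right 1 (Φ t); unfold Φ at this ⊢; linarith)
  have hsum : ∑ k ∈ range 5, fw f0 f1 f2 f3 f4 k = min 1 (Φ t) := by
    simp [sum_range_succ, fw]; linarith
  have hon : ∀ u, (Move.fin 5 fv (fw f0 f1 f2 f3 f4)).on u =
      if u = 0 then f0 else if u = 1 then f1 else if u = 4 then f2 else if u = 5 then f3 else
        if u = 2 then f4 else 0 := by
    intro u
    rw [fin_on]
    fin_cases u <;> simp [sum_range_succ, fv, fw]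
  have hΦ : Φ ((Move.fin 5 fv (fw f0 f1 f2 f3 f4)).apply t) = Φ t - min 1 (Φ t) := by
    rw [← hs]
    unfold Move.apply
    simp only [Φ, hon]
    simp
    have e0 := def_fill (t 0) f0 a0 b0
    have e1 := def_fill (t 1) f1 a1 b1
    have e2 := def_fill (t 4) f2 a2 b2
    have e3 := def_fill (t 5) f3 a3 b3
    have e4 := def_fill (t 2 + t 3) f4 a4 b4
    have e5 : t 2 + f4 + t 3 = t 2 + t 3 + f4 := by ring
    rw [e5]
    linarith
  have hL : Legal H t (Move.fin 5 fv (fw f0 f1 f2 f3 f4)) := by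
    refine fin_legal (fun k hk => ?_) ?_
    · interval_cases k
      · refine ⟨a0, by simp only [fw]; linarith, {0}, e0, by simp [fv], ?_⟩
        simp [sum_range_succ, fv, fw, load0]; linarith
      · refine ⟨a1, by simp only [fw]; linarith, {1}, e1, by simp [fv], ?_⟩
        simp [sum_range_succ, fv, fw, load1]; linarith
      · refine ⟨a2, by simp only [fw]; linarith, {4}, e4, by simp [fv], ?_⟩
        simp [sum_range_succ, fv, fw, load4]; linarith
      · refine ⟨a3, by simp only [fw]; linarith, {5}, e5, by simp [fv], ?_⟩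
        simp [sum_range_succ, fv, fw, load5]; linarith
      · refine ⟨a4, by simp only [fw]; linarith, {2, 3}, e23, by simp [fv], ?_⟩
        simp [sum_range_succ, fv, fw, load23]; linarith
    · rw [hsum]
      rcases le_total 1 (Φ t) with h | h
      · left; exact min_eq_left h
      · right
        refine ⟨min_le_left _ _, covered_of_Φ ?_ ?_⟩
        · intro u
          unfold Move.apply
          rw [hon]
          have := ht u
          split_ifs <;> linarith
        · rw [hΦ, min_eq_right h]; linarith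
  exact ⟨_, hL, by rw [fin_total, hsum], by rw [hΦ, fin_total, hsum]⟩

/-- Staller can guarantee `Φ`. -/
theorem can_Φ (n : ℕ) : ∀ (p : Player) (t : Fin 7 → ℝ) (x : ℝ), (∀ u, 0 ≤ t u) → x ≤ Φ t →
    x ≤ n → StallerCan H p t x := by
  induction n with
  | zero =>
    intro p t x _ _ h
    exact StallerCan.zero _ _ _ (by simpa using h)
  | succ n ih =>
    intro p t x ht hx hn
    push_cast at hn
    rcases le_or_gt x 0 with h0 | h0
    · exact StallerCan.zero _ _ _ h0
    have hc : ¬ FullyCovered H t := fun h => by rw [Φ_of_covered h] at hx; linarith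
    cases p with
    | staller =>
      obtain ⟨m, hm, htot, hΦ⟩ := exists_fill ht hc
      refine StallerCan.staller _ _ m hc hm ?_
      rcases le_total 1 (Φ t) with h | h
      · rw [min_eq_left h] at htot
        exact ih _ _ _ (apply_nonneg ht hm) (by rw [hΦ]; linarith) (by linarith)
      · rw [min_eq_right h] at htot
        exact StallerCan.zero _ _ _ (by linarith)
    | hitter =>
      refine StallerCan.hitter _ _ hc fun m hm => ?_
      have h1 := Φ_apply' hm
      rcases hm.2.2 with h2 | ⟨h2, h3⟩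
      · exact ih _ _ _ (apply_nonneg ht hm) (by linarith) (by linarith)
      · rw [Φ_of_covered h3] at h1
        exact StallerCan.zero _ _ _ (by linarith)

theorem can_of_le_Φ {p : Player} {t : Fin 7 → ℝ} {x : ℝ} (ht : ∀ u, 0 ≤ t u) (hx : x ≤ Φ t) :
    StallerCan H p t x := by
  obtain ⟨n, hn⟩ := exists_nat_ge x
  exact can_Φ n p t x ht hx hn

/-- Edge-hitter can end the game in bounded time. -/
theorem hitter_bound (n : ℕ) : ∀ (t : Fin 7 → ℝ), (∀ u, 0 ≤ t u) → Φ t ≤ n →
    HitterCan H Player.hitter t (2 * n) ∧ HitterCan H Player.staller t (2 * n + 1) := by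
  induction n with
  | zero =>
    intro t ht h
    have hc := covered_of_Φ ht (by simpa using h)
    exact ⟨HitterCan.done _ _ _ hc (by norm_num), HitterCan.done _ _ _ hc (by norm_num)⟩
  | succ n ih =>
    have key : ∀ t : Fin 7 → ℝ, (∀ u, 0 ≤ t u) → Φ t ≤ ((n + 1 : ℕ) : ℝ) →
        HitterCan H Player.hitter t (2 * ((n + 1 : ℕ) : ℝ)) := by
      intro t ht h
      push_cast at h ⊢
      by_cases hc : FullyCovered H t
      · exact HitterCan.done _ _ _ hc (by positivity)
      obtain ⟨m, hm, htot, hΦ⟩ := exists_fill ht hc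
      refine HitterCan.hitter _ _ m hc hm ?_
      rcases le_total 1 (Φ t) with h1 | h1
      · rw [min_eq_left h1] at htot
        refine (ih (m.apply t) (apply_nonneg ht hm) (by rw [hΦ]; linarith)).2.mono ?_
        rw [htot]; linarith
      · rw [min_eq_right h1] at htot
        refine HitterCan.done _ _ _ (covered_of_Φ (apply_nonneg ht hm) (by rw [hΦ]; linarith)) ?_
        have : (0 : ℝ) ≤ n := Nat.cast_nonneg n
        linarith
    intro t ht h
    refine ⟨key t ht h, ?_⟩
    by_cases hc : FullyCovered H t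
    · exact HitterCan.done _ _ _ hc (by positivity)
    · refine HitterCan.staller _ _ hc (by positivity) fun m hm => ?_
      refine (key (m.apply t) (apply_nonneg ht hm) ((Φ_apply_le hm).trans h)).mono ?_
      have := hm.total_le
      linarith

lemma bddAbove_can (p : Player) {t : Fin 7 → ℝ} (ht : ∀ u, 0 ≤ t u) :
    BddAbove {x : ℝ | StallerCan H p t x} := by
  obtain ⟨n, hn⟩ := exists_nat_ge (Φ t)
  have := hitter_bound n t ht hn
  cases p with
  | hitter => exact ⟨2 * n, fun x hx => stallerCan_le hx this.1⟩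
  | staller => exact ⟨2 * n + 1, fun x hx => stallerCan_le hx this.2⟩

lemma le_value {p : Player} {t : Fin 7 → ℝ} {x : ℝ} (ht : ∀ u, 0 ≤ t u) (h : StallerCan H p t x) :
    x ≤ value H p t := le_csSup (bddAbove_can p ht) h

lemma value_le {p : Player} {t : Fin 7 → ℝ} {y : ℝ} (h : HitterCan H p t y) :
    value H p t ≤ y :=
  csSup_le ⟨0, StallerCan.zero _ _ _ (le_refl _)⟩ fun _ hx => stallerCan_le hx h

/-! ## Wasting moves of Staller -/

def wv (a b : Fin 7) : ℕ → Fin 7
  | 0 => a
  | 1 => b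
  | 2 => 0
  | 3 => 1
  | 4 => 4
  | _ => 5

def ww (p ω f0 f1 f2 f3 : ℝ) : ℕ → ℝ
  | 0 => p
  | 1 => ω
  | 2 => f0
  | 3 => f1
  | 4 => f2
  | _ => f3

lemma exists_waste_b {t : Fin 7 → ℝ} {ω : ℝ} (hω : 0 ≤ ω) (hω' : ω ≤ 1 / 2) (hΦ : 2 ≤ Φ t)
    (hp : 1 / 2 ≤ t 2 + t 3) (hu : ω ≤ 1 - (t 1 + t 2)) :
    ∃ m : Move (Fin 7), Legal H t m ∧ m.total = 1 ∧ Φ t - 1 + ω ≤ Φ (m.apply t) := by
  have c0 : 0 ≤ 1 - min 1 (t 0) := by have := min_le_left 1 (t 0); linarith
  have c1 : 0 ≤ 1 - min 1 (t 1) := by have := min_le_left 1 (t 1); linarith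
  have c2 : 0 ≤ 1 - min 1 (t 4) := by have := min_le_left 1 (t 4); linarith
  have c3 : 0 ≤ 1 - min 1 (t 5) := by have := min_le_left 1 (t 5); linarith
  have c4 : 0 ≤ 1 - min 1 (t 2 + t 3) := by have := min_le_left 1 (t 2 + t 3); linarith
  obtain ⟨p, hpdef⟩ : ∃ p, p = 1 - min 1 (t 2 + t 3) := ⟨_, rfl⟩
  have hp1 : p ≤ 1 / 2 := by
    have : 1 / 2 ≤ min 1 (t 2 + t 3) := le_min (by norm_num) hp
    linarith
  have hp0 : 0 ≤ p := by rw [hpdef]; exact c4
  obtain ⟨f0, f1, f2, f3, f4, a0, b0, a1, b1, a2, b2, a3, b3, a4, b4, hs⟩ :=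
    exists_fill5 (1 - min 1 (t 0)) (1 - min 1 (t 1)) (1 - min 1 (t 4)) (1 - min 1 (t 5)) 0
      (1 - p - ω) c0 c1 c2 c3 (le_refl _) (by linarith) (by unfold Φ at hΦ; linarith)
  have hf4 : f4 = 0 := le_antisymm b4 a4
  subst hf4
  have m0 : f0 ≤ 1 := by linarith
  have m1 : f1 ≤ 1 := by linarith
  have m2 : f2 ≤ 1 := by linarith
  have m3 : f3 ≤ 1 := by linarith
  have hsum : ∑ k ∈ range 6, ww p ω f0 f1 f2 f3 k = 1 := by
    simp [sum_range_succ, ww]; linarith
  have hon : ∀ u, (Move.fin 6 (wv 3 2) (ww p ω f0 f1 f2 f3)).on u =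
      if u = 3 then p else if u = 2 then ω else if u = 0 then f0 else if u = 1 then f1 else
        if u = 4 then f2 else if u = 5 then f3 else 0 := by
    intro u
    rw [fin_on]
    fin_cases u <;> simp [sum_range_succ, wv, ww]
  refine ⟨Move.fin 6 (wv 3 2) (ww p ω f0 f1 f2 f3), fin_legal (fun k hk => ?_) (Or.inl hsum),
    by rw [fin_total, hsum], ?_⟩
  · interval_cases k
    · refine ⟨hp0, by simp only [ww]; linarith, {2, 3}, e23, by simp [wv], ?_⟩
      simp [ww, load23]; linarith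
    · refine ⟨hω, by simp only [ww]; linarith, {1, 2}, e12, by simp [wv], ?_⟩
      have := min_le_right 1 (t 1 + t 2)
      simp [sum_range_succ, wv, ww, load12]; linarith
    · refine ⟨a0, by simpa [ww] using m0, {0}, e0, by simp [wv], ?_⟩
      simp [sum_range_succ, wv, ww, load0]; linarith
    · refine ⟨a1, by simpa [ww] using m1, {1}, e1, by simp [wv], ?_⟩
      simp [sum_range_succ, wv, ww, load1]; linarith
    · refine ⟨a2, by simpa [ww] using m2, {4}, e4, by simp [wv], ?_⟩
      simp [sum_range_succ, wv, ww, load4]; linarith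
    · refine ⟨a3, by simpa [ww] using m3, {5}, e5, by simp [wv], ?_⟩
      simp [sum_range_succ, wv, ww, load5]; linarith
  · unfold Move.apply
    simp only [Φ, hon]
    simp
    have e0 := def_fill (t 0) f0 a0 b0
    have e1 := def_fill (t 1) f1 a1 b1
    have e2 := def_fill (t 4) f2 a2 b2
    have e3 := def_fill (t 5) f3 a3 b3
    have e4 := min_le_left 1 (t 2 + ω + (t 3 + p))
    linarith

lemma exists_waste_c {t : Fin 7 → ℝ} {ω : ℝ} (hω : 0 ≤ ω) (hω' : ω ≤ 1 / 2) (hΦ : 2 ≤ Φ t)
    (hp : 1 / 2 ≤ t 2 + t 3) (hu : ω ≤ 1 - (t 3 + t 4)) :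
    ∃ m : Move (Fin 7), Legal H t m ∧ m.total = 1 ∧ Φ t - 1 + ω ≤ Φ (m.apply t) := by
  have c0 : 0 ≤ 1 - min 1 (t 0) := by have := min_le_left 1 (t 0); linarith
  have c1 : 0 ≤ 1 - min 1 (t 1) := by have := min_le_left 1 (t 1); linarith
  have c2 : 0 ≤ 1 - min 1 (t 4) := by have := min_le_left 1 (t 4); linarith
  have c3 : 0 ≤ 1 - min 1 (t 5) := by have := min_le_left 1 (t 5); linarith
  have c4 : 0 ≤ 1 - min 1 (t 2 + t 3) := by have := min_le_left 1 (t 2 + t 3); linarith
  obtain ⟨p, hpdef⟩ : ∃ p, p = 1 - min 1 (t 2 + t 3) := ⟨_, rfl⟩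
  have hp1 : p ≤ 1 / 2 := by
    have : 1 / 2 ≤ min 1 (t 2 + t 3) := le_min (by norm_num) hp
    linarith
  have hp0 : 0 ≤ p := by rw [hpdef]; exact c4
  obtain ⟨f0, f1, f2, f3, f4, a0, b0, a1, b1, a2, b2, a3, b3, a4, b4, hs⟩ :=
    exists_fill5 (1 - min 1 (t 0)) (1 - min 1 (t 1)) (1 - min 1 (t 4)) (1 - min 1 (t 5)) 0
      (1 - p - ω) c0 c1 c2 c3 (le_refl _) (by linarith) (by unfold Φ at hΦ; linarith)
  have hf4 : f4 = 0 := le_antisymm b4 a4
  subst hf4
  have m0 : f0 ≤ 1 := by linarith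
  have m1 : f1 ≤ 1 := by linarith
  have m2 : f2 ≤ 1 := by linarith
  have m3 : f3 ≤ 1 := by linarith
  have hsum : ∑ k ∈ range 6, ww p ω f0 f1 f2 f3 k = 1 := by
    simp [sum_range_succ, ww]; linarith
  have hon : ∀ u, (Move.fin 6 (wv 2 3) (ww p ω f0 f1 f2 f3)).on u =
      if u = 2 then p else if u = 3 then ω else if u = 0 then f0 else if u = 1 then f1 else
        if u = 4 then f2 else if u = 5 then f3 else 0 := by
    intro u
    rw [fin_on]
    fin_cases u <;> simp [sum_range_succ, wv, ww]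
  refine ⟨Move.fin 6 (wv 2 3) (ww p ω f0 f1 f2 f3), fin_legal (fun k hk => ?_) (Or.inl hsum),
    by rw [fin_total, hsum], ?_⟩
  · interval_cases k
    · refine ⟨hp0, by simp only [ww]; linarith, {2, 3}, e23, by simp [wv], ?_⟩
      simp [ww, load23]; linarith
    · refine ⟨hω, by simp only [ww]; linarith, {3, 4}, e34, by simp [wv], ?_⟩
      have := min_le_right 1 (t 3 + t 4)
      simp [sum_range_succ, wv, ww, load34]; linarith
    · refine ⟨a0, by simpa [ww] using m0, {0}, e0, by simp [wv], ?_⟩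
      simp [sum_range_succ, wv, ww, load0]; linarith
    · refine ⟨a1, by simpa [ww] using m1, {1}, e1, by simp [wv], ?_⟩
      simp [sum_range_succ, wv, ww, load1]; linarith
    · refine ⟨a2, by simpa [ww] using m2, {4}, e4, by simp [wv], ?_⟩
      simp [sum_range_succ, wv, ww, load4]; linarith
    · refine ⟨a3, by simpa [ww] using m3, {5}, e5, by simp [wv], ?_⟩
      simp [sum_range_succ, wv, ww, load5]; linarith
  · unfold Move.apply
    simp only [Φ, hon]
    simp
    have e0 := def_fill (t 0) f0 a0 b0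
    have e1 := def_fill (t 1) f1 a1 b1
    have e2 := def_fill (t 4) f2 a2 b2
    have e3 := def_fill (t 5) f3 a3 b3
    have e4 := min_le_left 1 (t 2 + p + (t 3 + ω))
    linarith

def hv : ℕ → Fin 7
  | 0 => 2
  | _ => 0

/-- The opening of Staller: `1/2` on the vertex `2` and `1/2` on the vertex `0`. -/
noncomputable def half : Move (Fin 7) := Move.fin 2 hv (fun _ => 1 / 2)

lemma half_total : half.total = 1 := by
  unfold half
  rw [fin_total]
  norm_num [sum_range_succ]

lemma half_on (u : Fin 7) : half.on u = if u = 2 then 1 / 2 else if u = 0 then 1 / 2 else 0 := by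
  unfold half
  rw [fin_on]
  fin_cases u <;> simp [sum_range_succ, hv]

/-- The main strategy of Staller. -/
theorem staller_main {t : Fin 7 → ℝ} {ω : ℝ} (ht : ∀ u, 0 ≤ t u) (hω : 0 ≤ ω)
    (hσ : t 1 + t 2 + t 3 + t 4 ≤ 1 / 2 - 2 * ω) (h0 : t 0 ≤ 1 / 2) (hΦ : 4 ≤ Φ t) :
    StallerCan H Player.staller t (4 + ω) := by
  have t1 := ht 1
  have t2 := ht 2
  have t3 := ht 3
  have t4 := ht 4
  have hL : Legal H t half := by
    unfold half
    refine fin_legal (fun k hk => ?_) (Or.inl (by norm_num [sum_range_succ]))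
    interval_cases k
    · refine ⟨by norm_num, by norm_num, {2, 3}, e23, by simp [hv], ?_⟩
      have := min_le_right 1 (t 2 + t 3)
      simp [load23]; norm_num; linarith
    · refine ⟨by norm_num, by norm_num, {0}, e0, by simp [hv], ?_⟩
      have := min_le_right 1 (t 0)
      simp [sum_range_succ, hv, load0]; norm_num; linarith
  have hc : ¬ FullyCovered H t := fun h => by rw [Φ_of_covered h] at hΦ; linarith
  refine StallerCan.staller _ _ half hc hL ?_
  rw [half_total]
  have hΦ1 := Φ_apply' hL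
  rw [half_total] at hΦ1
  have ht1 := apply_nonneg ht hL
  have hc1 : ¬ FullyCovered H (half.apply t) := fun h => by rw [Φ_of_covered h] at hΦ1; linarith
  refine StallerCan.hitter _ _ hc1 fun m hm => ?_
  have htot := total_eq_one hm (by linarith)
  have hΦ2 := Φ_apply' hm
  rw [htot] at hΦ2 ⊢
  have ht2 := apply_nonneg ht1 hm
  have hc2 : ¬ FullyCovered H (m.apply (half.apply t)) :=
    fun h => by rw [Φ_of_covered h] at hΦ2; linarith
  have hon := total_eq' hm
  rw [htot] at hon
  have y0 := hm.on_nonneg 0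
  have y1 := hm.on_nonneg 1
  have y2 := hm.on_nonneg 2
  have y3 := hm.on_nonneg 3
  have y4 := hm.on_nonneg 4
  have y5 := hm.on_nonneg 5
  have y6 := hm.on_nonneg 6
  have v1 : m.apply (half.apply t) 1 = t 1 + m.on 1 := by
    unfold Move.apply; rw [half_on]; simp
  have v2 : m.apply (half.apply t) 2 = t 2 + 1 / 2 + m.on 2 := by
    unfold Move.apply; rw [half_on]; simp
  have v3 : m.apply (half.apply t) 3 = t 3 + m.on 3 := by
    unfold Move.apply; rw [half_on]; simp
  have v4 : m.apply (half.apply t) 4 = t 4 + m.on 4 := by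
    unfold Move.apply; rw [half_on]; simp
  have hp : 1 / 2 ≤ m.apply (half.apply t) 2 + m.apply (half.apply t) 3 := by
    rw [v2, v3]; linarith
  have hex : ∃ m' : Move (Fin 7), Legal H (m.apply (half.apply t)) m' ∧ m'.total = 1 ∧
      Φ (m.apply (half.apply t)) - 1 + ω ≤ Φ (m'.apply (m.apply (half.apply t))) := by
    rcases le_total ω (1 - (m.apply (half.apply t) 1 + m.apply (half.apply t) 2)) with h | h
    · exact exists_waste_b hω (by linarith) (by linarith) hp h
    · refine exists_waste_c hω (by linarith) (by linarith) hp ?_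
      rw [v1, v2] at h
      rw [v3, v4]
      linarith
  obtain ⟨m', hm', htot', hΦ3⟩ := hex
  refine StallerCan.staller _ _ m' hc2 hm' ?_
  rw [htot']
  exact can_of_le_Φ (apply_nonneg ht2 hm') (by linarith)

/-- The position after the integer move at `5`. -/
def tq : Fin 7 → ℝ := fun u => if u = 5 then 1 else 0

lemma tq_nonneg : ∀ u, 0 ≤ tq u := by
  intro u; unfold tq; split_ifs <;> norm_num

theorem staller_tq : StallerCan H Player.staller tq (17 / 4) := by
  have := staller_main (t := tq) (ω := 1 / 4) tq_nonneg (by norm_num) (by simp [tq]; norm_num)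
    (by simp [tq]) (by simp [tq, Φ]; norm_num)
  norm_num at this
  exact this

def qv : ℕ → Fin 7
  | 0 => 6
  | 1 => 0
  | 2 => 1
  | 3 => 4
  | 4 => 5
  | _ => 2

/-- Staller guarantees `31/6` from the zero cover function when Edge-hitter starts. -/
theorem staller_zero : StallerCan H Player.hitter (fun _ => 0) (31 / 6) := by
  have hΦ0 : Φ (fun _ => 0) = 5 := by simp [Φ]; norm_num
  have hc : ¬ FullyCovered H (fun _ => 0) := fun h => by rw [Φ_of_covered h] at hΦ0; linarith
  refine StallerCan.hitter _ _ hc fun m hm => ?_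
  have htot := total_eq_one hm (by linarith)
  have hΦ1 := Φ_apply hm
  have hon := total_eq' hm
  rw [htot] at hon hΦ1 ⊢
  have ht1 : ∀ u, 0 ≤ m.apply (fun _ => (0 : ℝ)) u := apply_nonneg (fun _ => le_refl _) hm
  have hv : ∀ u, m.apply (fun _ => (0 : ℝ)) u = m.on u := fun u => by unfold Move.apply; ring
  have y0 := hm.on_nonneg 0
  have y1 := hm.on_nonneg 1
  have y2 := hm.on_nonneg 2
  have y3 := hm.on_nonneg 3
  have y4 := hm.on_nonneg 4
  have y5 := hm.on_nonneg 5
  have y6 := hm.on_nonneg 6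
  generalize hT : m.apply (fun _ => (0 : ℝ)) = t at *
  have hc1 : ¬ FullyCovered H t := fun h => by rw [Φ_of_covered h] at hΦ1; linarith
  rcases le_or_gt (m.on 5) (5 / 6) with h5 | h5
  · -- Staller wastes `1 - t 5 - t 6` on the vertex `6`
    have c0 : 0 ≤ 1 - min 1 (t 0) := by have := min_le_left 1 (t 0); linarith
    have c1 : 0 ≤ 1 - min 1 (t 1) := by have := min_le_left 1 (t 1); linarith
    have c2 : 0 ≤ 1 - min 1 (t 4) := by have := min_le_left 1 (t 4); linarith
    have c3 : 0 ≤ 1 - min 1 (t 5) := by have := min_le_left 1 (t 5); linarith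
    have c4 : 0 ≤ 1 - min 1 (t 2 + t 3) := by have := min_le_left 1 (t 2 + t 3); linarith
    have m0 : 0 ≤ min 1 (t 0) := le_min zero_le_one (ht1 0)
    have m1 : 0 ≤ min 1 (t 1) := le_min zero_le_one (ht1 1)
    have m2 : 0 ≤ min 1 (t 4) := le_min zero_le_one (ht1 4)
    have m3 : 0 ≤ min 1 (t 5) := le_min zero_le_one (ht1 5)
    have m4 : 0 ≤ min 1 (t 2 + t 3) := le_min zero_le_one (add_nonneg (ht1 2) (ht1 3))
    obtain ⟨s, hs0⟩ : ∃ s, s = 1 - m.on 5 - m.on 6 := ⟨_, rfl⟩
    obtain ⟨f0, f1, f2, f3, f4, a0, b0, a1, b1, a2, b2, a3, b3, a4, b4, hs⟩ :=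
      exists_fill5 _ _ _ _ _ (1 - s) c0 c1 c2 c3 c4 (by linarith)
        (by unfold Φ at hΦ1 hΦ0; linarith)
    have hsum : ∑ k ∈ range 6, ww s f0 f1 f2 f3 f4 k = 1 := by
      simp [sum_range_succ, ww]; linarith
    have hon' : ∀ u, (Move.fin 6 qv (ww s f0 f1 f2 f3 f4)).on u =
        if u = 6 then s else if u = 0 then f0 else if u = 1 then f1 else if u = 4 then f2 else
          if u = 5 then f3 else if u = 2 then f4 else 0 := by
      intro u
      rw [fin_on]
      fin_cases u <;> simp [sum_range_succ, qv, ww]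
    have hL : Legal H t (Move.fin 6 qv (ww s f0 f1 f2 f3 f4)) := by
      refine fin_legal (fun k hk => ?_) (Or.inl hsum)
      interval_cases k
      · refine ⟨by simp only [ww]; linarith, by simp only [ww]; linarith, {5, 6}, e56,
          by simp [qv], ?_⟩
        have := min_le_right 1 (t 5 + t 6)
        rw [hv 5, hv 6] at this
        simp [ww, load56, hv]; linarith
      · refine ⟨a0, by simp only [ww]; linarith, {0}, e0, by simp [qv], ?_⟩
        simp [sum_range_succ, qv, ww, load0]; linarith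
      · refine ⟨a1, by simp only [ww]; linarith, {1}, e1, by simp [qv], ?_⟩
        simp [sum_range_succ, qv, ww, load1]; linarith
      · refine ⟨a2, by simp only [ww]; linarith, {4}, e4, by simp [qv], ?_⟩
        simp [sum_range_succ, qv, ww, load4]; linarith
      · refine ⟨a3, by simp only [ww]; linarith, {5}, e5, by simp [qv], ?_⟩
        simp [sum_range_succ, qv, ww, load5]; linarith
      · refine ⟨a4, by simp only [ww]; linarith, {2, 3}, e23, by simp [qv], ?_⟩
        simp [sum_range_succ, qv, ww, load23]; linarith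
    refine StallerCan.staller _ _ _ hc1 hL ?_
    rw [fin_total, hsum]
    refine can_of_le_Φ (apply_nonneg ht1 hL) ?_
    have hΦ2 : Φ ((Move.fin 6 qv (ww s f0 f1 f2 f3 f4)).apply t) = Φ t - (1 - s) := by
      rw [← hs]
      unfold Move.apply
      simp only [Φ, hon']
      simp
      have e0 := def_fill (t 0) f0 a0 b0
      have e1 := def_fill (t 1) f1 a1 b1
      have e2 := def_fill (t 4) f2 a2 b2
      have e3 := def_fill (t 5) f3 a3 b3
      have e4 := def_fill (t 2 + t 3) f4 a4 b4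
      have e5 : t 2 + f4 + t 3 = t 2 + t 3 + f4 := by ring
      rw [e5]
      linarith
    rw [hΦ2]
    linarith
  · have := staller_main (t := t) (ω := 1 / 6) ht1 (by norm_num)
      (by rw [hv, hv, hv, hv]; linarith) (by rw [hv]; linarith) (by linarith)
    exact this.mono (by norm_num)

/-! ## Edge-hitter's strategy against integer moves -/

lemma finish2 {t : Fin 7 → ℝ} (u1 u2 : Fin 7) (E1 E2 : Finset (Fin 7)) (g1 g2 : ℝ)
    (hE1 : E1 ∈ H.edges) (hE2 : E2 ∈ H.edges) (h1 : u1 ∈ E1) (h2 : u2 ∈ E2) (h12 : u1 ∉ E2)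
    (h1' : 0 ≤ g1) (h2' : 0 ≤ g2) (l1 : min 1 (∑ v ∈ E1, t v) + g1 ≤ 1)
    (l2 : min 1 (∑ v ∈ E2, t v) + g2 ≤ 1) (hle : g1 + g2 ≤ 1)
    (hcov : FullyCovered H (fun u => t u + ((if u1 = u then g1 else 0) + if u2 = u then g2 else 0))) :
    HitterCan H Player.hitter t (g1 + g2) := by
  by_cases hc : FullyCovered H t
  · exact HitterCan.done _ _ _ hc (by linarith)
  have hsum : ∑ k ∈ range 2, (fun k : ℕ => if k = 0 then g1 else g2) k = g1 + g2 := by
    simp [sum_range_succ]
  have happ : (Move.fin 2 (fun k => if k = 0 then u1 else u2)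
      (fun k => if k = 0 then g1 else g2)).apply t =
      fun u => t u + ((if u1 = u then g1 else 0) + if u2 = u then g2 else 0) := by
    funext u
    unfold Move.apply
    rw [fin_on]
    simp [sum_range_succ]
  have hL : Legal H t (Move.fin 2 (fun k => if k = 0 then u1 else u2)
      (fun k => if k = 0 then g1 else g2)) := by
    refine fin_legal (fun k hk => ?_) (Or.inr ⟨by rw [hsum]; exact hle, by rw [happ]; exact hcov⟩)
    interval_cases k
    · refine ⟨by simpa using h1', by simp; linarith, E1, hE1, by simpa using h1, ?_⟩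
      simpa [load] using l1
    · refine ⟨by simpa using h2', by simp; linarith, E2, hE2, by simpa using h2, ?_⟩
      simpa [load, sum_range_succ, h12] using l2
  refine HitterCan.hitter _ _ _ hc hL (HitterCan.done _ _ _ (by rw [happ]; exact hcov) ?_)
  rw [fin_total, hsum]
  linarith

/-- the cover function with weight `1` on `5`, `a`, `b` -/
def t3 (a b : Fin 7) : Fin 7 → ℝ := fun u => (tq u + if a = u then 1 else 0) + if b = u then 1 else 0

lemma t3_nonneg (a b : Fin 7) : ∀ u, 0 ≤ t3 a b u := by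
  intro u; unfold t3
  have := tq_nonneg u
  split_ifs <;> linarith

lemma type1 : HitterCan H Player.staller (t3 0 1) 2 := by
  have hc : ¬ FullyCovered H (t3 0 1) := by rw [covered_iff]; simp [t3, tq]
  refine HitterCan.staller _ _ hc (by norm_num) fun m hm => ?_
  by_cases hc' : FullyCovered H (m.apply (t3 0 1))
  · exact HitterCan.done _ _ _ hc' (by have := hm.total_le; linarith)
  have htot : m.total = 1 := by
    rcases hm.2.2 with h | h
    · exact h
    · exact absurd h.2 hc'
  have hon := total_eq' hm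
  have d0 : m.on 0 = 0 := hm.on_dead (by simp [H, t3, tq, load0])
  have d1 : m.on 1 = 0 := hm.on_dead (by simp [H, t3, tq, load1, load12])
  have d5 : m.on 5 = 0 := hm.on_dead (by simp [H, t3, tq, load5, load56])
  have d6 : m.on 6 = 0 := hm.on_dead (by simp [H, t3, tq, load56])
  have y2 := hm.on_nonneg 2
  have y3 := hm.on_nonneg 3
  have y4 := hm.on_nonneg 4
  have v0 : m.apply (t3 0 1) 0 = 1 := by simp [Move.apply, t3, tq, d0]
  have v1 : m.apply (t3 0 1) 1 = 1 := by simp [Move.apply, t3, tq, d1]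
  have v2 : m.apply (t3 0 1) 2 = m.on 2 := by simp [Move.apply, t3, tq]
  have v3 : m.apply (t3 0 1) 3 = m.on 3 := by simp [Move.apply, t3, tq]
  have v4 : m.apply (t3 0 1) 4 = m.on 4 := by simp [Move.apply, t3, tq]
  have v5 : m.apply (t3 0 1) 5 = 1 := by simp [Move.apply, t3, tq, d5]
  have v6 : m.apply (t3 0 1) 6 = 0 := by simp [Move.apply, t3, tq, d6]
  have hm4 := min_le_right 1 (m.on 4)
  have hm23 := min_le_right 1 (m.on 2 + m.on 3)
  refine (finish2 4 2 {4} {2, 3} (1 - m.on 4) (1 - m.on 2 - m.on 3) e4 e23 (by simp) (by simp)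
    (by decide) (by linarith) (by linarith) (by rw [sum_singleton, v4]; linarith)
    (by rw [sum_pair (by decide), v2, v3]; linarith) (by linarith) ?_).mono (by linarith)
  rw [covered_iff]
  simp [v0, v1, v2, v3, v4, v5, v6]
  refine ⟨?_, ?_, ?_⟩ <;> linarith

lemma type2 : HitterCan H Player.staller (t3 1 4) 2 := by
  have hc : ¬ FullyCovered H (t3 1 4) := by rw [covered_iff]; simp [t3, tq]
  refine HitterCan.staller _ _ hc (by norm_num) fun m hm => ?_
  by_cases hc' : FullyCovered H (m.apply (t3 1 4))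
  · exact HitterCan.done _ _ _ hc' (by have := hm.total_le; linarith)
  have htot : m.total = 1 := by
    rcases hm.2.2 with h | h
    · exact h
    · exact absurd h.2 hc'
  have hon := total_eq' hm
  have d1 : m.on 1 = 0 := hm.on_dead (by simp [H, t3, tq, load1, load12])
  have d4 : m.on 4 = 0 := hm.on_dead (by simp [H, t3, tq, load4, load34])
  have d5 : m.on 5 = 0 := hm.on_dead (by simp [H, t3, tq, load5, load56])
  have d6 : m.on 6 = 0 := hm.on_dead (by simp [H, t3, tq, load56])
  have y0 := hm.on_nonneg 0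
  have y2 := hm.on_nonneg 2
  have y3 := hm.on_nonneg 3
  have v0 : m.apply (t3 1 4) 0 = m.on 0 := by simp [Move.apply, t3, tq]
  have v1 : m.apply (t3 1 4) 1 = 1 := by simp [Move.apply, t3, tq, d1]
  have v2 : m.apply (t3 1 4) 2 = m.on 2 := by simp [Move.apply, t3, tq]
  have v3 : m.apply (t3 1 4) 3 = m.on 3 := by simp [Move.apply, t3, tq]
  have v4 : m.apply (t3 1 4) 4 = 1 := by simp [Move.apply, t3, tq, d4]
  have v5 : m.apply (t3 1 4) 5 = 1 := by simp [Move.apply, t3, tq, d5]
  have v6 : m.apply (t3 1 4) 6 = 0 := by simp [Move.apply, t3, tq, d6]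
  have hm0 := min_le_right 1 (m.on 0)
  have hm23 := min_le_right 1 (m.on 2 + m.on 3)
  refine (finish2 0 2 {0} {2, 3} (1 - m.on 0) (1 - m.on 2 - m.on 3) e0 e23 (by simp) (by simp)
    (by decide) (by linarith) (by linarith) (by rw [sum_singleton, v0]; linarith)
    (by rw [sum_pair (by decide), v2, v3]; linarith) (by linarith) ?_).mono (by linarith)
  rw [covered_iff]
  simp [v0, v1, v2, v3, v4, v5, v6]
  refine ⟨?_, ?_, ?_⟩ <;> linarith

lemma type3 : HitterCan H Player.staller (t3 2 4) 2 := by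
  have hc : ¬ FullyCovered H (t3 2 4) := by rw [covered_iff]; simp [t3, tq]
  refine HitterCan.staller _ _ hc (by norm_num) fun m hm => ?_
  by_cases hc' : FullyCovered H (m.apply (t3 2 4))
  · exact HitterCan.done _ _ _ hc' (by have := hm.total_le; linarith)
  have htot : m.total = 1 := by
    rcases hm.2.2 with h | h
    · exact h
    · exact absurd h.2 hc'
  have hon := total_eq' hm
  have d2 : m.on 2 = 0 := hm.on_dead (by simp [H, t3, tq, load12, load23])
  have d3 : m.on 3 = 0 := hm.on_dead (by simp [H, t3, tq, load34, load23])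
  have d4 : m.on 4 = 0 := hm.on_dead (by simp [H, t3, tq, load4, load34])
  have d5 : m.on 5 = 0 := hm.on_dead (by simp [H, t3, tq, load5, load56])
  have d6 : m.on 6 = 0 := hm.on_dead (by simp [H, t3, tq, load56])
  have y0 := hm.on_nonneg 0
  have y1 := hm.on_nonneg 1
  have v0 : m.apply (t3 2 4) 0 = m.on 0 := by simp [Move.apply, t3, tq]
  have v1 : m.apply (t3 2 4) 1 = m.on 1 := by simp [Move.apply, t3, tq]
  have v2 : m.apply (t3 2 4) 2 = 1 := by simp [Move.apply, t3, tq, d2]
  have v3 : m.apply (t3 2 4) 3 = 0 := by simp [Move.apply, t3, tq, d3]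
  have v4 : m.apply (t3 2 4) 4 = 1 := by simp [Move.apply, t3, tq, d4]
  have v5 : m.apply (t3 2 4) 5 = 1 := by simp [Move.apply, t3, tq, d5]
  have v6 : m.apply (t3 2 4) 6 = 0 := by simp [Move.apply, t3, tq, d6]
  have hm0 := min_le_right 1 (m.on 0)
  have hm1 := min_le_right 1 (m.on 1)
  refine (finish2 0 1 {0} {1} (1 - m.on 0) (1 - m.on 1) e0 e1 (by simp) (by simp)
    (by decide) (by linarith) (by linarith) (by rw [sum_singleton, v0]; linarith)
    (by rw [sum_singleton, v1]; linarith) (by linarith) ?_).mono (by linarith)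
  rw [covered_iff]
  simp [v0, v1, v2, v3, v4, v5, v6]

lemma type4 : HitterCan H Player.staller (t3 3 1) 2 := by
  have hc : ¬ FullyCovered H (t3 3 1) := by rw [covered_iff]; simp [t3, tq]
  refine HitterCan.staller _ _ hc (by norm_num) fun m hm => ?_
  by_cases hc' : FullyCovered H (m.apply (t3 3 1))
  · exact HitterCan.done _ _ _ hc' (by have := hm.total_le; linarith)
  have htot : m.total = 1 := by
    rcases hm.2.2 with h | h
    · exact h
    · exact absurd h.2 hc'
  have hon := total_eq' hm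
  have d2 : m.on 2 = 0 := hm.on_dead (by simp [H, t3, tq, load12, load23])
  have d3 : m.on 3 = 0 := hm.on_dead (by simp [H, t3, tq, load34, load23])
  have d1 : m.on 1 = 0 := hm.on_dead (by simp [H, t3, tq, load1, load12])
  have d5 : m.on 5 = 0 := hm.on_dead (by simp [H, t3, tq, load5, load56])
  have d6 : m.on 6 = 0 := hm.on_dead (by simp [H, t3, tq, load56])
  have y0 := hm.on_nonneg 0
  have y4 := hm.on_nonneg 4
  have v0 : m.apply (t3 3 1) 0 = m.on 0 := by simp [Move.apply, t3, tq]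
  have v1 : m.apply (t3 3 1) 1 = 1 := by simp [Move.apply, t3, tq, d1]
  have v2 : m.apply (t3 3 1) 2 = 0 := by simp [Move.apply, t3, tq, d2]
  have v3 : m.apply (t3 3 1) 3 = 1 := by simp [Move.apply, t3, tq, d3]
  have v4 : m.apply (t3 3 1) 4 = m.on 4 := by simp [Move.apply, t3, tq]
  have v5 : m.apply (t3 3 1) 5 = 1 := by simp [Move.apply, t3, tq, d5]
  have v6 : m.apply (t3 3 1) 6 = 0 := by simp [Move.apply, t3, tq, d6]
  have hm0 := min_le_right 1 (m.on 0)
  have hm4 := min_le_right 1 (m.on 4)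
  refine (finish2 0 4 {0} {4} (1 - m.on 0) (1 - m.on 4) e0 e4 (by simp) (by simp)
    (by decide) (by linarith) (by linarith) (by rw [sum_singleton, v0]; linarith)
    (by rw [sum_singleton, v4]; linarith) (by linarith) ?_).mono (by linarith)
  rw [covered_iff]
  simp [v0, v1, v2, v3, v4, v5, v6]

/-- the cover function with weight `1` on `5` and `a` -/
def t2 (a : Fin 7) : Fin 7 → ℝ := fun u => tq u + if a = u then 1 else 0

lemma reply {a b : Fin 7} {E : Finset (Fin 7)} (hE : E ∈ H.edges) (hb : b ∈ E)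
    (hl : load (t2 a) E ≤ 0) (h : HitterCan H Player.staller (t3 a b) 2) :
    HitterCan H Player.hitter (t2 a) 3 := by
  have hc : ¬ FullyCovered H (t2 a) := fun h => by
    have := h E hE
    linarith
  refine HitterCan.hitter _ _ (intMove b) hc (intMove_legal hE hb hl) ?_
  rw [intMove_total, intMove_apply]
  norm_num
  exact h

lemma t3_comm (a b : Fin 7) : t3 a b = t3 b a := by
  funext u; unfold t3; ring

/-- After the integer moves at `5` and at `v ∈ {0, 1, 2, 3, 4}` Edge-hitter needs weight at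
most `3`. -/
theorem hitter_t2 (v : Fin 7) (hv : v ≠ 5) (hv' : v ≠ 6) : HitterCan H Player.hitter (t2 v) 3 := by
  fin_cases v
  · exact reply (b := 1) e1 (by simp) (by simp [load1, t2, tq]) type1
  · exact reply (b := 4) e4 (by simp) (by simp [load4, t2, tq]) type2
  · exact reply (b := 4) e4 (by simp) (by simp [load4, t2, tq]) type3
  · exact reply (b := 1) e1 (by simp) (by simp [load1, t2, tq]) type4
  · exact reply (b := 1) e1 (by simp) (by simp [load1, t2, tq]) (by rw [t3_comm]; exact type2)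
  · exact absurd rfl hv
  · exact absurd rfl hv'

lemma tq_not_covered : ¬ FullyCovered H tq := by rw [covered_iff]; simp [tq]

/-- Legal integer moves in the position `tq` are at `0, 1, 2, 3, 4`. -/
lemma int_legal_tq {v : Fin 7} (h : Legal H tq (intMove v)) : v ≠ 5 ∧ v ≠ 6 := by
  obtain ⟨E, hE, hv, hl⟩ := intMove_legal_imp h
  constructor
  · rintro rfl
    simp only [H, mem_insert, mem_singleton] at hE
    rcases hE with rfl | rfl | rfl | rfl | rfl | rfl | rfl | rfl <;>
      first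
        | (exfalso; revert hv; decide)
        | (simp [load5, load56, tq] at hl; linarith)
  · rintro rfl
    simp only [H, mem_insert, mem_singleton] at hE
    rcases hE with rfl | rfl | rfl | rfl | rfl | rfl | rfl | rfl <;>
      first
        | (exfalso; revert hv; decide)
        | (simp [load5, load56, tq] at hl; linarith)

end Pool.Agent.Q136.FracTrans.Ex
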