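import Mathlib

/-!
A verified depth first search over the hitting sets of a family of finite sets of naturals,
given by bit masks.
-/

namespace Q136.HitDFS

/-- `t` is `0` or a power of two (only `2 ^ e ↦ true` is used). -/
def pow2? (t : ℕ) : Bool := Nat.beq (Nat.land t (Nat.pred t)) 0

/-- union of the intersections `f ∩ S` that have at most one element -/
def crit (S : ℕ) : List (ℕ × List ℕ) → ℕ
  | [] => 0
  | f :: L => cond (pow2? (Nat.land f.1 S)) (Nat.lor (Nat.land f.1 S) (crit S L)) (crit S L)

/-- the first unhit set with at most one candidate, or else the first unhit set -/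
def pick (S X : ℕ) : List (ℕ × List ℕ) → Option (List ℕ) → Option (List ℕ)
  | [], b => b
  | f :: L, b =>
    cond (Nat.beq (Nat.land f.1 S) 0)
      (cond (pow2? (Nat.sub f.1 (Nat.land f.1 X))) (some f.2)
        (match b with
          | none => pick S X L (some f.2)
          | some c => pick S X L (some c)))
      (pick S X L b)

/-- branching over the elements of the list that are not excluded by the mask `X` -/
def branch (rec : ℕ → ℕ → Bool) (S : ℕ) : List ℕ → ℕ → Bool
  | [], _ => true
  | i :: l, X =>
    cond (Nat.testBit X i) (branch rec S l X)
      (cond (rec (Nat.lor S (Nat.pow 2 i)) X) (branch rec S l (Nat.lor X (Nat.pow 2 i))) false)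

/-- the search: `good` prunes, `ok` is the test at the leaves -/
def dfs (good ok : ℕ → Bool) (L : List (ℕ × List ℕ)) : ℕ → ℕ → ℕ → Bool
  | 0, _, _ => false
  | n + 1, S, X =>
    cond (good S)
      (match pick S X L none with
        | none => ok S
        | some l => branch (dfs good ok L n) S l X)
      true

theorem pow2?_two_pow (e : ℕ) : pow2? (2 ^ e) = true := by
  unfold pow2?
  have h : Nat.land (2 ^ e) (Nat.pred (2 ^ e)) = (2 ^ e) &&& (2 ^ e - 1) := rfl
  rw [h, Nat.and_two_pow_sub_one_eq_mod, Nat.mod_self]
  rfl

theorem pick_spec (S X : ℕ) (L : List (ℕ × List ℕ)) (b : Option (List ℕ)) :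
    (∀ l, pick S X L b = some l → some l = b ∨ ∃ f ∈ L, l = f.2) ∧
    (pick S X L b = none → b = none ∧ ∀ f ∈ L, f.1 &&& S ≠ 0) := by
  induction L generalizing b with
  | nil =>
    constructor
    · intro l h
      left
      simpa [pick] using h.symm
    · intro h
      simpa [pick] using h
  | cons f L ih =>
    have e1 : Nat.land f.1 S = f.1 &&& S := rfl
    by_cases h0 : f.1 &&& S = 0
    · have hb : Nat.beq (Nat.land f.1 S) 0 = true := by rw [e1, h0]; rfl
      by_cases hp : pow2? (Nat.sub f.1 (Nat.land f.1 X)) = true
      · constructor
        · intro l h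
          right
          refine ⟨f, by simp, ?_⟩
          simp only [pick, hb, hp, cond_true, Option.some.injEq] at h
          exact h.symm
        · intro h
          simp only [pick, hb, hp, cond_true] at h
          exact absurd h (by simp)
      · have hp' : pow2? (Nat.sub f.1 (Nat.land f.1 X)) = false := by simpa using hp
        cases b with
        | none =>
          constructor
          · intro l h
            simp only [pick, hb, hp', cond_true, cond_false] at h
            right
            rcases (ih (some f.2)).1 l h with h2 | ⟨g, hg, h2⟩
            · exact ⟨f, by simp, by simpa using h2⟩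
            · exact ⟨g, by simp [hg], h2⟩
          · intro h
            simp only [pick, hb, hp', cond_true, cond_false] at h
            have := ((ih (some f.2)).2 h).1
            simp at this
        | some c =>
          constructor
          · intro l h
            simp only [pick, hb, hp', cond_true, cond_false] at h
            rcases (ih (some c)).1 l h with h2 | ⟨g, hg, h2⟩
            · exact Or.inl h2
            · exact Or.inr ⟨g, by simp [hg], h2⟩
          · intro h
            simp only [pick, hb, hp', cond_true, cond_false] at h
            have := ((ih (some c)).2 h).1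
            simp at this
    · have hb : Nat.beq (Nat.land f.1 S) 0 = false := by
        rw [e1]
        cases hc : Nat.beq (f.1 &&& S) 0 with
        | false => rfl
        | true => exact absurd (Nat.eq_of_beq_eq_true hc) h0
      constructor
      · intro l h
        simp only [pick, hb, cond_false] at h
        rcases (ih b).1 l h with h2 | ⟨g, hg, h2⟩
        · exact Or.inl h2
        · exact Or.inr ⟨g, by simp [hg], h2⟩
      · intro h
        simp only [pick, hb, cond_false] at h
        obtain ⟨h1, h2⟩ := (ih b).2 h
        refine ⟨h1, ?_⟩
        intro g hg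
        rcases List.mem_cons.1 hg with rfl | hg
        · exact h0
        · exact h2 g hg

/-- adding a bit -/
theorem testBit_insert (S i j : ℕ) :
    (Nat.lor S (Nat.pow 2 i)).testBit j = (S.testBit j || decide (i = j)) := by
  have e : Nat.lor S (Nat.pow 2 i) = S ||| 2 ^ i := rfl
  rw [e, Nat.testBit_or, Nat.testBit_two_pow]

theorem branch_sound (M : ℕ → Prop) (Goal : Prop) (rec : ℕ → ℕ → Bool)
    (hrec : ∀ S X, (∀ i, S.testBit i → M i) → (∀ i, X.testBit i → ¬ M i) →
      rec S X = true → Goal)
    (S : ℕ) (hS : ∀ i, S.testBit i → M i) (l : List ℕ) :
    ∀ X, (∀ i, X.testBit i → ¬ M i) → (∃ i ∈ l, M i) → branch rec S l X = true → Goal := by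
  classical
  induction l with
  | nil => intro X _ h; simp at h
  | cons i l ih =>
    intro X hX hex h
    cases hXi : X.testBit i with
    | true =>
      simp only [branch, hXi, cond_true] at h
      apply ih X hX _ h
      obtain ⟨j, hj, hMj⟩ := hex
      rcases List.mem_cons.1 hj with rfl | hj
      · exact absurd hMj (hX _ hXi)
      · exact ⟨j, hj, hMj⟩
    | false =>
      simp only [branch, hXi, cond_false] at h
      cases hr : rec (Nat.lor S (Nat.pow 2 i)) X with
      | false => rw [hr] at h; simp at h
      | true =>
        rw [hr] at h
        simp only [cond_true] at h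
        by_cases hMi : M i
        · apply hrec _ X _ hX hr
          intro j hj
          rw [testBit_insert] at hj
          simp only [Bool.or_eq_true, decide_eq_true_eq] at hj
          rcases hj with hj | rfl
          · exact hS j hj
          · exact hMi
        · apply ih _ _ _ h
          · intro j hj
            rw [testBit_insert] at hj
            simp only [Bool.or_eq_true, decide_eq_true_eq] at hj
            rcases hj with hj | rfl
            · exact hX j hj
            · exact hMi
          · obtain ⟨j, hj, hMj⟩ := hex
            rcases List.mem_cons.1 hj with rfl | hj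
            · exact absurd hMj hMi
            · exact ⟨j, hj, hMj⟩

/-- **Soundness of the search.** -/
theorem dfs_sound (M : ℕ → Prop) (L : List (ℕ × List ℕ)) (good ok : ℕ → Bool) (Goal : Prop)
    (hhit : ∀ f ∈ L, ∃ i ∈ f.2, M i)
    (hgood : ∀ S : ℕ, (∀ i, S.testBit i → M i) → good S = true)
    (hleaf : ∀ S : ℕ, (∀ i, S.testBit i → M i) → (∀ f ∈ L, f.1 &&& S ≠ 0) →
      ok S = true → Goal) :
    ∀ (n S X : ℕ), (∀ i, S.testBit i → M i) → (∀ i, X.testBit i → ¬ M i) →
      dfs good ok L n S X = true → Goal := by
  intro n
  induction n with
  | zero => intro S X _ _ h; simp [dfs] at h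
  | succ n ih =>
    intro S X hS hX h
    simp only [dfs, hgood S hS, cond_true] at h
    cases hp : pick S X L none with
    | none =>
      rw [hp] at h
      exact hleaf S hS ((pick_spec S X L none).2 hp).2 h
    | some l =>
      rw [hp] at h
      simp only at h
      rcases (pick_spec S X L none).1 l hp with h2 | ⟨f, hf, rfl⟩
      · simp at h2
      · exact branch_sound M Goal _ ih S hS f.2 X hX (hhit f hf) h

/-- branching, collecting states -/
def branchL (rec : ℕ → ℕ → List (ℕ × ℕ)) (S : ℕ) : List ℕ → ℕ → List (ℕ × ℕ)
  | [], _ => []
  | i :: l, X =>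
    cond (Nat.testBit X i) (branchL rec S l X)
      (rec (Nat.lor S (Nat.pow 2 i)) X ++ branchL rec S l (Nat.lor X (Nat.pow 2 i)))

/-- the states reached by the search at the given depth (and the leaves above it) -/
def frontier (good : ℕ → Bool) (L : List (ℕ × List ℕ)) : ℕ → ℕ → ℕ → List (ℕ × ℕ)
  | 0, S, X => [(S, X)]
  | n + 1, S, X =>
    cond (good S)
      (match pick S X L none with
        | none => [(S, X)]
        | some l => branchL (frontier good L n) S l X)
      []

theorem branchL_sound (M : ℕ → Prop) (rec : ℕ → ℕ → List (ℕ × ℕ))
    (hrec : ∀ S X, (∀ i, S.testBit i → M i) → (∀ i, X.testBit i → ¬ M i) →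
      ∃ st ∈ rec S X, (∀ i, st.1.testBit i → M i) ∧ (∀ i, st.2.testBit i → ¬ M i))
    (S : ℕ) (hS : ∀ i, S.testBit i → M i) (l : List ℕ) :
    ∀ X, (∀ i, X.testBit i → ¬ M i) → (∃ i ∈ l, M i) →
      ∃ st ∈ branchL rec S l X, (∀ i, st.1.testBit i → M i) ∧
        (∀ i, st.2.testBit i → ¬ M i) := by
  classical
  induction l with
  | nil => intro X _ h; simp at h
  | cons i l ih =>
    intro X hX hex
    cases hXi : X.testBit i with
    | true =>
      simp only [branchL, hXi, cond_true]
      apply ih X hX
      obtain ⟨j, hj, hMj⟩ := hex
      rcases List.mem_cons.1 hj with rfl | hj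
      · exact absurd hMj (hX _ hXi)
      · exact ⟨j, hj, hMj⟩
    | false =>
      simp only [branchL, hXi, cond_false]
      by_cases hMi : M i
      · obtain ⟨st, h1, h2⟩ := hrec (Nat.lor S (Nat.pow 2 i)) X (by
          intro j hj
          rw [testBit_insert] at hj
          simp only [Bool.or_eq_true, decide_eq_true_eq] at hj
          rcases hj with hj | rfl
          · exact hS j hj
          · exact hMi) hX
        exact ⟨st, List.mem_append_left _ h1, h2⟩
      · obtain ⟨st, h1, h2⟩ := ih (Nat.lor X (Nat.pow 2 i)) (by
          intro j hj
          rw [testBit_insert] at hj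
          simp only [Bool.or_eq_true, decide_eq_true_eq] at hj
          rcases hj with hj | rfl
          · exact hX j hj
          · exact hMi) (by
          obtain ⟨j, hj, hMj⟩ := hex
          rcases List.mem_cons.1 hj with rfl | hj
          · exact absurd hMj hMi
          · exact ⟨j, hj, hMj⟩)
        exact ⟨st, List.mem_append_right _ h1, h2⟩

/-- **Soundness of the frontier.** -/
theorem frontier_sound (M : ℕ → Prop) (L : List (ℕ × List ℕ)) (good : ℕ → Bool)
    (hhit : ∀ f ∈ L, ∃ i ∈ f.2, M i)
    (hgood : ∀ S : ℕ, (∀ i, S.testBit i → M i) → good S = true) :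
    ∀ (n S X : ℕ), (∀ i, S.testBit i → M i) → (∀ i, X.testBit i → ¬ M i) →
      ∃ st ∈ frontier good L n S X, (∀ i, st.1.testBit i → M i) ∧
        (∀ i, st.2.testBit i → ¬ M i) := by
  intro n
  induction n with
  | zero => intro S X hS hX; exact ⟨(S, X), by simp [frontier], hS, hX⟩
  | succ n ih =>
    intro S X hS hX
    simp only [frontier, hgood S hS, cond_true]
    cases hp : pick S X L none with
    | none => exact ⟨(S, X), by simp, hS, hX⟩
    | some l =>
      simp only
      rcases (pick_spec S X L none).1 l hp with h2 | ⟨f, hf, rfl⟩
      · simp at h2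
      · exact branchL_sound M _ ih S hS f.2 X hX (hhit f hf)

/-- `crit` computes all of `S` if each element of `S` is the only element of `M` in some set. -/
theorem crit_eq (M : ℕ → Prop) (L : List (ℕ × List ℕ)) (S : ℕ) (hS : ∀ i, S.testBit i → M i)
    (hpriv : ∀ i, M i → ∃ f ∈ L, f.1.testBit i ∧ ∀ j, f.1.testBit j → M j → j = i) :
    crit S L = S := by
  have h1 : ∀ (L : List (ℕ × List ℕ)) (i : ℕ), (crit S L).testBit i → S.testBit i := by
    intro L i
    induction L with
    | nil => simp [crit]
    | cons f L ih =>
      intro h
      cases hc : pow2? (Nat.land f.1 S) with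
      | true =>
        simp only [crit, hc, cond_true] at h
        have e : Nat.lor (Nat.land f.1 S) (crit S L) = (f.1 &&& S) ||| crit S L := rfl
        rw [e, Nat.testBit_or, Nat.testBit_and] at h
        simp only [Bool.or_eq_true, Bool.and_eq_true] at h
        rcases h with h | h
        · exact h.2
        · exact ih h
      | false =>
        simp only [crit, hc, cond_false] at h
        exact ih h
  have h2 : ∀ (L : List (ℕ × List ℕ)) (i : ℕ), S.testBit i →
      (∃ f ∈ L, f.1.testBit i ∧ ∀ j, f.1.testBit j → M j → j = i) → (crit S L).testBit i := by
    intro L i hi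
    induction L with
    | nil => simp
    | cons f L ih =>
      rintro ⟨g, hg, hg1, hg2⟩
      rcases List.mem_cons.1 hg with rfl | hg
      · have e : g.1 &&& S = 2 ^ i := by
          apply Nat.eq_of_testBit_eq
          intro j
          rw [Nat.testBit_and, Nat.testBit_two_pow]
          by_cases hj : i = j
          · subst hj; simp [hg1, hi]
          · simp only [hj, decide_false]
            cases h3 : g.1.testBit j with
            | false => simp
            | true =>
              cases h4 : S.testBit j with
              | false => simp
              | true => exact absurd (hg2 j h3 (hS j h4)).symm hj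
        have hc : pow2? (Nat.land g.1 S) = true := by
          have : Nat.land g.1 S = 2 ^ i := e
          rw [this]; exact pow2?_two_pow i
        simp only [crit, hc, cond_true]
        have e2 : Nat.lor (Nat.land g.1 S) (crit S L) = (g.1 &&& S) ||| crit S L := rfl
        rw [e2, Nat.testBit_or, e, Nat.testBit_two_pow]
        simp
      · have h5 := ih ⟨g, hg, hg1, hg2⟩
        cases hc : pow2? (Nat.land f.1 S) with
        | true =>
          simp only [crit, hc, cond_true]
          have e2 : Nat.lor (Nat.land f.1 S) (crit S L) = (f.1 &&& S) ||| crit S L := rfl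
          rw [e2, Nat.testBit_or, h5]
          simp
        | false =>
          simp only [crit, hc, cond_false]
          exact h5
  apply Nat.eq_of_testBit_eq
  intro i
  cases h3 : S.testBit i with
  | true => exact h2 L i h3 (hpriv i (hS i h3))
  | false =>
    cases h4 : (crit S L).testBit i with
    | false => rfl
    | true => rw [h1 L i h4] at h3; exact h3

/-- the number of bits of `S` below `n` -/
def popc (S : ℕ) : ℕ → ℕ
  | 0 => 0
  | n + 1 => cond (Nat.testBit S n) (Nat.succ (popc S n)) (popc S n)

theorem popc_eq (S n : ℕ) : popc S n = ((Finset.range n).filter (fun i => S.testBit i)).card := by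
  induction n with
  | zero => simp [popc]
  | succ n ih =>
    rw [Finset.range_add_one, Finset.filter_insert]
    cases h : S.testBit n with
    | true =>
      simp only [popc, h, cond_true, if_true]
      rw [Finset.card_insert_of_notMem (by simp), ih]
    | false =>
      simp only [popc, h, cond_false]
      rw [ih]; simp

end Q136.HitDFS
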