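import Mathlib

/-!
A verified search over the minimal hitting sets of a family of finite sets, in the transposed
form: element `i` has the mask `H i` of the members of the family that contain it.
-/

open Finset

namespace Q136.HitTree

/-- every mask of the list meets the mask `o` -/
def allMeet (o : ℕ) : List ℕ → Bool
  | [] => true
  | h :: cs => cond (Nat.beq (Nat.land h o) 0) false (allMeet o cs)

def branch (rec : List ℕ → ℕ → ℕ → ℕ → ℕ → Bool) (cs : List ℕ) (A B n : ℕ) :
    List (ℕ × ℕ) → ℕ → Bool
  | [], _ => true
  | e :: els, X =>
    cond (Nat.beq (Nat.land X e.1) 0)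
      (cond (allMeet (Nat.xor (Nat.lor A e.2) (Nat.lor B (Nat.land A e.2))) (e.2 :: cs))
        (cond (rec (e.2 :: cs) (Nat.lor A e.2) (Nat.lor B (Nat.land A e.2)) n.succ X)
          (branch rec cs A B n els (Nat.lor X e.1)) false)
        (branch rec cs A B n els (Nat.lor X e.1)))
      (branch rec cs A B n els X)

/-- `cs`: masks of the chosen elements, `A`: members hit, `B`: members hit at least twice,
`n`: number of the chosen elements, `X`: excluded elements -/
def search (ok : ℕ → Bool) : List (ℕ × List (ℕ × ℕ)) → List ℕ → ℕ → ℕ → ℕ → ℕ → Bool
  | [], _, _, _, n, _ => ok n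
  | r :: rows, cs, A, B, n, X =>
    cond (Nat.beq (Nat.land A r.1) 0)
      (branch (search ok rows) cs A B n r.2 X)
      (search ok rows cs A B n X)

theorem allMeet_true (o : ℕ) (cs : List ℕ) (h : ∀ c ∈ cs, ∃ k, c.testBit k ∧ o.testBit k) :
    allMeet o cs = true := by
  induction cs with
  | nil => rfl
  | cons c cs ih =>
    obtain ⟨k, h1, h2⟩ := h c (by simp)
    have h3 : Nat.beq (Nat.land c o) 0 = false := by
      cases hc : Nat.beq (Nat.land c o) 0 with
      | false => rfl
      | true =>
        have h4 : c &&& o = 0 := Nat.eq_of_beq_eq_true hc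
        have h5 : (c &&& o).testBit k = true := by rw [Nat.testBit_and, h1, h2]; rfl
        rw [h4] at h5
        simp at h5
    simp only [allMeet, h3, cond_false]
    exact ih (fun c' hc' => h c' (by simp [hc']))

/-- the invariant of the search -/
structure Inv (H : ℕ → ℕ) (M : Finset ℕ) (K : ℕ → Prop) (rows : List (ℕ × List (ℕ × ℕ)))
    (cs : List ℕ) (A B n X : ℕ) (Ch : Finset ℕ) : Prop where
  sub : Ch ⊆ M
  card : n = Ch.card
  hcs : ∀ c ∈ cs, ∃ e ∈ Ch, c = H e
  hA : ∀ k, A.testBit k = true ↔ ∃ e ∈ Ch, (H e).testBit k = true
  hB : ∀ k, B.testBit k = true → ∃ e ∈ Ch, ∃ e' ∈ Ch, e ≠ e' ∧ (H e).testBit k = true ∧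
    (H e').testBit k = true
  hX : ∀ i, X.testBit i = true → i ∉ M
  done : ∀ k, K k → (∃ r ∈ rows, r.1 = 2 ^ k) ∨ A.testBit k = true

theorem land_two_pow_eq_zero (A k : ℕ) : Nat.beq (Nat.land A (2 ^ k)) 0 = !(A.testBit k) := by
  cases h : A.testBit k with
  | true =>
    cases hc : Nat.beq (Nat.land A (2 ^ k)) 0 with
    | false => rfl
    | true =>
      have h4 : A &&& 2 ^ k = 0 := Nat.eq_of_beq_eq_true hc
      have h5 : (A &&& 2 ^ k).testBit k = true := by
        rw [Nat.testBit_and, h, Nat.testBit_two_pow]; simp
      rw [h4] at h5
      simp at h5
  | false =>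
    have h4 : A &&& 2 ^ k = 0 := by
      apply Nat.eq_of_testBit_eq
      intro j
      rw [Nat.testBit_and, Nat.testBit_two_pow]
      by_cases hj : k = j
      · subst hj; simp [h]
      · simp [hj]
    have h5 : Nat.land A (2 ^ k) = 0 := h4
    rw [h5]; rfl

theorem search_sound (H : ℕ → ℕ) (M : Finset ℕ) (K : ℕ → Prop) (ok : ℕ → Bool) (Goal : Prop)
    (hpriv : ∀ e ∈ M, ∃ k, K k ∧ (H e).testBit k = true ∧
      ∀ e' ∈ M, (H e').testBit k = true → e' = e)
    (hleaf : ok M.card = true → Goal) :
    ∀ (rows : List (ℕ × List (ℕ × ℕ))),
      (∀ r ∈ rows, ∃ k, r.1 = 2 ^ k ∧ (∀ e ∈ r.2, ∃ i, e = (2 ^ i, H i) ∧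
        (H i).testBit k = true) ∧ ∃ i ∈ M, (2 ^ i, H i) ∈ r.2) →
      ∀ (cs : List ℕ) (A B n X : ℕ) (Ch : Finset ℕ), Inv H M K rows cs A B n X Ch →
      search ok rows cs A B n X = true → Goal := by
  intro rows
  induction rows with
  | nil =>
    intro _ cs A B n X Ch hI h
    simp only [search] at h
    apply hleaf
    have hMC : M = Ch := by
      apply subset_antisymm _ hI.sub
      intro e he
      obtain ⟨k, hk, h1, h2⟩ := hpriv e he
      rcases hI.done k hk with ⟨r, hr, -⟩ | h3
      · simp at hr
      · obtain ⟨e', he', h4⟩ := (hI.hA k).1 h3
        rw [← h2 e' (hI.sub he') h4]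
        exact he'
    rw [hMC, ← hI.card]
    exact h
  | cons r rows ih =>
    intro hrows cs A B n X Ch hI h
    have hrows' := fun r' (hr' : r' ∈ rows) => hrows r' (List.mem_cons_of_mem _ hr')
    obtain ⟨k, hk1, hk2, hk3⟩ := hrows r (by simp)
    simp only [search, hk1] at h
    rw [land_two_pow_eq_zero] at h
    cases hA : A.testBit k with
    | true =>
      rw [hA] at h
      simp only [Bool.not_true, cond_false] at h
      refine ih hrows' cs A B n X Ch ⟨hI.sub, hI.card, hI.hcs, hI.hA, hI.hB, hI.hX, ?_⟩ h
      intro k' hk'
      rcases hI.done k' hk' with ⟨r', hr', h1⟩ | h1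
      · rcases List.mem_cons.1 hr' with rfl | hr'
        · rw [hk1] at h1
          have := Nat.pow_right_injective (le_refl 2) h1
          subst this
          exact Or.inr hA
        · exact Or.inl ⟨r', hr', h1⟩
      · exact Or.inr h1
    | false =>
      rw [hA] at h
      simp only [Bool.not_false, cond_true] at h
      -- induction over the elements of the row
      have key : ∀ (els : List (ℕ × ℕ)) (X : ℕ), (∀ e ∈ els, ∃ i, e = (2 ^ i, H i) ∧
          (H i).testBit k = true) → (∃ i ∈ M, (2 ^ i, H i) ∈ els) →
          (∀ i, X.testBit i = true → i ∉ M) →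
          branch (search ok rows) cs A B n els X = true → Goal := by
        intro els
        induction els with
        | nil => intro X _ h1; obtain ⟨i, _, hi⟩ := h1; simp at hi
        | cons e els ihe =>
          intro X hels hex hX hb
          have hels' := fun e' (he' : e' ∈ els) => hels e' (List.mem_cons_of_mem _ he')
          obtain ⟨i, rfl, hik⟩ := hels e (by simp)
          simp only [branch, land_two_pow_eq_zero] at hb
          cases hXi : X.testBit i with
          | true =>
            rw [hXi] at hb
            simp only [Bool.not_true, cond_false] at hb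
            apply ihe X hels' _ hX hb
            obtain ⟨j, hj, hjm⟩ := hex
            rcases List.mem_cons.1 hjm with h1 | h1
            · have h2 : (2:ℕ) ^ j = 2 ^ i := (Prod.ext_iff.1 h1).1
              have := Nat.pow_right_injective (le_refl 2) h2
              subst this
              exact absurd hj (hX _ hXi)
            · exact ⟨j, hj, h1⟩
          | false =>
            rw [hXi] at hb
            simp only [Bool.not_false, cond_true] at hb
            by_cases hiM : i ∈ M
            · have hiC : i ∉ Ch := by
                intro hi
                have := (hI.hA k).2 ⟨i, hi, hik⟩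
                rw [hA] at this
                simp at this
              have hA' : ∀ k, (Nat.lor A (H i)).testBit k = true ↔
                  ∃ e ∈ insert i Ch, (H e).testBit k = true := by
                intro k'
                have e1 : Nat.lor A (H i) = A ||| H i := rfl
                rw [e1, Nat.testBit_or, Bool.or_eq_true, hI.hA k']
                simp only [mem_insert, exists_eq_or_imp]
                exact or_comm
              have hB' : ∀ k, (Nat.lor B (Nat.land A (H i))).testBit k = true →
                  ∃ e ∈ insert i Ch, ∃ e' ∈ insert i Ch, e ≠ e' ∧ (H e).testBit k = true ∧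
                    (H e').testBit k = true := by
                intro k' hk'
                have e1 : Nat.lor B (Nat.land A (H i)) = B ||| (A &&& H i) := rfl
                rw [e1, Nat.testBit_or, Nat.testBit_and, Bool.or_eq_true, Bool.and_eq_true] at hk'
                rcases hk' with h1 | ⟨h1, h2⟩
                · obtain ⟨a, ha, b, hb', hab⟩ := hI.hB k' h1
                  exact ⟨a, mem_insert_of_mem ha, b, mem_insert_of_mem hb', hab⟩
                · obtain ⟨a, ha, ha2⟩ := (hI.hA k').1 h1
                  exact ⟨a, mem_insert_of_mem ha, i, mem_insert_self _ _,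
                    fun he => hiC (he ▸ ha), ha2, h2⟩
              have hsub : insert i Ch ⊆ M := by
                intro x hx
                rcases mem_insert.1 hx with rfl | hx
                · exact hiM
                · exact hI.sub hx
              have hcs' : ∀ c ∈ H i :: cs, ∃ e ∈ insert i Ch, c = H e := by
                intro c hc
                rcases List.mem_cons.1 hc with rfl | hc
                · exact ⟨i, mem_insert_self _ _, rfl⟩
                · obtain ⟨e, he, h1⟩ := hI.hcs c hc
                  exact ⟨e, mem_insert_of_mem he, h1⟩
              have hmeet : allMeet (Nat.xor (Nat.lor A (H i)) (Nat.lor B (Nat.land A (H i))))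
                  (H i :: cs) = true := by
                apply allMeet_true
                intro c hc
                obtain ⟨e, he, rfl⟩ := hcs' c hc
                obtain ⟨k', -, h1, h2⟩ := hpriv e (hsub he)
                refine ⟨k', h1, ?_⟩
                have e1 : Nat.xor (Nat.lor A (H i)) (Nat.lor B (Nat.land A (H i))) =
                  (Nat.lor A (H i)) ^^^ (Nat.lor B (Nat.land A (H i))) := rfl
                rw [e1, Nat.testBit_xor, (hA' k').2 ⟨e, he, h1⟩]
                cases h3 : (Nat.lor B (Nat.land A (H i))).testBit k' with
                | false => rfl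
                | true =>
                  obtain ⟨a, ha, b, hb', hab, h4, h5⟩ := hB' k' h3
                  exact absurd ((h2 a (hsub ha) h4).trans (h2 b (hsub hb') h5).symm) hab
              rw [hmeet] at hb
              simp only [cond_true] at hb
              cases hrec : search ok rows (H i :: cs) (Nat.lor A (H i))
                (Nat.lor B (Nat.land A (H i))) n.succ X with
              | false => rw [hrec] at hb; simp at hb
              | true =>
                refine ih hrows' _ _ _ _ _ (insert i Ch) ⟨hsub, ?_, hcs', hA', hB', hX, ?_⟩ hrec
                · rw [card_insert_of_notMem hiC, ← hI.card]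
                · intro k' hk'
                  rcases hI.done k' hk' with ⟨r', hr', h1⟩ | h1
                  · rcases List.mem_cons.1 hr' with rfl | hr'
                    · rw [hk1] at h1
                      have := Nat.pow_right_injective (le_refl 2) h1
                      subst this
                      exact Or.inr ((hA' k).2 ⟨i, mem_insert_self _ _, hik⟩)
                    · exact Or.inl ⟨r', hr', h1⟩
                  · right
                    obtain ⟨a, ha, ha2⟩ := (hI.hA k').1 h1
                    exact (hA' k').2 ⟨a, mem_insert_of_mem ha, ha2⟩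
            · have hX' : ∀ j, (Nat.lor X (2 ^ i)).testBit j = true → j ∉ M := by
                intro j hj
                have e1 : Nat.lor X (2 ^ i) = X ||| 2 ^ i := rfl
                rw [e1, Nat.testBit_or, Nat.testBit_two_pow, Bool.or_eq_true,
                  decide_eq_true_eq] at hj
                rcases hj with hj | rfl
                · exact hX j hj
                · exact hiM
              have hex' : ∃ i ∈ M, (2 ^ i, H i) ∈ els := by
                obtain ⟨j, hj, hjm⟩ := hex
                rcases List.mem_cons.1 hjm with h1 | h1
                · have h2 : (2:ℕ) ^ j = 2 ^ i := (Prod.ext_iff.1 h1).1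
                  have := Nat.pow_right_injective (le_refl 2) h2
                  subst this
                  exact absurd hj hiM
                · exact ⟨j, hj, h1⟩
              have hb' : branch (search ok rows) cs A B n els (Nat.lor X (2 ^ i)) = true := by
                revert hb
                cases allMeet (Nat.xor (Nat.lor A (H i)) (Nat.lor B (Nat.land A (H i))))
                  (H i :: cs) with
                | false => simp
                | true =>
                  simp only [cond_true]
                  cases search ok rows (H i :: cs) (Nat.lor A (H i))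
                    (Nat.lor B (Nat.land A (H i))) n.succ X with
                  | false => simp
                  | true => simp
              exact ihe _ hels' hex' hX' hb'
      exact key r.2 X hk2 hk3 hI.hX h

/-- the search from the empty set -/
theorem search_sound' (H : ℕ → ℕ) (M : Finset ℕ) (ok : ℕ → Bool) (Goal : Prop)
    (rows : List (ℕ × List (ℕ × ℕ)))
    (hpriv : ∀ e ∈ M, ∃ k, (∃ r ∈ rows, r.1 = 2 ^ k) ∧ (H e).testBit k = true ∧
      ∀ e' ∈ M, (H e').testBit k = true → e' = e)
    (hleaf : ok M.card = true → Goal)
    (hrows : ∀ r ∈ rows, ∃ k, r.1 = 2 ^ k ∧ (∀ e ∈ r.2, ∃ i, e = (2 ^ i, H i) ∧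
        (H i).testBit k = true) ∧ ∃ i ∈ M, (2 ^ i, H i) ∈ r.2)
    (h : search ok rows [] 0 0 0 0 = true) : Goal := by
  refine search_sound H M (fun k => ∃ r ∈ rows, r.1 = 2 ^ k) ok Goal hpriv hleaf rows hrows
    [] 0 0 0 0 ∅ ⟨by simp, by simp, by simp, by simp, by simp, by simp, ?_⟩ h
  intro k hk
  exact Or.inl hk

end Q136.HitTree
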