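import Mathlib

/-!
Numbers of positive and negative eigenvalues of real symmetric matrices.
-/

open Matrix QuadraticMap

namespace Q136.Inertia

variable {n : Type} [Fintype n] [DecidableEq n]

open Classical in
/-- the number of positive eigenvalues, with multiplicities -/
noncomputable def posEig (A : Matrix n n ℝ) : ℕ :=
  (A.charpoly.roots.filter (fun x => 0 < x)).card

open Classical in
/-- the number of negative eigenvalues, with multiplicities -/
noncomputable def negEig (A : Matrix n n ℝ) : ℕ :=
  (A.charpoly.roots.filter (fun x => x < 0)).card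

/-- the quadratic form of a matrix -/
noncomputable def QF (A : Matrix n n ℝ) : QuadraticForm ℝ (n → ℝ) := A.toQuadraticForm'

lemma QF_apply (A : Matrix n n ℝ) (x : n → ℝ) : QF A x = x ⬝ᵥ A *ᵥ x := by
  unfold QF Matrix.toQuadraticForm'
  rw [LinearMap.BilinMap.toQuadraticMap_apply, Matrix.toLinearMap₂'_apply']

/-- a congruence gives an equivalence with a weighted sum of squares -/
lemma equiv_of_congr (A P : Matrix n n ℝ) (hP : IsUnit P.det) (w : n → ℝ)
    (h : Pᵀ * A * P = diagonal w) : Equivalent (QF A) (weightedSumSquares ℝ w) := by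
  have hu : IsUnit P := (Matrix.isUnit_iff_isUnit_det P).2 hP
  apply Equivalent.symm
  refine ⟨⟨Matrix.toLinearEquiv' P hu.invertible, ?_⟩⟩
  intro x
  have h1 : (Matrix.toLinearEquiv' P hu.invertible) x = P *ᵥ x := rfl
  show QF A ((Matrix.toLinearEquiv' P hu.invertible) x) = _
  rw [h1, QF_apply, weightedSumSquares_apply]
  have h2 : (P *ᵥ x) ⬝ᵥ A *ᵥ (P *ᵥ x) = x ⬝ᵥ (Pᵀ * A * P) *ᵥ x := by
    rw [← Matrix.mulVec_mulVec, ← Matrix.mulVec_mulVec, Matrix.dotProduct_mulVec x Pᵀ,
      Matrix.vecMul_transpose]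
  rw [h2, h]
  simp only [dotProduct, mulVec_diagonal, smul_eq_mul]
  apply Finset.sum_congr rfl
  intro i _
  ring

lemma equiv_eigenvalues (A : Matrix n n ℝ) (hA : A.IsHermitian) :
    Equivalent (QF A) (weightedSumSquares ℝ hA.eigenvalues) := by
  apply equiv_of_congr A (hA.eigenvectorUnitary : Matrix n n ℝ)
  · exact (Matrix.isUnit_iff_isUnit_det _).1 (Unitary.toUnits hA.eigenvectorUnitary).isUnit
  · have h := hA.conjStarAlgAut_star_eigenvectorUnitary
    rw [Unitary.conjStarAlgAut_apply] at h
    simp only [Unitary.coe_star, star_star] at h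
    have e : (hA.eigenvectorUnitary : Matrix n n ℝ)ᵀ = star (hA.eigenvectorUnitary : Matrix n n ℝ) := by
      ext i j
      simp
    rw [e]
    simpa using h

lemma posEig_eq_sigPos (A : Matrix n n ℝ) (hA : A.IsHermitian) : posEig A = sigPos (QF A) := by
  classical
  rw [QuadraticForm.sigPos_of_equiv_weightedSumSquares (equiv_eigenvalues A hA)]
  unfold posEig
  rw [hA.roots_charpoly_eq_eigenvalues, Multiset.filter_map, Multiset.card_map]
  rw [Set.ncard_eq_toFinset_card']
  rw [Finset.card_def]
  congr 1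
  ext i
  simp

lemma negEig_eq_sigNeg (A : Matrix n n ℝ) (hA : A.IsHermitian) : negEig A = sigNeg (QF A) := by
  classical
  rw [QuadraticForm.sigNeg_of_equiv_weightedSumSquares (equiv_eigenvalues A hA)]
  unfold negEig
  rw [hA.roots_charpoly_eq_eigenvalues, Multiset.filter_map, Multiset.card_map]
  rw [Set.ncard_eq_toFinset_card']
  rw [Finset.card_def]
  congr 1
  ext i
  simp

theorem posEig_of_congr (A P : Matrix n n ℝ) (hA : Aᵀ = A) (hP : IsUnit P.det) (w : n → ℝ)
    (h : Pᵀ * A * P = diagonal w) : posEig A = {i | 0 < w i}.ncard := by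
  have hA' : A.IsHermitian := by
    rw [Matrix.IsHermitian, Matrix.conjTranspose_eq_transpose_of_trivial]; exact hA
  rw [posEig_eq_sigPos A hA']
  exact QuadraticForm.sigPos_of_equiv_weightedSumSquares (equiv_of_congr A P hP w h)

theorem negEig_of_congr (A P : Matrix n n ℝ) (hA : Aᵀ = A) (hP : IsUnit P.det) (w : n → ℝ)
    (h : Pᵀ * A * P = diagonal w) : negEig A = {i | w i < 0}.ncard := by
  have hA' : A.IsHermitian := by
    rw [Matrix.IsHermitian, Matrix.conjTranspose_eq_transpose_of_trivial]; exact hA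
  rw [negEig_eq_sigNeg A hA']
  exact QuadraticForm.sigNeg_of_equiv_weightedSumSquares (equiv_of_congr A P hP w h)

end Q136.Inertia
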