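import Mathlib
import Pool.Agent.Q136.Inertia

/-!
Partial real symmetric matrices for semisimple graphs.
-/

open Matrix Finset

namespace Q136.PMat

/-- A semisimple graph on the vertex set `{0, ..., n-1}`, given by its set of edges; an edge
`s(i, i)` is a loop. -/
abbrev Graph (n : ℕ) : Type := Set (Sym2 (Fin n))

/-- A `G`-partial matrix: a real number for every edge of `G`. -/
abbrev PartialMatrix {n : ℕ} (G : Graph n) : Type := G → ℝ

/-- `A` is a completion of `M`: a real symmetric matrix that agrees with `M` on the specified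
entries. -/
def IsCompletion {n : ℕ} {G : Graph n} (M : PartialMatrix G) (A : Matrix (Fin n) (Fin n) ℝ) :
    Prop :=
  Aᵀ = A ∧ ∀ (i j : Fin n) (h : s(i, j) ∈ G), A i j = M ⟨s(i, j), h⟩

/-- `M` is minimally completable to rank `r`: it has a completion of rank `r` and none of smaller
rank. -/
def MinimallyCompletable {n : ℕ} {G : Graph n} (M : PartialMatrix G) (r : ℕ) : Prop :=
  (∃ A, IsCompletion M A ∧ A.rank = r) ∧ ∀ A, IsCompletion M A → r ≤ A.rank

/-- `r` is a typical rank of `G`: some nonempty open set consists of `G`-partial matrices that are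
minimally completable to rank `r`. -/
def IsTypicalRank {n : ℕ} (G : Graph n) (r : ℕ) : Prop :=
  ∃ U : Set (PartialMatrix G), IsOpen U ∧ U.Nonempty ∧ ∀ M ∈ U, MinimallyCompletable M r

/-- `G` is full-rank typical: the number of its vertices is a typical rank of `G`. -/
def FullRankTypical {n : ℕ} (G : Graph n) : Prop := IsTypicalRank G n

/-- All completions of `M` have exactly `p` positive and `q` negative eigenvalues (counted with
multiplicities as roots of the characteristic polynomial). -/
def HasInertia {n : ℕ} {G : Graph n} (M : PartialMatrix G) (p q : ℕ) : Prop :=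
  ∀ A, IsCompletion M A → Q136.Inertia.posEig A = p ∧ Q136.Inertia.negEig A = q

/-- `c` (`true` for red, `false` for blue) is a proper bicoloring of the complement of `G`, in
which `i` and `j` are joined (for `i = j`: there is a loop at `i`) if and only if `s(i, j)` is not
in `G`. -/
def IsProperBicoloring {n : ℕ} (G : Graph n) (c : Fin n → Bool) : Prop :=
  ∀ i j, s(i, j) ∉ G → c i ≠ c j

/-- every partial matrix has a completion -/
lemma exists_completion {n : ℕ} {G : Graph n} (M : PartialMatrix G) : ∃ A, IsCompletion M A := by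
  classical
  refine ⟨Matrix.of (fun i j => if h : s(i, j) ∈ G then M ⟨s(i, j), h⟩ else 0), ?_, ?_⟩
  · ext i j
    simp only [transpose_apply, of_apply]
    by_cases h : s(j, i) ∈ G
    · have h' : s(i, j) ∈ G := by rw [Sym2.eq_swap]; exact h
      rw [dif_pos h, dif_pos h']
      congr 1
      exact Subtype.ext Sym2.eq_swap
    · have h' : s(i, j) ∉ G := by rw [Sym2.eq_swap]; exact h
      rw [dif_neg h, dif_neg h']
  · intro i j h
    simp [h]

/-- A matrix with trivial kernel has full rank. -/
lemma rank_of_det {n : ℕ} (A : Matrix (Fin n) (Fin n) ℝ) (h : A.det ≠ 0) : A.rank = n := by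
  have := Matrix.rank_of_isUnit A ((Matrix.isUnit_iff_isUnit_det A).2 (isUnit_iff_ne_zero.2 h))
  simpa using this

/-- sign of a color -/
def sg (b : Bool) : ℝ := if b then 1 else -1

lemma sg_sq (b : Bool) : sg b * sg b = 1 := by cases b <;> norm_num [sg]

lemma sg_add_of_ne {a b : Bool} (h : a ≠ b) : sg a + sg b = 0 := by
  cases a <;> cases b <;> simp_all [sg]

lemma abs_sg (b : Bool) : |sg b| = 1 := by cases b <;> norm_num [sg]

/-- the form `2 vᵀ J A v` -/
lemma two_form {n : ℕ} (A : Matrix (Fin n) (Fin n) ℝ) (hA : Aᵀ = A) (c : Fin n → Bool)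
    (v : Fin n → ℝ) :
    2 * ∑ i, sg (c i) * v i * (A *ᵥ v) i = ∑ i, ∑ j, (sg (c i) + sg (c j)) * A i j * v i * v j := by
  have h1 : ∑ i, sg (c i) * v i * (A *ᵥ v) i = ∑ i, ∑ j, sg (c i) * A i j * v i * v j := by
    apply sum_congr rfl
    intro i _
    rw [mulVec, dotProduct, mul_sum]
    apply sum_congr rfl
    intro j _
    ring
  have h2 : ∑ i, ∑ j, sg (c i) * A i j * v i * v j = ∑ i, ∑ j, sg (c j) * A i j * v i * v j := by
    rw [sum_comm]
    apply sum_congr rfl
    intro i _
    apply sum_congr rfl
    intro j _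
    have : A j i = A i j := by
      conv_rhs => rw [← hA]
      rfl
    rw [this]; ring
  have h3 : 2 * ∑ i, sg (c i) * v i * (A *ᵥ v) i = ∑ i, ∑ j, sg (c i) * A i j * v i * v j +
      ∑ i, ∑ j, sg (c j) * A i j * v i * v j := by
    rw [← h2, h1]; ring
  rw [h3, ← sum_add_distrib]
  apply sum_congr rfl
  intro i _
  rw [← sum_add_distrib]
  apply sum_congr rfl
  intro j _
  ring

/-- If the complement of `G` has a proper bicoloring then `G` is full-rank typical. -/
theorem fullRankTypical_of_bicoloring {n : ℕ} (G : Graph n) (c : Fin n → Bool)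
    (hc : IsProperBicoloring G c) : FullRankTypical G := by
  classical
  rcases Nat.eq_zero_or_pos n with hn | hn
  · subst hn
    refine ⟨Set.univ, isOpen_univ, ⟨fun _ => 0, trivial⟩, fun M _ => ⟨?_, fun A _ => Nat.zero_le _⟩⟩
    obtain ⟨A, hA⟩ := exists_completion M
    exact ⟨A, hA, by have := A.rank_le_width; omega⟩
  have hnR : (0 : ℝ) < n := by exact_mod_cast hn
  have hloop : ∀ i, s(i, i) ∈ G := by
    intro i
    by_contra h
    exact hc i i h rfl
  let U : Set (PartialMatrix G) := {M | ∀ x : G, ∀ i j : Fin n, (x : Sym2 (Fin n)) = s(i, j) →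
    (i = j → 1 < sg (c i) * M x) ∧ (i ≠ j → |M x| < 1 / (2 * n))}
  refine ⟨U, ?_, ?_, ?_⟩
  · have : U = ⋂ x : G, ⋂ i : Fin n, ⋂ j : Fin n, {M : PartialMatrix G |
        (x : Sym2 (Fin n)) = s(i, j) →
        (i = j → 1 < sg (c i) * M x) ∧ (i ≠ j → |M x| < 1 / (2 * n))} := by
      ext M; simp [U]
    rw [this]
    have : Finite G := inferInstance
    refine isOpen_iInter_of_finite fun x => isOpen_iInter_of_finite fun i =>
      isOpen_iInter_of_finite fun j => ?_
    by_cases hx : (x : Sym2 (Fin n)) = s(i, j)
    · by_cases hij : i = j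
      · have : {M : PartialMatrix G | (x : Sym2 (Fin n)) = s(i, j) →
            (i = j → 1 < sg (c i) * M x) ∧ (i ≠ j → |M x| < 1 / (2 * n))} =
            {M | 1 < sg (c i) * M x} := by
          ext M; simp [hx, hij]
        rw [this]
        exact isOpen_lt continuous_const (by fun_prop)
      · have : {M : PartialMatrix G | (x : Sym2 (Fin n)) = s(i, j) →
            (i = j → 1 < sg (c i) * M x) ∧ (i ≠ j → |M x| < 1 / (2 * n))} =
            {M : PartialMatrix G | |M x| < 1 / (2 * (n : ℝ))} := by
          ext M; simp [hx, hij]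
        rw [this]
        exact isOpen_lt (by fun_prop) continuous_const
    · have : {M : PartialMatrix G | (x : Sym2 (Fin n)) = s(i, j) →
            (i = j → 1 < sg (c i) * M x) ∧ (i ≠ j → |M x| < 1 / (2 * n))} = Set.univ := by
        ext M; simp [hx]
      rw [this]; exact isOpen_univ
  · refine ⟨fun x => if h : ∃ i, (x : Sym2 (Fin n)) = s(i, i) then 2 * sg (c h.choose) else 0, ?_⟩
    intro x i j hx
    constructor
    · intro hij
      subst hij
      have hex : ∃ k, (x : Sym2 (Fin n)) = s(k, k) := ⟨i, hx⟩
      simp only [dif_pos hex]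
      have hk := hex.choose_spec
      have : hex.choose = i := by
        have h1 : s(hex.choose, hex.choose) = s(i, i) := hk.symm.trans hx
        rw [Sym2.eq_iff] at h1
        rcases h1 with h1 | h1
        · exact h1.1
        · exact h1.1
      rw [this]
      have := sg_sq (c i)
      nlinarith
    · intro hij
      have hno : ¬ ∃ k, (x : Sym2 (Fin n)) = s(k, k) := by
        rintro ⟨k, hk⟩
        have h1 : s(i, j) = s(k, k) := hx.symm.trans hk
        rw [Sym2.eq_iff] at h1
        rcases h1 with h1 | h1
        · exact hij (h1.1.trans h1.2.symm)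
        · exact hij (h1.1.trans h1.2.symm)
      simp only [dif_neg hno, abs_zero]
      positivity
  · intro M hM
    have hall : ∀ A, IsCompletion M A → A.rank = n := by
      intro A hA
      apply rank_of_det
      intro hdet
      obtain ⟨v, hv, hAv⟩ := Matrix.exists_mulVec_eq_zero_iff.2 hdet
      have h1 := two_form A hA.1 c v
      have h2 : ∑ i, sg (c i) * v i * (A *ᵥ v) i = 0 := by
        rw [hAv]; simp
      rw [h2, mul_zero] at h1
      have h3 : ∀ i j, (if i = j then 2 * (v i) ^ 2 else 0) - 1 / n * (|v i| * |v j|) ≤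
          (sg (c i) + sg (c j)) * A i j * v i * v j := by
        intro i j
        by_cases hij : i = j
        · subst hij
          rw [if_pos rfl]
          have h4 := (hM ⟨s(i, i), hloop i⟩ i i rfl).1 rfl
          rw [← hA.2 i i (hloop i)] at h4
          have h5 : (sg (c i) + sg (c i)) * A i i * v i * v i = 2 * (sg (c i) * A i i) * v i ^ 2 := by
            ring
          rw [h5]
          have h6 : 0 ≤ v i ^ 2 := sq_nonneg _
          have h7 : 0 ≤ 1 / (n : ℝ) * (|v i| * |v i|) := by positivity
          nlinarith
        · rw [if_neg hij]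
          by_cases hG : s(i, j) ∈ G
          · have h4 := (hM ⟨s(i, j), hG⟩ i j rfl).2 hij
            rw [← hA.2 i j hG] at h4
            have h5 : |(sg (c i) + sg (c j)) * A i j * v i * v j| ≤
                2 * (1 / (2 * n)) * (|v i| * |v j|) := by
              have h6 : |sg (c i) + sg (c j)| ≤ 2 := by
                refine (abs_add_le _ _).trans ?_
                rw [abs_sg, abs_sg]; norm_num
              calc |(sg (c i) + sg (c j)) * A i j * v i * v j|
                  = (|sg (c i) + sg (c j)| * |A i j|) * (|v i| * |v j|) := by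
                    rw [abs_mul, abs_mul, abs_mul]; ring
                _ ≤ (2 * (1 / (2 * n))) * (|v i| * |v j|) := by
                    apply mul_le_mul_of_nonneg_right _ (by positivity)
                    exact mul_le_mul h6 h4.le (abs_nonneg _) (by norm_num)
            have h7 : 2 * (1 / (2 * (n : ℝ))) = 1 / n := by field_simp
            rw [h7] at h5
            have h8 := (abs_le.1 h5).1
            linarith
          · have h4 := sg_add_of_ne (hc i j hG)
            rw [h4]
            have h7 : 0 ≤ 1 / (n : ℝ) * (|v i| * |v j|) := by positivity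
            simp only [zero_mul]
            linarith
      have h4 : ∑ i, ∑ j, ((if i = j then 2 * (v i) ^ 2 else 0) - 1 / (n : ℝ) * (|v i| * |v j|)) ≤ 0 := by
        exact (sum_le_sum fun i _ => sum_le_sum fun j _ => h3 i j).trans h1.symm.le
      have h5 : ∑ i, ∑ j, ((if i = j then 2 * (v i) ^ 2 else 0) - 1 / (n : ℝ) * (|v i| * |v j|)) =
          2 * ∑ i, v i ^ 2 - 1 / n * (∑ i, |v i|) ^ 2 := by
        simp only [sum_sub_distrib, sum_ite_eq, mem_univ, if_true]
        rw [mul_sum, sq, sum_mul_sum]
        congr 1
        rw [mul_sum]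
        apply sum_congr rfl
        intro i _
        rw [mul_sum]
      rw [h5] at h4
      have h6 : (∑ i, |v i|) ^ 2 ≤ n * ∑ i, v i ^ 2 := by
        have := sq_sum_le_card_mul_sum_sq (s := (univ : Finset (Fin n))) (f := fun i => |v i|)
        simpa using this
      have h7 : 1 / (n : ℝ) * (∑ i, |v i|) ^ 2 ≤ ∑ i, v i ^ 2 := by
        rw [div_mul_eq_mul_div, one_mul, div_le_iff₀ hnR]
        linarith
      have h8 : ∑ i, v i ^ 2 ≤ 0 := by linarith
      apply hv
      funext i
      have h9 : v i ^ 2 ≤ ∑ i, v i ^ 2 :=
        single_le_sum (f := fun i => v i ^ 2) (fun i _ => sq_nonneg _) (mem_univ i)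
      have h10 : v i ^ 2 = 0 := le_antisymm (h9.trans h8) (sq_nonneg _)
      simpa using h10
    obtain ⟨A, hA⟩ := exists_completion M
    exact ⟨⟨A, hA, hall A hA⟩, fun B hB => (hall B hB).ge⟩

end Q136.PMat
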